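import Mathlib

/-!
# MP_c0b923_gt: the smallest ball containing a compact set
-/

set_option autoImplicit false

open Metric Filter

namespace Pool.Agent.CubeM

variable {E : Type*} [NormedAddCommGroup E] [InnerProductSpace ℝ E]

theorem dist_combo (z p q : E) (t : ℝ) :
    dist z ((1 - t) • p + t • q) ^ 2 =
      (1 - t) * dist z p ^ 2 + t * dist z q ^ 2 - t * (1 - t) * dist q p ^ 2 := by
  have h1 : z - ((1 - t) • p + t • q) = (1 - t) • (z - p) + t • (z - q) := by
    module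
  have h2 : q - p = (z - p) - (z - q) := by abel
  have e1 := norm_add_sq_real ((1 - t) • (z - p)) (t • (z - q))
  have e2 := norm_sub_sq_real (z - p) (z - q)
  rw [norm_smul, norm_smul, real_inner_smul_left, real_inner_smul_right, mul_pow, mul_pow,
    Real.norm_eq_abs, Real.norm_eq_abs, sq_abs, sq_abs] at e1
  rw [dist_eq_norm, dist_eq_norm, dist_eq_norm, dist_eq_norm, h1, h2, e1, e2]
  ring

theorem exists_min_ball [ProperSpace E] {K : Set E} (hK : IsCompact K) (hne : K.Nonempty) :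
    ∃ (p : E) (R : ℝ), 0 ≤ R ∧ (∀ z ∈ K, dist z p ≤ R) ∧
      ∀ (q : E) (ρ : ℝ), (∀ z ∈ K, dist z q ≤ ρ) → R ^ 2 + dist q p ^ 2 ≤ ρ ^ 2 := by
  have hatt : ∀ q : E, ∃ z ∈ K, ∀ z' ∈ K, dist z' q ≤ dist z q := by
    intro q
    obtain ⟨z, hz, h⟩ := hK.exists_isMaxOn hne
      (f := fun z => dist z q) (continuous_id.dist continuous_const).continuousOn
    exact ⟨z, hz, fun z' hz' => h hz'⟩
  choose m hm hmax using hatt
  have hL : LipschitzWith 1 fun q => dist (m q) q := by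
    apply LipschitzWith.of_le_add
    intro q q'
    have h1 := dist_triangle (m q) q' q
    have h2 := hmax q' (m q) (hm q)
    rw [dist_comm q' q] at h1
    linarith
  obtain ⟨z0, hz0⟩ := hne
  have htend : Tendsto (fun q => dist (m q) q) (cocompact E) atTop := by
    refine tendsto_atTop_mono (fun q => hmax q z0 hz0) ?_
    exact tendsto_dist_left_cocompact_atTop z0
  obtain ⟨p, hp⟩ := hL.continuous.exists_forall_le htend
  refine ⟨p, dist (m p) p, dist_nonneg, fun z hz => hmax p z hz, fun q ρ hq => ?_⟩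
  have hρ0 : 0 ≤ ρ := dist_nonneg.trans (hq z0 hz0)
  have key : ∀ t : ℝ, 0 < t → t < 1 →
      dist (m p) p ^ 2 + (1 - t) * dist q p ^ 2 ≤ ρ ^ 2 := by
    intro t ht0 ht1
    obtain ⟨qt, hqt⟩ : ∃ qt : E, qt = (1 - t) • p + t • q := ⟨_, rfl⟩
    have h1 := dist_combo (m qt) p q t
    rw [← hqt] at h1
    have h2 : dist (m p) p ^ 2 ≤ dist (m qt) qt ^ 2 :=
      pow_le_pow_left₀ dist_nonneg (hp qt) 2
    have h3 : dist (m qt) p ^ 2 ≤ dist (m p) p ^ 2 :=
      pow_le_pow_left₀ dist_nonneg (hmax p _ (hm qt)) 2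
    have h4 : dist (m qt) q ^ 2 ≤ ρ ^ 2 :=
      pow_le_pow_left₀ dist_nonneg (hq _ (hm qt)) 2
    have h5 : t * (dist (m p) p ^ 2 + (1 - t) * dist q p ^ 2) ≤ t * ρ ^ 2 := by
      have h6 := mul_le_mul_of_nonneg_left h3 (by linarith : 0 ≤ 1 - t)
      have h7 := mul_le_mul_of_nonneg_left h4 ht0.le
      nlinarith
    exact le_of_mul_le_mul_left h5 ht0
  by_contra hcon
  rw [not_le] at hcon
  obtain ⟨d, hd⟩ : ∃ d : ℝ, d = dist q p ^ 2 := ⟨_, rfl⟩
  have hd0 : 0 ≤ d := by rw [hd]; positivity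
  rw [← hd] at hcon key
  obtain ⟨e, he⟩ : ∃ e : ℝ, e = dist (m p) p ^ 2 + d - ρ ^ 2 := ⟨_, rfl⟩
  have he0 : 0 < e := by linarith
  have ht0 : 0 < min (1 / 2) (e / (d + 1)) := lt_min (by norm_num) (by positivity)
  have h1 := key (min (1 / 2) (e / (d + 1))) ht0
    ((min_le_left _ _).trans_lt (by norm_num))
  have h2 : min (1 / 2) (e / (d + 1)) * (d + 1) ≤ e := by
    have := mul_le_mul_of_nonneg_right (min_le_right (1 / 2) (e / (d + 1)))
      (by linarith : 0 ≤ d + 1)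
    rwa [div_mul_cancel₀ _ (by linarith : d + 1 ≠ 0)] at this
  nlinarith

end Pool.Agent.CubeM
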