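import Pool.Agent.CubeM.ParChain
import Pool.Agent.CubeM.LocU

/-!
# MP_c0b923_gt: the doubled homotopy
-/

set_option autoImplicit false

open Metric

namespace Pool.Agent.CubeM

open Pool.Agent.Expand Pool.Agent.CubeE

variable {n : ℕ}

/-- the parameter: `0` for `e ≤ 1`, `T` for `e ≥ 2` -/
noncomputable def par (T e : ℝ) : ℝ := T * max 0 (min 1 (e - 1))

theorem par_mem {T : ℝ} (h0 : 0 ≤ T) (e : ℝ) : par T e ∈ Set.Icc (0 : ℝ) T := by
  have h1 : max 0 (min 1 (e - 1)) ≤ 1 := max_le zero_le_one (min_le_left _ _)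
  refine ⟨mul_nonneg h0 (le_max_left _ _), ?_⟩
  have := mul_le_mul_of_nonneg_left h1 h0
  rw [mul_one] at this
  exact this

theorem par_zero {T e : ℝ} (h : e ≤ 1) : par T e = 0 := by
  rw [par, max_eq_left ((min_le_right _ _).trans (by linarith)), mul_zero]

theorem par_top {T e : ℝ} (h : 2 ≤ e) : par T e = T := by
  rw [par, min_eq_left (by linarith), max_eq_right zero_le_one, mul_one]

theorem continuous_par (T : ℝ) : Continuous (par T) := by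
  unfold par
  fun_prop

/-- the maps `H s - p s` -/
noncomputable def KK (H : ℝ → EuclideanSpace ℝ (Fin n) → EuclideanSpace ℝ (Fin n))
    (p : ℝ → EuclideanSpace ℝ (Fin n)) (T σ : ℝ) (y : EuclideanSpace ℝ (Fin n)) :
    EuclideanSpace ℝ (Fin n) :=
  H (par T σ) y - p (par T σ)

/-- the doubled homotopy -/
noncomputable def GG (H : ℝ → EuclideanSpace ℝ (Fin n) → EuclideanSpace ℝ (Fin n))
    (p : ℝ → EuclideanSpace ℝ (Fin n)) (T σ : ℝ) (y : EuclideanSpace ℝ (Fin n)) :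
    EuclideanSpace ℝ (Fin n) :=
  KK H p T σ y - KK H p T (-σ) (-y) - y

/-- the doubled path -/
noncomputable def XX (x : ℝ → EuclideanSpace ℝ (Fin n)) (T σ : ℝ) : EuclideanSpace ℝ (Fin n) :=
  x (par T σ) - x (par T (-σ))

/-- the data of `claim` -/
structure Dat (H : ℝ → EuclideanSpace ℝ (Fin n) → EuclideanSpace ℝ (Fin n))
    (p : ℝ → EuclideanSpace ℝ (Fin n)) (r : ℝ → ℝ) (ρ T : ℝ)
    (x : ℝ → EuclideanSpace ℝ (Fin n)) (δ0 : ℝ) : Prop where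
  cont : ContinuousOn (fun q : ℝ × EuclideanSpace ℝ (Fin n) => H q.1 q.2)
    (Set.Icc (0 : ℝ) 1 ×ˢ cube n)
  hδ0 : 0 < δ0
  huni : ∀ s ∈ Set.Icc (0 : ℝ) 1, ∀ y ∈ cube n, ∀ z ∈ cube n, dist y z < δ0 →
    dist y z ≤ dist (H s y) (H s z)
  h0 : ∀ x ∈ cube n, H 0 x = x
  hp : ContinuousOn p (Set.Icc 0 1)
  hp0 : p 0 = 0
  hr : ∀ s ∈ Set.Icc (0 : ℝ) 1, ∀ y ∈ cube n, dist (H s y) (p s) ≤ r s
  hrρ : ∀ s ∈ Set.Icc (0 : ℝ) 1, r s ≤ ρ
  hT0 : 0 ≤ T
  hT1 : T ≤ 1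
  hx : ContinuousOn x (Set.Icc 0 T)
  hx0 : x 0 = 0
  hxp : ∀ s ∈ Set.Icc (0 : ℝ) T, H s (x s) = p s

variable {H : ℝ → EuclideanSpace ℝ (Fin n) → EuclideanSpace ℝ (Fin n)}
    {p : ℝ → EuclideanSpace ℝ (Fin n)} {r : ℝ → ℝ} {ρ T : ℝ}
    {x : ℝ → EuclideanSpace ℝ (Fin n)} {δ0 : ℝ}

theorem neg_mem_cube {y : EuclideanSpace ℝ (Fin n)} (hy : y ∈ cube n) : -y ∈ cube n := by
  intro i
  rw [PiLp.neg_apply, abs_neg]
  exact hy i

theorem Dat.mem1 (D : Dat H p r ρ T x δ0) (σ : ℝ) : par T σ ∈ Set.Icc (0 : ℝ) 1 :=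
  ⟨(par_mem D.hT0 σ).1, (par_mem D.hT0 σ).2.trans D.hT1⟩

theorem Dat.KK_id (D : Dat H p r ρ T x δ0) {σ : ℝ} (hσ : σ ≤ 1)
    {y : EuclideanSpace ℝ (Fin n)} (hy : y ∈ cube n) : KK H p T σ y = y := by
  rw [KK, par_zero hσ, D.h0 y hy, D.hp0, sub_zero]

theorem Dat.GG_pos (D : Dat H p r ρ T x δ0) {σ : ℝ} (hσ : -1 ≤ σ)
    {y : EuclideanSpace ℝ (Fin n)} (hy : y ∈ cube n) : GG H p T σ y = KK H p T σ y := by
  rw [GG, D.KK_id (by linarith : -σ ≤ 1) (neg_mem_cube hy)]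
  abel

theorem Dat.GG_neg (D : Dat H p r ρ T x δ0) {σ : ℝ} (hσ : σ ≤ 1)
    {y : EuclideanSpace ℝ (Fin n)} (hy : y ∈ cube n) :
    GG H p T σ y = -KK H p T (-σ) (-y) := by
  rw [GG, D.KK_id hσ hy]
  abel

theorem GG_odd (σ : ℝ) (y : EuclideanSpace ℝ (Fin n)) :
    GG H p T (-σ) (-y) = -GG H p T σ y := by
  rw [GG, GG, neg_neg, neg_neg]
  abel

theorem XX_odd (σ : ℝ) : XX x T (-σ) = -XX x T σ := by
  rw [XX, XX, neg_neg]
  abel

theorem Dat.XX_pos (D : Dat H p r ρ T x δ0) {σ : ℝ} (hσ : -1 ≤ σ) :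
    XX x T σ = x (par T σ) := by
  rw [XX, par_zero (by linarith : -σ ≤ 1), D.hx0, sub_zero]

theorem Dat.XX_neg (D : Dat H p r ρ T x δ0) {σ : ℝ} (hσ : σ ≤ 1) :
    XX x T σ = -x (par T (-σ)) := by
  rw [XX, par_zero hσ, D.hx0, zero_sub]

theorem Dat.GG_id (D : Dat H p r ρ T x δ0) {σ : ℝ} (hσ : |σ| ≤ 1)
    {y : EuclideanSpace ℝ (Fin n)} (hy : y ∈ cube n) : GG H p T σ y = y := by
  rw [D.GG_pos (abs_le.mp hσ).1 hy, D.KK_id (abs_le.mp hσ).2 hy]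

theorem Dat.XX_id (D : Dat H p r ρ T x δ0) {σ : ℝ} (hσ : |σ| ≤ 1) : XX x T σ = 0 := by
  rw [D.XX_pos (abs_le.mp hσ).1, par_zero (abs_le.mp hσ).2, D.hx0]

theorem Dat.norm_KK (D : Dat H p r ρ T x δ0) (σ : ℝ)
    {y : EuclideanSpace ℝ (Fin n)} (hy : y ∈ cube n) : ‖KK H p T σ y‖ ≤ r (par T σ) := by
  rw [KK, ← dist_eq_norm]
  exact D.hr _ (D.mem1 σ) y hy

theorem Dat.KK_exp (D : Dat H p r ρ T x δ0) (σ : ℝ)
    {y : EuclideanSpace ℝ (Fin n)} (hy : y ∈ cube n) {z : EuclideanSpace ℝ (Fin n)}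
    (hz : z ∈ cube n) (hyz : dist y z < δ0) :
    dist y z ≤ dist (KK H p T σ y) (KK H p T σ z) := by
  rw [KK, KK, dist_sub_right]
  exact D.huni _ (D.mem1 σ) y hy z hz hyz

theorem Dat.cont_KK (D : Dat H p r ρ T x δ0) :
    ContinuousOn (fun q : ℝ × EuclideanSpace ℝ (Fin n) => KK H p T q.1 q.2)
      (Set.univ ×ˢ cube n) := by
  have h1 : ContinuousOn (fun q : ℝ × EuclideanSpace ℝ (Fin n) => H (par T q.1) q.2)
      (Set.univ ×ˢ cube n) := by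
    refine D.cont.comp (f := fun q : ℝ × EuclideanSpace ℝ (Fin n) => (par T q.1, q.2)) ?_ ?_
    · exact (((continuous_par T).comp continuous_fst).prodMk continuous_snd).continuousOn
    · intro q hq
      exact ⟨D.mem1 q.1, hq.2⟩
  have h2 : Continuous fun e : ℝ => p (par T e) := by
    have h3 : ContinuousOn (fun e : ℝ => p (par T e)) Set.univ :=
      D.hp.comp (continuous_par T).continuousOn fun e _ => D.mem1 e
    exact continuousOn_univ.mp h3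
  exact h1.sub (h2.comp continuous_fst).continuousOn

theorem Dat.cont_GG (D : Dat H p r ρ T x δ0) :
    ContinuousOn (fun q : ℝ × EuclideanSpace ℝ (Fin n) => GG H p T q.1 q.2)
      (Set.univ ×ˢ cube n) := by
  have h2 : ContinuousOn (fun q : ℝ × EuclideanSpace ℝ (Fin n) => KK H p T (-q.1) (-q.2))
      (Set.univ ×ˢ cube n) := by
    refine D.cont_KK.comp (f := fun q : ℝ × EuclideanSpace ℝ (Fin n) => (-q.1, -q.2)) ?_ ?_
    · exact (continuous_fst.neg.prodMk continuous_snd.neg).continuousOn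
    · intro q hq
      exact ⟨Set.mem_univ _, neg_mem_cube hq.2⟩
  exact (D.cont_KK.sub h2).sub continuous_snd.continuousOn

theorem Dat.cont_XX (D : Dat H p r ρ T x δ0) : Continuous (XX x T) := by
  have h2 : Continuous fun e : ℝ => x (par T e) := by
    have h3 : ContinuousOn (fun e : ℝ => x (par T e)) Set.univ :=
      D.hx.comp (continuous_par T).continuousOn fun e _ => par_mem D.hT0 e
    exact continuousOn_univ.mp h3
  unfold XX
  exact h2.sub (h2.comp continuous_neg)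

theorem Dat.GG_exp (D : Dat H p r ρ T x δ0) (σ : ℝ)
    {y : EuclideanSpace ℝ (Fin n)} (hy : y ∈ cube n) {z : EuclideanSpace ℝ (Fin n)}
    (hz : z ∈ cube n) (hyz : dist y z < δ0) :
    dist y z ≤ dist (GG H p T σ y) (GG H p T σ z) := by
  rcases le_total 0 σ with h | h
  · rw [D.GG_pos (by linarith) hy, D.GG_pos (by linarith) hz]
    exact D.KK_exp σ hy hz hyz
  · rw [D.GG_neg (by linarith) hy, D.GG_neg (by linarith) hz, dist_neg_neg]
    have h1 : dist (-y) (-z) < δ0 := by rwa [dist_neg_neg]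
    have h2 := D.KK_exp (-σ) (neg_mem_cube hy) (neg_mem_cube hz) h1
    rwa [dist_neg_neg] at h2

theorem Dat.norm_GG (D : Dat H p r ρ T x δ0) (σ : ℝ)
    {y : EuclideanSpace ℝ (Fin n)} (hy : y ∈ cube n) : ‖GG H p T σ y‖ ≤ ρ := by
  rcases le_total 0 σ with h | h
  · rw [D.GG_pos (by linarith) hy]
    exact (D.norm_KK σ hy).trans (D.hrρ _ (D.mem1 _))
  · rw [D.GG_neg (by linarith) hy, norm_neg]
    exact (D.norm_KK (-σ) (neg_mem_cube hy)).trans (D.hrρ _ (D.mem1 _))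

theorem Dat.phyp (D : Dat H p r ρ T x δ0) {a δ : ℝ} (ha0 : 0 < a) (ha1 : a < 1) (hδ : 0 < δ)
    (hδ2 : δ ≤ δ0 / 3) (hδ3 : δ ≤ (1 - a) / 2) {N : ℕ} (hN0 : 0 < N) (hN : 4 * ρ < δ * N)
    (hxa : ∀ s ∈ Set.Icc (0 : ℝ) T, ∀ i, |x s i| < a) :
    PHyp (GG H p T) (XX x T) N a δ ρ := by
  have hc : ∀ σ, ContinuousOn (GG H p T σ) (cube n) := by
    intro σ
    exact D.cont_GG.comp (f := fun y : EuclideanSpace ℝ (Fin n) => (σ, y))
      (continuous_const.prodMk continuous_id).continuousOn fun y hy => ⟨Set.mem_univ _, hy⟩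
  refine ⟨fun σ => ⟨ha0, ha1, hδ, hN0, hN, hc σ, fun y hy => ?_, fun y hy z hz h => ?_, ?_⟩,
    D.cont_GG, D.cont_XX, fun σ i => ?_⟩
  · rw [dist_zero_right]
    exact D.norm_GG σ hy
  · have := D.hδ0
    exact D.GG_exp σ hy hz (by linarith)
  · exact local_of_uniform (hc σ) (fun y hy z hz h => D.GG_exp σ hy hz h) hδ hδ2 hδ3
  · rcases le_total 0 σ with h | h
    · rw [D.XX_pos (by linarith)]
      exact hxa _ (par_mem D.hT0 σ) i
    · rw [D.XX_neg (by linarith), PiLp.neg_apply, abs_neg]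
      exact hxa _ (par_mem D.hT0 (-σ)) i

end Pool.Agent.CubeM
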