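import Pool.Agent.CubeM.Ball
import Pool.Agent.CubeM.Double

/-!
# MP_c0b923_gt: the centre of the smallest ball

PROOF. `F s q = sup_{y ∈ cube} dist (H s y) q` is continuous on `[0,1] × E`, `|F s q - F s q'| ≤
dist q q'`, and tends to infinity with `q`; let `p s` be a minimum point of `F s` and `R s` the
minimum. For every `q`: `R s ^ 2 + dist q (p s) ^ 2 ≤ (F s q) ^ 2` (for `0 < t < 1` the point
`q_t = (1 - t) p s + t q` has `dist (H s y) q_t ^ 2 = (1 - t) dist (H s y) (p s) ^ 2 +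
t dist (H s y) q ^ 2 - t (1 - t) dist q (p s) ^ 2`, so `R s ^ 2 ≤ (1 - t) R s ^ 2 + t (F s q) ^ 2 -
t (1 - t) dist q (p s) ^ 2`; divide by `t`, let `t → 0`). So the minimum point is unique and
`dist (p s') (p s) ^ 2 ≤ F s (p s') ^ 2 - R s ^ 2 ≤ (R s + 2 η) ^ 2 - R s ^ 2` if
`dist (H s y) (H s' y) ≤ η` for all `y` in the cube: `p` is continuous. `p 0 = 0` since the smallest
ball containing the cube is centred at `0` (`F 0 q ≥ sqrt (n + |q|^2)`: for the vertex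
`y = - sign q`, `|y - q|^2 ≥ n + |q|^2`; or: the cube is symmetric, so `- p 0` is a minimum point
too). `R` is continuous on `[0,1]`, its maximum is the radius `ρ`.
-/

set_option autoImplicit false

open Metric

namespace Pool.Agent.CubeM

open Pool.Agent.Expand

variable {n : ℕ}

/-- A homotopy is uniformly continuous in the parameter. -/
theorem exists_step {H : ℝ → EuclideanSpace ℝ (Fin n) → EuclideanSpace ℝ (Fin n)}
    (hH : ContinuousOn (fun q : ℝ × EuclideanSpace ℝ (Fin n) => H q.1 q.2)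
      (Set.Icc (0 : ℝ) 1 ×ˢ cube n)) {η : ℝ} (hη : 0 < η) :
    ∃ τ > 0, ∀ s ∈ Set.Icc (0 : ℝ) 1, ∀ s' ∈ Set.Icc (0 : ℝ) 1, dist s s' < τ →
      ∀ y ∈ cube n, dist (H s y) (H s' y) < η := by
  have hK : IsCompact (Set.Icc (0 : ℝ) 1 ×ˢ cube n) := isCompact_Icc.prod (isCompact_cubeS 1)
  have hU := hK.uniformContinuousOn_of_continuous hH
  obtain ⟨τ, hτ, h⟩ := Metric.uniformContinuousOn_iff.mp hU η hη
  refine ⟨τ, hτ, fun s hs s' hs' hss y hy => ?_⟩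
  exact h (s, y) ⟨hs, hy⟩ (s', y) ⟨hs', hy⟩ (by
    rw [Prod.dist_eq, dist_self, max_eq_left dist_nonneg]
    exact hss)

theorem exists_center {H : ℝ → EuclideanSpace ℝ (Fin n) → EuclideanSpace ℝ (Fin n)}
    (hH : ExpandingHomotopy n H) (h0 : ∀ x ∈ cube n, H 0 x = x)
    {q : ℝ → EuclideanSpace ℝ (Fin n)} {r : ℝ → ℝ}
    (hr : ∀ s ∈ Set.Icc (0 : ℝ) 1, ∀ y ∈ cube n, dist (H s y) (q s) ≤ r s)
    (hb : ∀ s ∈ Set.Icc (0 : ℝ) 1, r s < Real.sqrt (n + 3)) :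
    ∃ (p : ℝ → EuclideanSpace ℝ (Fin n)) (R : ℝ → ℝ) (ρ : ℝ), ContinuousOn p (Set.Icc 0 1) ∧
      p 0 = 0 ∧ (∀ s ∈ Set.Icc (0 : ℝ) 1, ∀ y ∈ cube n, dist (H s y) (p s) ≤ R s) ∧
      (∀ s ∈ Set.Icc (0 : ℝ) 1, R s ≤ r s) ∧ ρ ^ 2 < n + 3 ∧
      ∀ s ∈ Set.Icc (0 : ℝ) 1, R s ≤ ρ := by
  obtain ⟨hHc, -⟩ := hH
  have h0c : (0 : EuclideanSpace ℝ (Fin n)) ∈ cube n := fun i => by simp
  have hs0 : (0 : ℝ) ∈ Set.Icc (0 : ℝ) 1 := ⟨le_refl _, zero_le_one⟩
  have hHs : ∀ s ∈ Set.Icc (0 : ℝ) 1, ContinuousOn (H s) (cube n) := fun s hs =>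
    hHc.comp (f := fun y : EuclideanSpace ℝ (Fin n) => (s, y))
      (continuous_const.prodMk continuous_id).continuousOn fun y hy => ⟨hs, hy⟩
  have hex : ∀ s : ℝ, ∃ (p : EuclideanSpace ℝ (Fin n)) (R : ℝ), s ∈ Set.Icc (0 : ℝ) 1 →
      0 ≤ R ∧ (∀ y ∈ cube n, dist (H s y) p ≤ R) ∧
      ∀ (q : EuclideanSpace ℝ (Fin n)) (ρ : ℝ), (∀ y ∈ cube n, dist (H s y) q ≤ ρ) →
        R ^ 2 + dist q p ^ 2 ≤ ρ ^ 2 := by
    intro s
    by_cases hs : s ∈ Set.Icc (0 : ℝ) 1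
    · obtain ⟨p, R, h1, h2, h3⟩ := exists_min_ball
        ((isCompact_cubeS 1).image_of_continuousOn (hHs s hs)) ⟨H s 0, 0, h0c, rfl⟩
      refine ⟨p, R, fun _ => ⟨h1, fun y hy => h2 _ ⟨y, hy, rfl⟩, fun q ρ hq => h3 q ρ ?_⟩⟩
      rintro z ⟨y, hy, rfl⟩
      exact hq y hy
    · exact ⟨0, 0, fun h => absurd h hs⟩
  choose p R hpR using hex
  have hcmp : ∀ s ∈ Set.Icc (0 : ℝ) 1, ∀ s' ∈ Set.Icc (0 : ℝ) 1, ∀ η : ℝ, 0 ≤ η →
      (∀ y ∈ cube n, dist (H s' y) (H s y) ≤ η) →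
      R s' ^ 2 + dist (p s) (p s') ^ 2 ≤ (R s + η) ^ 2 ∧ R s' ≤ R s + η := by
    intro s hs s' hs' η hη h
    have h1 := (hpR s' hs').2.2 (p s) (R s + η) (fun y hy => by
      have h2 := dist_triangle (H s' y) (H s y) (p s)
      have h3 := (hpR s hs).2.1 y hy
      have h4 := h y hy
      linarith)
    refine ⟨h1, ?_⟩
    have h2 : R s' ^ 2 ≤ (R s + η) ^ 2 := by
      have := sq_nonneg (dist (p s) (p s'))
      linarith
    exact le_of_sq_le_sq h2 (add_nonneg (hpR s hs).1 hη)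
  have hRc : ContinuousOn R (Set.Icc (0 : ℝ) 1) := by
    rw [Metric.continuousOn_iff]
    intro s hs ε hε
    obtain ⟨τ, hτ, h⟩ := exists_step hHc (half_pos hε)
    refine ⟨τ, hτ, fun s' hs' hd => ?_⟩
    have h1 := (hcmp s hs s' hs' (ε / 2) (by linarith)
      (fun y hy => (h s' hs' s hs hd y hy).le)).2
    have h2 := (hcmp s' hs' s hs (ε / 2) (by linarith)
      (fun y hy => (h s hs s' hs' (by rwa [dist_comm]) y hy).le)).2
    rw [Real.dist_eq, abs_lt]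
    constructor <;> linarith
  have hpc : ContinuousOn p (Set.Icc (0 : ℝ) 1) := by
    rw [Metric.continuousOn_iff]
    intro s hs ε hε
    have hR0 := (hpR s hs).1
    have hη : 0 < min 1 (ε ^ 2 / (8 * (R s + 1))) := lt_min one_pos (by positivity)
    have hη1 : min 1 (ε ^ 2 / (8 * (R s + 1))) ≤ 1 := min_le_left _ _
    have hη2 : min 1 (ε ^ 2 / (8 * (R s + 1))) * (8 * (R s + 1)) ≤ ε ^ 2 := by
      have := mul_le_mul_of_nonneg_right (min_le_right 1 (ε ^ 2 / (8 * (R s + 1))))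
        (by linarith : 0 ≤ 8 * (R s + 1))
      rwa [div_mul_cancel₀ _ (by linarith : 8 * (R s + 1) ≠ 0)] at this
    obtain ⟨η, hηd⟩ : ∃ η : ℝ, η = min 1 (ε ^ 2 / (8 * (R s + 1))) := ⟨_, rfl⟩
    rw [← hηd] at hη hη1 hη2
    obtain ⟨τ, hτ, h⟩ := exists_step hHc hη
    refine ⟨τ, hτ, fun s' hs' hd => ?_⟩
    have h1 := (hcmp s hs s' hs' η hη.le (fun y hy => (h s' hs' s hs hd y hy).le)).1
    have h2 := (hcmp s' hs' s hs η hη.le
      (fun y hy => (h s hs s' hs' (by rwa [dist_comm]) y hy).le)).2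
    have hR0' := (hpR s' hs').1
    have h3 : dist (p s) (p s') ^ 2 < ε ^ 2 := by
      have h4 : (R s + η) ^ 2 - R s' ^ 2 = (R s + η - R s') * (R s + η + R s') := by ring
      have h5 : (R s + η - R s') * (R s + η + R s') ≤ (2 * η) * (R s + η + R s') := by
        apply mul_le_mul_of_nonneg_right (by linarith) (by linarith)
      have h6 : R s' ≤ R s + η :=
        (hcmp s hs s' hs' η hη.le (fun y hy => (h s' hs' s hs hd y hy).le)).2
      have h7 : (2 * η) * (R s + η + R s') ≤ (2 * η) * (2 * (R s + 1)) := by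
        apply mul_le_mul_of_nonneg_left _ (by linarith)
        linarith
      nlinarith
    rw [dist_comm]
    exact lt_of_pow_lt_pow_left₀ 2 hε.le h3
  obtain ⟨sm, hsm, hmax⟩ := isCompact_Icc.exists_isMaxOn ⟨(0 : ℝ), hs0⟩ hRc
  have hRr : ∀ s ∈ Set.Icc (0 : ℝ) 1, R s ≤ r s := by
    intro s hs
    have h1 := (hpR s hs).2.2 (q s) (r s) (hr s hs)
    have h2 : R s ^ 2 ≤ r s ^ 2 := by
      have := sq_nonneg (dist (q s) (p s))
      linarith
    exact le_of_sq_le_sq h2 (dist_nonneg.trans (hr s hs 0 h0c))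
  refine ⟨p, R, R sm, hpc, ?_, fun s hs => (hpR s hs).2.1, hRr, ?_, fun s hs => hmax hs⟩
  · have h1 := (hpR 0 hs0).2.2 (-p 0) (R 0) (fun y hy => by
      have h2 := (hpR 0 hs0).2.1 (-y) (neg_mem_cube hy)
      rw [h0 _ (neg_mem_cube hy)] at h2
      rw [h0 _ hy, ← dist_neg_neg, neg_neg]
      exact h2)
    have h2 : dist (-p 0) (p 0) ^ 2 ≤ 0 := by linarith
    have h3 : dist (-p 0) (p 0) = 0 := by
      have := pow_eq_zero_iff (two_ne_zero) |>.mp (le_antisymm h2 (sq_nonneg _))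
      exact this
    have h4 := dist_eq_zero.mp h3
    ext i
    have h5 : (-p 0) i = p 0 i := by rw [h4]
    rw [PiLp.neg_apply] at h5
    rw [PiLp.zero_apply]
    linarith
  · have h1 := (hRr sm hsm).trans_lt (hb sm hsm)
    exact (Real.lt_sqrt (hpR sm hsm).1).mp h1

end Pool.Agent.CubeM
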