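import Pool.Agent.CubeM.Time

/-!
# MP_c0b923_gt: the centre of the smallest ball, for homotopies which start at an odd map
-/

set_option autoImplicit false

open Metric

namespace Pool.Agent.CubeM

open Pool.Agent.Expand

variable {n : ℕ}

/-- the smallest ball containing a compact set -/
private theorem centerO_smallest {K : Set (EuclideanSpace ℝ (Fin n))} (hK : IsCompact K)
    (hne : K.Nonempty) : ∃ (p : EuclideanSpace ℝ (Fin n)) (R : ℝ), 0 ≤ R ∧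
      (∀ y ∈ K, dist y p ≤ R) ∧ ∀ (q : EuclideanSpace ℝ (Fin n)) (M : ℝ),
        (∀ y ∈ K, dist y q ≤ M) → R ^ 2 + dist q p ^ 2 / 2 ≤ M ^ 2 := by
  classical
  obtain ⟨F, hF⟩ : ∃ F : EuclideanSpace ℝ (Fin n) → ℝ,
      ∀ q, F q = sSup ((fun y => dist y q) '' K) := ⟨_, fun _ => rfl⟩
  have hcont : ∀ q : EuclideanSpace ℝ (Fin n), ContinuousOn (fun y => dist y q) K :=
    fun q => (continuous_id.dist continuous_const).continuousOn
  have hle : ∀ q, ∀ y ∈ K, dist y q ≤ F q := by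
    intro q y hy
    rw [hF]
    exact le_csSup (hK.image_of_continuousOn (hcont q)).bddAbove ⟨y, hy, rfl⟩
  have hat : ∀ q, ∃ y ∈ K, F q = dist y q := by
    intro q
    rw [hF]
    exact hK.exists_sSup_image_eq hne (hcont q)
  have hF0 : ∀ q, 0 ≤ F q := by
    intro q
    obtain ⟨y, -, hy⟩ := hat q
    rw [hy]
    exact dist_nonneg
  have hlip : ∀ q q', F q ≤ F q' + dist q q' := by
    intro q q'
    obtain ⟨y, hyK, hy⟩ := hat q
    rw [hy]
    calc dist y q ≤ dist y q' + dist q' q := dist_triangle _ _ _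
      _ ≤ F q' + dist q q' := by
        rw [dist_comm q' q]
        exact add_le_add_left (hle q' y hyK) _
  have hFc : Continuous F := by
    have h : LipschitzWith 1 F := LipschitzWith.of_le_add hlip
    exact h.continuous
  obtain ⟨y0, hy0⟩ := hne
  obtain ⟨p, hp⟩ := hFc.exists_forall_le (Filter.tendsto_atTop_mono
    (fun q => hle q y0 hy0) (tendsto_dist_left_cocompact_atTop y0))
  refine ⟨p, F p, hF0 p, hle p, fun q M hM => ?_⟩
  obtain ⟨y, hyK, hy⟩ := hat ((1 / 2 : ℝ) • (p + q))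
  have h1 : F p ≤ dist y ((1 / 2 : ℝ) • (p + q)) := by
    rw [← hy]
    exact hp _
  have h2 : dist y p ≤ F p := hle p y hyK
  have h3 : dist y q ≤ M := hM y hyK
  have h4 := parallelogram_law_with_norm ℝ (y - p) (y - q)
  have e1 : y - p + (y - q) = (2 : ℝ) • (y - (1 / 2 : ℝ) • (p + q)) := by
    module
  have e2 : y - p - (y - q) = q - p := by abel
  rw [e1, e2, norm_smul, ← dist_eq_norm, ← dist_eq_norm, ← dist_eq_norm, ← dist_eq_norm,
    Real.norm_eq_abs, abs_two] at h4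
  have h5 : F p ^ 2 ≤ dist y ((1 / 2 : ℝ) • (p + q)) ^ 2 := pow_le_pow_left₀ (hF0 p) h1 2
  have h6 : dist y p ^ 2 ≤ F p ^ 2 := pow_le_pow_left₀ dist_nonneg h2 2
  have h7 : dist y q ^ 2 ≤ M ^ 2 := pow_le_pow_left₀ dist_nonneg h3 2
  nlinarith [h4, h5, h6, h7]

theorem exists_centerO {H : ℝ → EuclideanSpace ℝ (Fin n) → EuclideanSpace ℝ (Fin n)}
    (hH : ExpandingHomotopy n H) (h0 : ∀ x ∈ cube n, H 0 (-x) = -H 0 x)
    {q : ℝ → EuclideanSpace ℝ (Fin n)} {r : ℝ → ℝ}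
    (hr : ∀ s ∈ Set.Icc (0 : ℝ) 1, ∀ y ∈ cube n, dist (H s y) (q s) ≤ r s)
    (hb : ∀ s ∈ Set.Icc (0 : ℝ) 1, r s < Real.sqrt (n + 3)) :
    ∃ (p : ℝ → EuclideanSpace ℝ (Fin n)) (R : ℝ → ℝ) (ρ : ℝ), ContinuousOn p (Set.Icc 0 1) ∧
      p 0 = 0 ∧ (∀ s ∈ Set.Icc (0 : ℝ) 1, ∀ y ∈ cube n, dist (H s y) (p s) ≤ R s) ∧
      (∀ s ∈ Set.Icc (0 : ℝ) 1, R s ≤ r s) ∧ ρ ^ 2 < n + 3 ∧
      ∀ s ∈ Set.Icc (0 : ℝ) 1, R s ≤ ρ := by
  classical
  have hex : ∀ s : ℝ, ∃ P : EuclideanSpace ℝ (Fin n) × ℝ, s ∈ Set.Icc (0 : ℝ) 1 →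
      0 ≤ P.2 ∧ (∀ y ∈ cube n, dist (H s y) P.1 ≤ P.2) ∧
        ∀ (q : EuclideanSpace ℝ (Fin n)) (M : ℝ), (∀ y ∈ cube n, dist (H s y) q ≤ M) →
          P.2 ^ 2 + dist q P.1 ^ 2 / 2 ≤ M ^ 2 := by
    intro s
    by_cases hs : s ∈ Set.Icc (0 : ℝ) 1
    · obtain ⟨p, R, h1, h2, h3⟩ := centerO_smallest
        ((isCompact_cubeS 1).image_of_continuousOn (continuousOn_time hH hs))
        ⟨H s 0, 0, zero_mem_cube, rfl⟩
      refine ⟨(p, R), fun _ => ⟨h1, fun y hy => h2 _ ⟨y, hy, rfl⟩, fun q M hM => h3 q M ?_⟩⟩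
      rintro _ ⟨y, hy, rfl⟩
      exact hM y hy
    · exact ⟨(0, 0), fun h => absurd h hs⟩
  choose P hP using hex
  -- comparison of two times
  have hcmp : ∀ s ∈ Set.Icc (0 : ℝ) 1, ∀ s' ∈ Set.Icc (0 : ℝ) 1, ∀ η : ℝ, 0 < η →
      (∀ y ∈ cube n, dist (H s y) (H s' y) < η) →
      (P s).2 ^ 2 + dist (P s').1 (P s).1 ^ 2 / 2 ≤ ((P s').2 + η) ^ 2 := by
    intro s hs s' hs' η hη h
    refine (hP s hs).2.2 _ _ fun y hy => ?_
    have h1 := (hP s' hs').2.1 y hy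
    have h2 := dist_triangle (H s y) (H s' y) (P s').1
    have h3 := h y hy
    linarith
  have hcmpR : ∀ s ∈ Set.Icc (0 : ℝ) 1, ∀ s' ∈ Set.Icc (0 : ℝ) 1, ∀ η : ℝ, 0 < η →
      (∀ y ∈ cube n, dist (H s y) (H s' y) < η) → (P s).2 ≤ (P s').2 + η := by
    intro s hs s' hs' η hη h
    have h1 := hcmp s hs s' hs' η hη h
    have h2 := (hP s' hs').1
    have h3 : (0 : ℝ) ≤ dist (P s').1 (P s).1 ^ 2 / 2 := by positivity
    exact le_of_sq_le_sq (by linarith) (by linarith)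
  have hRc : ContinuousOn (fun s => (P s).2) (Set.Icc 0 1) := by
    rw [Metric.continuousOn_iff]
    intro s hs ε hε
    obtain ⟨δ, hδ, h⟩ := unif_time hH (half_pos hε)
    refine ⟨δ, hδ, fun s' hs' hss => ?_⟩
    have h1 := hcmpR s' hs' s hs (ε / 2) (half_pos hε) (h s' hs' s hs hss)
    have h2 := hcmpR s hs s' hs' (ε / 2) (half_pos hε)
      (h s hs s' hs' (by rwa [dist_comm]))
    rw [Real.dist_eq, abs_lt]
    constructor <;> linarith
  have hpc : ContinuousOn (fun s => (P s).1) (Set.Icc 0 1) := by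
    rw [Metric.continuousOn_iff]
    intro s hs ε hε
    have hR0 := (hP s hs).1
    -- a small number
    obtain ⟨η, hη, hη1, hη2⟩ : ∃ η : ℝ, 0 < η ∧ η ≤ 1 ∧ 8 * η * ((P s).2 + 1) < ε ^ 2 := by
      refine ⟨min 1 (ε ^ 2 / (16 * ((P s).2 + 1))), lt_min one_pos (by positivity),
        min_le_left _ _, ?_⟩
      have h1 : min 1 (ε ^ 2 / (16 * ((P s).2 + 1))) ≤ ε ^ 2 / (16 * ((P s).2 + 1)) :=
        min_le_right _ _
      have h2 : 8 * (ε ^ 2 / (16 * ((P s).2 + 1))) * ((P s).2 + 1) = ε ^ 2 / 2 := by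
        field_simp
        norm_num
      have h3 : 0 < ε ^ 2 := by positivity
      have h4 : 8 * min 1 (ε ^ 2 / (16 * ((P s).2 + 1))) * ((P s).2 + 1) ≤
          8 * (ε ^ 2 / (16 * ((P s).2 + 1))) * ((P s).2 + 1) := by
        refine mul_le_mul_of_nonneg_right (by linarith) (by linarith)
      linarith
    obtain ⟨δ, hδ, h⟩ := unif_time hH hη
    refine ⟨δ, hδ, fun s' hs' hss => ?_⟩
    have h1 := hcmpR s' hs' s hs η hη (h s' hs' s hs hss)
    have h2 := hcmp s hs s' hs' η hη (h s hs s' hs' (by rwa [dist_comm]))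
    have h0 := (hP s' hs').1
    have h3 : ((P s').2 + η) ^ 2 ≤ ((P s).2 + 2 * η) ^ 2 :=
      pow_le_pow_left₀ (by linarith) (by linarith) 2
    have h4 : dist (P s').1 (P s).1 ^ 2 < ε ^ 2 := by nlinarith
    exact lt_of_pow_lt_pow_left₀ 2 hε.le h4
  have h0m : (0 : ℝ) ∈ Set.Icc (0 : ℝ) 1 := ⟨le_rfl, zero_le_one⟩
  have hp0 : (P 0).1 = 0 := by
    have h1 := (hP 0 h0m).2.2 (-(P 0).1) (P 0).2 (by
      intro y hy
      have hy' : -y ∈ cube n := fun i => by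
        rw [PiLp.neg_apply, abs_neg]
        exact hy i
      have h2 := (hP 0 h0m).2.1 (-y) hy'
      rw [h0 y hy] at h2
      rwa [← dist_neg_neg, neg_neg])
    have h2 : dist (-(P 0).1) (P 0).1 ^ 2 = 0 := by
      have h3 : 0 ≤ dist (-(P 0).1) (P 0).1 ^ 2 := by positivity
      linarith
    have h3 : dist (-(P 0).1) (P 0).1 = 0 := by
      simpa using h2
    rw [dist_eq_zero] at h3
    have h4 : (2 : ℝ) • (P 0).1 = 0 := by
      rw [two_smul]
      nth_rewrite 1 [← h3]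
      exact neg_add_cancel _
    exact (smul_eq_zero.1 h4).resolve_left two_ne_zero
  have hRr : ∀ s ∈ Set.Icc (0 : ℝ) 1, (P s).2 ≤ r s := by
    intro s hs
    have h1 := (hP s hs).2.2 (q s) (r s) (hr s hs)
    have h2 : (0 : ℝ) ≤ r s := dist_nonneg.trans (hr s hs 0 zero_mem_cube)
    have h3 : (0 : ℝ) ≤ dist (q s) (P s).1 ^ 2 / 2 := by positivity
    exact le_of_sq_le_sq (by linarith) h2
  obtain ⟨t, ht, htm⟩ := isCompact_Icc.exists_isMaxOn (Set.nonempty_Icc.2 zero_le_one) hRc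
  refine ⟨fun s => (P s).1, fun s => (P s).2, (P t).2, hpc, hp0,
    fun s hs => (hP s hs).2.1, hRr, ?_, fun s hs => htm hs⟩
  have h1 := hRr t ht
  have h2 := hb t ht
  have h3 := (hP t ht).1
  have h4 : (P t).2 ^ 2 < Real.sqrt (n + 3) ^ 2 := pow_lt_pow_left₀ (by linarith) h3 two_ne_zero
  rwa [Real.sq_sqrt (by positivity)] at h4

end Pool.Agent.CubeM
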