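import Pool.Agent.CubeM.Defs

/-!
# MP_c0b923_gt: total variations of the coordinates of a chain
-/

set_option autoImplicit false

open Metric Finset

namespace Pool.Agent.CubeM

variable {n N : ℕ}

/-- total variation of the coordinate `i` -/
noncomputable def tv (w : Fin (N + 1) → EuclideanSpace ℝ (Fin n)) (i : Fin n) : ℝ :=
  ∑ s : Fin N, |w s.succ i - w s.castSucc i|

theorem tv_nonneg (w : Fin (N + 1) → EuclideanSpace ℝ (Fin n)) (i : Fin n) : 0 ≤ tv w i :=
  sum_nonneg fun _ _ => abs_nonneg _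

theorem sum_tv_sq_le (w : Fin (N + 1) → EuclideanSpace ℝ (Fin n)) {R : ℝ}
    (hw : ∑ s : Fin N, dist (w s.succ) (w s.castSucc) ≤ R) :
    ∑ i, tv w i ^ 2 ≤ R ^ 2 := by
  obtain ⟨V, hV0⟩ : ∃ V : Fin N → EuclideanSpace ℝ (Fin n), ∀ s i,
      V s i = |w s.succ i - w s.castSucc i| :=
    ⟨fun s => WithLp.toLp 2 (fun i => |w s.succ i - w s.castSucc i|), fun _ _ => rfl⟩
  have hV : ∀ s, ‖V s‖ = dist (w s.succ) (w s.castSucc) := by
    intro s
    rw [dist_eq_norm, EuclideanSpace.norm_eq, EuclideanSpace.norm_eq]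
    congr 1
    refine sum_congr rfl fun i _ => ?_
    rw [hV0]
    simp
  have h1 : ‖∑ s, V s‖ ≤ R := by
    refine (norm_sum_le _ _).trans ?_
    rw [sum_congr rfl fun s _ => hV s]
    exact hw
  have h2 : ∀ i, (∑ s, V s) i = tv w i := by
    intro i
    rw [WithLp.ofLp_sum, Finset.sum_apply]
    exact sum_congr rfl fun s _ => hV0 s i
  have h3 : ∑ i, tv w i ^ 2 = ‖∑ s, V s‖ ^ 2 := by
    rw [EuclideanSpace.real_norm_sq_eq]
    exact sum_congr rfl fun i _ => by rw [h2 i]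
  rw [h3]
  exact pow_le_pow_left₀ (norm_nonneg _) h1 2

theorem two_le_nat (u : ℕ → ℝ) {k l N : ℕ} (hkl : k ≤ l) (hl : l ≤ N) :
    |u k - u 0| + |u l - u k| ≤ ∑ s ∈ range N, |u (s + 1) - u s| := by
  have h1 := dist_le_Ico_sum_dist u (Nat.zero_le k)
  have h2 := dist_le_Ico_sum_dist u hkl
  have h3 : ∑ i ∈ Ico 0 k, dist (u i) (u (i + 1)) + ∑ i ∈ Ico k l, dist (u i) (u (i + 1)) ≤
      ∑ i ∈ Ico 0 N, dist (u i) (u (i + 1)) := by
    rw [sum_Ico_consecutive _ (Nat.zero_le k) hkl]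
    exact sum_le_sum_of_subset_of_nonneg (Ico_subset_Ico le_rfl hl) fun _ _ _ => dist_nonneg
  have h4 : ∑ i ∈ Ico 0 N, dist (u i) (u (i + 1)) = ∑ s ∈ range N, |u (s + 1) - u s| := by
    rw [Nat.Ico_zero_eq_range]
    exact sum_congr rfl fun i _ => by rw [dist_comm, Real.dist_eq]
  rw [dist_comm, Real.dist_eq] at h1 h2
  linarith

theorem two_le (w : Fin (N + 1) → EuclideanSpace ℝ (Fin n)) (i : Fin n) {k l : Fin (N + 1)}
    (hkl : k ≤ l) : |w k i - w 0 i| + |w l i - w k i| ≤ tv w i := by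
  obtain ⟨u, hu⟩ : ∃ u : ℕ → ℝ, ∀ m, u m = w (Fin.ofNat (N + 1) m) i := ⟨_, fun _ => rfl⟩
  have h0 : ∀ k : Fin (N + 1), u k = w k i := by
    intro k
    have h : Fin.ofNat (N + 1) (k : ℕ) = k := Fin.ext (by
      rw [Fin.val_ofNat]
      exact Nat.mod_eq_of_lt k.2)
    rw [hu, h]
  have h1 := two_le_nat u (k := k) (l := l) (N := N) hkl (Nat.lt_succ_iff.mp l.2)
  have h2 : ∑ s ∈ range N, |u (s + 1) - u s| = tv w i := by
    rw [← Fin.sum_univ_eq_sum_range (fun s => |u (s + 1) - u s|) N, tv]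
    refine sum_congr rfl fun s _ => ?_
    have e1 := h0 s.succ
    have e2 := h0 s.castSucc
    rw [Fin.val_succ] at e1
    rw [Fin.val_castSucc] at e2
    rw [e1, e2]
  have h3 : u 0 = w 0 i := h0 0
  rw [h2, h0, h0, h3] at h1
  exact h1

theorem ofNat_eq (k : Fin (N + 1)) : Fin.ofNat (N + 1) (k : ℕ) = k := Fin.ext (by
  rw [Fin.val_ofNat]
  exact Nat.mod_eq_of_lt k.2)

theorem tv_eq (w : Fin (N + 1) → EuclideanSpace ℝ (Fin n)) (i : Fin n) :
    ∑ s ∈ range N, |w (Fin.ofNat (N + 1) (s + 1)) i - w (Fin.ofNat (N + 1) s) i| = tv w i := by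
  rw [← Fin.sum_univ_eq_sum_range
    (fun s => |w (Fin.ofNat (N + 1) (s + 1)) i - w (Fin.ofNat (N + 1) s) i|) N, tv]
  refine sum_congr rfl fun s _ => ?_
  have e1 := ofNat_eq s.succ
  have e2 := ofNat_eq s.castSucc
  rw [Fin.val_succ] at e1
  rw [Fin.val_castSucc] at e2
  rw [e1, e2]

theorem one_le_tv (w : Fin (N + 1) → EuclideanSpace ℝ (Fin n)) (i : Fin n) (k : Fin (N + 1)) :
    |w k i - w 0 i| ≤ tv w i := by
  have := two_le w i (le_refl k)
  simpa using this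

/-- Both faces are touched. -/
theorem tv_double {w : Fin (N + 1) → EuclideanSpace ℝ (Fin n)} {i : Fin n} {b : ℝ}
    {s s' : Fin (N + 1)} (h1 : b < w s i) (h2 : w s' i < -b) :
    3 * b - |w 0 i| ≤ tv w i := by
  have h3 := neg_abs_le (w 0 i)
  have h4 := le_abs_self (w 0 i)
  rcases le_total s s' with h | h
  · have h5 := two_le w i h
    have h6 := le_abs_self (w s i - w 0 i)
    have h7 := neg_abs_le (w s' i - w s i)
    linarith
  · have h5 := two_le w i h
    have h6 := neg_abs_le (w s' i - w 0 i)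
    have h7 := le_abs_self (w s i - w s' i)
    linarith

/-- The face of the sign `c` is touched. -/
theorem tv_single {w : Fin (N + 1) → EuclideanSpace ℝ (Fin n)} {i : Fin n} {b c : ℝ}
    (hc : c = 1 ∨ c = -1) {s : Fin (N + 1)} (h1 : b < c * w s i) :
    b - c * w 0 i ≤ tv w i := by
  have h2 := one_le_tv w i s
  have h3 := le_abs_self (w s i - w 0 i)
  have h4 := neg_abs_le (w s i - w 0 i)
  rcases hc with h | h
  · rw [h] at h1 ⊢
    linarith
  · rw [h] at h1 ⊢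
    linarith

end Pool.Agent.CubeM
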