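import Pool.Agent.CubeM.Touch
import Pool.Agent.CubeM.Double
import Pool.Agent.CubeM.Tv

/-!
# MP_c0b923_gt: the claim (helper95)

Let `x s` be the path of the points above the centres `p s`, `0 ≤ s ≤ T`, starting at `0`, with
`phi (x s) ≤ β < 3`. Then some lifted ray starting at `x T` touches all far faces, so
`∑ (1 + |x T j|)^2 ≤ (r T)^2`.
-/

set_option autoImplicit false

open Metric

namespace Pool.Agent.CubeM

open Pool.Agent.Expand Pool.Agent.CubeE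

variable {n : ℕ}

theorem phi_bound {x : EuclideanSpace ℝ (Fin n)} {β : ℝ} (h : phi x ≤ β) (i : Fin n) :
    |x i| ≤ Real.sqrt (1 + β) - 1 := by
  have h1 : 2 * |x i| + x i ^ 2 ≤ phi x := by
    unfold phi
    exact Finset.single_le_sum (f := fun j => 2 * |x j| + x j ^ 2)
      (fun j _ => by positivity) (Finset.mem_univ i)
  have h2 : 1 + |x i| ≤ Real.sqrt (1 + β) := by
    apply Real.le_sqrt_of_sq_le
    have := sq_abs (x i)
    nlinarith
  linarith

/-- the cost of a double touch -/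
theorem cost_double {t U : Fin n → ℝ} {b β : ℝ} {i : Fin n} (hb1 : b < 1)
    (hU0 : ∀ j, 0 ≤ U j) (hUb : ∀ j, U j ≤ b) (hφ : ∑ j, (2 * U j + U j ^ 2) ≤ β)
    (ht : ∀ j, b - U j ≤ t j) (hti : 3 * b - U i ≤ t i) :
    (n : ℝ) + 6 - β - (12 + 2 * n) * (1 - b) ≤ ∑ j, t j ^ 2 := by
  have hb0 : 0 ≤ b := (hU0 i).trans (hUb i)
  have h1 : ∀ j, 0 ≤ t j ^ 2 - (b - U j) ^ 2 := by
    intro j
    have h2 : 0 ≤ b - U j := by linarith [hUb j]
    have h3 := pow_le_pow_left₀ h2 (ht j) 2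
    linarith
  have h2 : t i ^ 2 - (b - U i) ^ 2 ≤ ∑ j, (t j ^ 2 - (b - U j) ^ 2) :=
    Finset.single_le_sum (f := fun j => t j ^ 2 - (b - U j) ^ 2) (fun j _ => h1 j)
      (Finset.mem_univ i)
  have h3 : (3 * b - U i) ^ 2 ≤ t i ^ 2 :=
    pow_le_pow_left₀ (by linarith [hUb i]) hti 2
  have h4 : ∑ j, (1 - (2 * U j + U j ^ 2) + 2 * U j ^ 2 - 2 * (1 - b)) ≤
      ∑ j, (b - U j) ^ 2 := by
    apply Finset.sum_le_sum
    intro j _
    have h5 := mul_nonneg (hU0 j) (by linarith : 0 ≤ 1 - b)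
    nlinarith [sq_nonneg (1 - b)]
  have h5 : ∑ j, (1 - (2 * U j + U j ^ 2) + 2 * U j ^ 2 - 2 * (1 - b)) =
      n - ∑ j, (2 * U j + U j ^ 2) + 2 * ∑ j, U j ^ 2 - 2 * n * (1 - b) := by
    rw [Finset.sum_sub_distrib, Finset.sum_add_distrib, Finset.sum_sub_distrib,
      ← Finset.mul_sum]
    simp
    ring
  have h6 : U i ^ 2 ≤ ∑ j, U j ^ 2 :=
    Finset.single_le_sum (f := fun j => U j ^ 2) (fun j _ => sq_nonneg _) (Finset.mem_univ i)
  rw [Finset.sum_sub_distrib] at h2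
  have h7 : 6 - 12 * (1 - b) ≤ 6 * b ^ 2 := by nlinarith [sq_nonneg (1 - b)]
  nlinarith [sq_nonneg (U i - b)]

/-- the cost of a ray touching all far faces -/
theorem cost_single {t U : Fin n → ℝ} {b : ℝ} (hb0 : 0 < b) (hb1 : b < 1)
    (hU0 : ∀ j, 0 ≤ U j) (hU1 : ∀ j, U j ≤ 1) (ht : ∀ j, b + U j ≤ t j) :
    ∑ j, (1 + U j) ^ 2 - 4 * n * (1 - b) ≤ ∑ j, t j ^ 2 := by
  have h1 : ∑ j : Fin n, ((1 + U j) ^ 2 - 4 * (1 - b)) ≤ ∑ j, t j ^ 2 := by
    apply Finset.sum_le_sum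
    intro j _
    have h2 := pow_le_pow_left₀ (by linarith [hU0 j]) (ht j) 2
    have h3 := mul_nonneg (by linarith [hU1 j] : 0 ≤ 1 - U j) (by linarith : 0 ≤ 1 - b)
    nlinarith [sq_nonneg (1 - b)]
  rw [Finset.sum_sub_distrib] at h1
  simp at h1
  linarith

theorem claim {H : ℝ → EuclideanSpace ℝ (Fin n) → EuclideanSpace ℝ (Fin n)}
    (hH : ExpandingHomotopy n H) (h0 : ∀ x ∈ cube n, H 0 x = x)
    {p : ℝ → EuclideanSpace ℝ (Fin n)} (hp : ContinuousOn p (Set.Icc 0 1)) (hp0 : p 0 = 0)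
    {r : ℝ → ℝ} (hr : ∀ s ∈ Set.Icc (0 : ℝ) 1, ∀ y ∈ cube n, dist (H s y) (p s) ≤ r s)
    {ρ : ℝ} (hρ : ρ ^ 2 < n + 3) (hrρ : ∀ s ∈ Set.Icc (0 : ℝ) 1, r s ≤ ρ)
    {T : ℝ} (hT0 : 0 ≤ T) (hT1 : T ≤ 1) {x : ℝ → EuclideanSpace ℝ (Fin n)}
    (hx : ContinuousOn x (Set.Icc 0 T)) (hx0 : x 0 = 0)
    (hxp : ∀ s ∈ Set.Icc (0 : ℝ) T, H s (x s) = p s) {β : ℝ} (hβ : β < 3)
    (hφ : ∀ s ∈ Set.Icc (0 : ℝ) T, phi (x s) ≤ β) :
    ∑ j, (1 + |x T j|) ^ 2 ≤ r T ^ 2 := by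
  by_contra hcon
  rw [not_le] at hcon
  obtain ⟨hHc, δ0, hδ0, huni⟩ := hH
  have D : Dat H p r ρ T x δ0 :=
    ⟨hHc, hδ0, huni, h0, hp, hp0, hr, hrρ, hT0, hT1, hx, hx0, hxp⟩
  obtain ⟨a0, ha0⟩ : ∃ a0 : ℝ, a0 = Real.sqrt (1 + β) - 1 := ⟨_, rfl⟩
  have ha01 : a0 < 1 := by
    have : Real.sqrt (1 + β) < 2 := by
      rw [Real.sqrt_lt' (by norm_num)]
      linarith
    linarith
  have hxa : ∀ s ∈ Set.Icc (0 : ℝ) T, ∀ i, |x s i| ≤ a0 := by
    intro s hs i
    rw [ha0]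
    exact phi_bound (hφ s hs) i
  have hn0 : (0 : ℝ) ≤ n := Nat.cast_nonneg n
  obtain ⟨b, hb0, hb1, hba0, hb2, hb3⟩ : ∃ b : ℝ, 0 < b ∧ b < 1 ∧ a0 ≤ b ∧
      (12 + 2 * n) * (1 - b) < n + 3 - ρ ^ 2 ∧
      4 * n * (1 - b) < ∑ j, (1 + |x T j|) ^ 2 - r T ^ 2 := by
    obtain ⟨ε, hε⟩ : ∃ ε : ℝ, ε = min (min (1 - a0) ((n + 3 - ρ ^ 2) / (13 + 2 * n)))
      (min ((∑ j, (1 + |x T j|) ^ 2 - r T ^ 2) / (4 * n + 1)) (1 / 2)) := ⟨_, rfl⟩
    have e1 : ε ≤ 1 - a0 := by rw [hε]; exact (min_le_left _ _).trans (min_le_left _ _)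
    have e2 : ε ≤ (n + 3 - ρ ^ 2) / (13 + 2 * n) := by
      rw [hε]; exact (min_le_left _ _).trans (min_le_right _ _)
    have e3 : ε ≤ (∑ j, (1 + |x T j|) ^ 2 - r T ^ 2) / (4 * n + 1) := by
      rw [hε]; exact (min_le_right _ _).trans (min_le_left _ _)
    have e4 : ε ≤ 1 / 2 := by rw [hε]; exact (min_le_right _ _).trans (min_le_right _ _)
    have e0 : 0 < ε := by
      rw [hε]
      refine lt_min (lt_min (by linarith) ?_) (lt_min ?_ (by norm_num))
      · exact div_pos (by linarith) (by linarith)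
      · exact div_pos (by linarith) (by linarith)
    rw [le_div_iff₀ (by linarith)] at e2 e3
    refine ⟨1 - ε, by linarith, by linarith, by linarith, ?_, ?_⟩
    · nlinarith
    · nlinarith
  have hba : b < (1 + b) / 2 := by linarith
  have ha1 : (1 + b) / 2 < 1 := by linarith
  have hδ1 : 0 < min (δ0 / 3) ((1 - (1 + b) / 2) / 2) := lt_min (by linarith) (by linarith)
  obtain ⟨N, hN⟩ := exists_nat_gt (max (4 * ρ / min (δ0 / 3) ((1 - (1 + b) / 2) / 2)) 0)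
  have hN0 : 0 < N := by
    have := (le_max_right _ _).trans_lt hN
    exact_mod_cast this
  have hN1 : 4 * ρ < min (δ0 / 3) ((1 - (1 + b) / 2) / 2) * N := by
    have := (le_max_left _ _).trans_lt hN
    rw [div_lt_iff₀ hδ1] at this
    linarith
  have P := D.phyp (by linarith) ha1 hδ1 (min_le_left _ _) (min_le_right _ _) hN0 hN1
    (fun s hs i => (hxa s hs i).trans_lt (by linarith))
  obtain ⟨c, hcdef⟩ : ∃ c : Fin n → ℝ, ∀ j, c j = if x T j ≤ 0 then 1 else -1 :=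
    ⟨_, fun _ => rfl⟩
  have hc : ∀ j, c j = 1 ∨ c j = -1 := by
    intro j
    rw [hcdef]
    split_ifs
    · exact Or.inl rfl
    · exact Or.inr rfl
  obtain ⟨σ, y, w, h1, h3, hw, hct, hd⟩ := exists_touch P (fun σ y _ => GG_odd σ y) XX_odd
    (fun σ h y hy => D.GG_id h hy) (fun σ h => D.XX_id h) hb0 hba c hc
  have hyc : y ∈ cube n := hw.2.1 ▸ chain_mem (P.hyp σ) hw (Fin.last N)
  have hs := par_mem hT0 σ
  have hs1 := D.mem1 σ
  have hX : XX x T σ = x (par T σ) := D.XX_pos (by linarith)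
  have hxc : x (par T σ) ∈ cube n := by
    intro i
    exact (hxa _ hs i).trans (by linarith)
  have hGx : GG H p T σ (XX x T σ) = 0 := by
    rw [hX, D.GG_pos (by linarith) hxc, KK, hxp _ hs, sub_self]
  have hGy : ‖GG H p T σ y‖ ≤ r (par T σ) := by
    rw [D.GG_pos (by linarith) hyc]
    exact D.norm_KK σ hyc
  have hlen : ∑ s : Fin N, dist (w s.succ) (w s.castSucc) ≤ r (par T σ) := by
    have h4 : ∑ s : Fin N, dist (w s.succ) (w s.castSucc) ≤
        ∑ _s : Fin N, ‖GG H p T σ y‖ / N := by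
      apply Finset.sum_le_sum
      intro s _
      have h5 := sum_chain_le hN0 hw s
      rwa [hGx, dist_zero_right] at h5
    rw [Finset.sum_const, Finset.card_univ, Fintype.card_fin, nsmul_eq_mul,
      mul_div_cancel₀ _ (by positivity)] at h4
    exact h4.trans hGy
  have htv := sum_tv_sq_le w hlen
  have hw0 : w 0 = x (par T σ) := by rw [hw.1, hX]
  rcases hd with hσ2 | ⟨i, k, k', hk, hk'⟩
  · -- the end of the homotopy
    rw [par_top hσ2] at htv hw0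
    have ht : ∀ j, b + |x T j| ≤ tv w j := by
      intro j
      obtain ⟨s, hs⟩ := hct j
      have h5 := tv_single (hc j) hs
      rw [hw0, hcdef] at h5
      split_ifs at h5 with h6
      · rw [abs_of_nonpos h6]
        linarith
      · rw [abs_of_pos (not_le.mp h6)]
        linarith
    have h6 := cost_single hb0 hb1 (fun j => abs_nonneg (x T j))
      (fun j => (hxa T ⟨hT0, le_refl T⟩ j).trans ha01.le) ht
    linarith
  · have ht : ∀ j, b - |x (par T σ) j| ≤ tv w j := by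
      intro j
      obtain ⟨s, hs⟩ := hct j
      have h5 := tv_single (hc j) hs
      rw [hw0] at h5
      have h6 := le_abs_self (x (par T σ) j)
      have h7 := neg_abs_le (x (par T σ) j)
      rcases hc j with h8 | h8
      · rw [h8] at h5
        linarith
      · rw [h8] at h5
        linarith
    have hti : 3 * b - |x (par T σ) i| ≤ tv w i := by
      have := tv_double hk hk'
      rwa [hw0] at this
    have hφ' : ∑ j, (2 * |x (par T σ) j| + |x (par T σ) j| ^ 2) ≤ β := by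
      have := hφ _ hs
      unfold phi at this
      simpa only [sq_abs] using this
    have h6 := cost_double hb1 (fun j => abs_nonneg (x (par T σ) j))
      (fun j => (hxa _ hs j).trans hba0) hφ' ht hti
    have h7 : r (par T σ) ^ 2 ≤ ρ ^ 2 :=
      pow_le_pow_left₀ ((norm_nonneg _).trans hGy) (hrρ _ hs1) 2
    linarith

end Pool.Agent.CubeM
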