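import Pool.Agent.CubeM.Double

/-!
# MP_c0b923_gt: the doubled homotopy, odd start
-/

set_option autoImplicit false

open Metric

namespace Pool.Agent.CubeM

open Pool.Agent.Expand Pool.Agent.CubeE

variable {n : ℕ}

/-- the doubled homotopy -/
noncomputable def GO (H : ℝ → EuclideanSpace ℝ (Fin n) → EuclideanSpace ℝ (Fin n))
    (p : ℝ → EuclideanSpace ℝ (Fin n)) (T σ : ℝ) (y : EuclideanSpace ℝ (Fin n)) :
    EuclideanSpace ℝ (Fin n) :=
  KK H p T σ y - KK H p T (-σ) (-y) - H 0 y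

/-- the data of `claim` -/
structure DatO (H : ℝ → EuclideanSpace ℝ (Fin n) → EuclideanSpace ℝ (Fin n))
    (p : ℝ → EuclideanSpace ℝ (Fin n)) (r : ℝ → ℝ) (ρ T : ℝ)
    (x : ℝ → EuclideanSpace ℝ (Fin n)) (δ0 : ℝ) : Prop where
  cont : ContinuousOn (fun q : ℝ × EuclideanSpace ℝ (Fin n) => H q.1 q.2)
    (Set.Icc (0 : ℝ) 1 ×ˢ cube n)
  hδ0 : 0 < δ0
  huni : ∀ s ∈ Set.Icc (0 : ℝ) 1, ∀ y ∈ cube n, ∀ z ∈ cube n, dist y z < δ0 →
    dist y z ≤ dist (H s y) (H s z)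
  h0 : ∀ x ∈ cube n, H 0 (-x) = -H 0 x
  hp : ContinuousOn p (Set.Icc 0 1)
  hp0 : p 0 = 0
  hr : ∀ s ∈ Set.Icc (0 : ℝ) 1, ∀ y ∈ cube n, dist (H s y) (p s) ≤ r s
  hrρ : ∀ s ∈ Set.Icc (0 : ℝ) 1, r s ≤ ρ
  hT0 : 0 ≤ T
  hT1 : T ≤ 1
  hx : ContinuousOn x (Set.Icc 0 T)
  hx0 : x 0 = 0
  hxp : ∀ s ∈ Set.Icc (0 : ℝ) T, H s (x s) = p s

variable {H : ℝ → EuclideanSpace ℝ (Fin n) → EuclideanSpace ℝ (Fin n)}
    {p : ℝ → EuclideanSpace ℝ (Fin n)} {r : ℝ → ℝ} {ρ T : ℝ}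
    {x : ℝ → EuclideanSpace ℝ (Fin n)} {δ0 : ℝ}

theorem DatO.mem1 (D : DatO H p r ρ T x δ0) (σ : ℝ) : par T σ ∈ Set.Icc (0 : ℝ) 1 :=
  ⟨(par_mem D.hT0 σ).1, (par_mem D.hT0 σ).2.trans D.hT1⟩

theorem DatO.KK_id (D : DatO H p r ρ T x δ0) {σ : ℝ} (hσ : σ ≤ 1)
    (y : EuclideanSpace ℝ (Fin n)) : KK H p T σ y = H 0 y := by
  rw [KK, par_zero hσ, D.hp0, sub_zero]

theorem DatO.GO_pos (D : DatO H p r ρ T x δ0) {σ : ℝ} (hσ : -1 ≤ σ)
    {y : EuclideanSpace ℝ (Fin n)} (hy : y ∈ cube n) : GO H p T σ y = KK H p T σ y := by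
  rw [GO, D.KK_id (by linarith : -σ ≤ 1) (-y), D.h0 y hy]
  abel

theorem DatO.GO_neg (D : DatO H p r ρ T x δ0) {σ : ℝ} (hσ : σ ≤ 1)
    (y : EuclideanSpace ℝ (Fin n)) :
    GO H p T σ y = -KK H p T (-σ) (-y) := by
  rw [GO, D.KK_id hσ y]
  abel

theorem DatO.GO_odd (D : DatO H p r ρ T x δ0) (σ : ℝ) {y : EuclideanSpace ℝ (Fin n)}
    (hy : y ∈ cube n) : GO H p T (-σ) (-y) = -GO H p T σ y := by
  rw [GO, GO, neg_neg, neg_neg, D.h0 y hy]
  abel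

theorem DatO.XX_pos (D : DatO H p r ρ T x δ0) {σ : ℝ} (hσ : -1 ≤ σ) :
    XX x T σ = x (par T σ) := by
  rw [XX, par_zero (by linarith : -σ ≤ 1), D.hx0, sub_zero]

theorem DatO.XX_neg (D : DatO H p r ρ T x δ0) {σ : ℝ} (hσ : σ ≤ 1) :
    XX x T σ = -x (par T (-σ)) := by
  rw [XX, par_zero hσ, D.hx0, zero_sub]

theorem DatO.XX_id (D : DatO H p r ρ T x δ0) {σ : ℝ} (hσ : |σ| ≤ 1) : XX x T σ = 0 := by
  rw [D.XX_pos (abs_le.mp hσ).1, par_zero (abs_le.mp hσ).2, D.hx0]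

theorem DatO.norm_KK (D : DatO H p r ρ T x δ0) (σ : ℝ)
    {y : EuclideanSpace ℝ (Fin n)} (hy : y ∈ cube n) : ‖KK H p T σ y‖ ≤ r (par T σ) := by
  rw [KK, ← dist_eq_norm]
  exact D.hr _ (D.mem1 σ) y hy

theorem DatO.KK_exp (D : DatO H p r ρ T x δ0) (σ : ℝ)
    {y : EuclideanSpace ℝ (Fin n)} (hy : y ∈ cube n) {z : EuclideanSpace ℝ (Fin n)}
    (hz : z ∈ cube n) (hyz : dist y z < δ0) :
    dist y z ≤ dist (KK H p T σ y) (KK H p T σ z) := by
  rw [KK, KK, dist_sub_right]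
  exact D.huni _ (D.mem1 σ) y hy z hz hyz

theorem DatO.cont_KK (D : DatO H p r ρ T x δ0) :
    ContinuousOn (fun q : ℝ × EuclideanSpace ℝ (Fin n) => KK H p T q.1 q.2)
      (Set.univ ×ˢ cube n) := by
  have h1 : ContinuousOn (fun q : ℝ × EuclideanSpace ℝ (Fin n) => H (par T q.1) q.2)
      (Set.univ ×ˢ cube n) := by
    refine D.cont.comp (f := fun q : ℝ × EuclideanSpace ℝ (Fin n) => (par T q.1, q.2)) ?_ ?_
    · exact (((continuous_par T).comp continuous_fst).prodMk continuous_snd).continuousOn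
    · intro q hq
      exact ⟨D.mem1 q.1, hq.2⟩
  have h2 : Continuous fun e : ℝ => p (par T e) := by
    have h3 : ContinuousOn (fun e : ℝ => p (par T e)) Set.univ :=
      D.hp.comp (continuous_par T).continuousOn fun e _ => D.mem1 e
    exact continuousOn_univ.mp h3
  exact h1.sub (h2.comp continuous_fst).continuousOn

theorem DatO.cont_GG (D : DatO H p r ρ T x δ0) :
    ContinuousOn (fun q : ℝ × EuclideanSpace ℝ (Fin n) => GO H p T q.1 q.2)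
      (Set.univ ×ˢ cube n) := by
  have h2 : ContinuousOn (fun q : ℝ × EuclideanSpace ℝ (Fin n) => KK H p T (-q.1) (-q.2))
      (Set.univ ×ˢ cube n) := by
    refine D.cont_KK.comp (f := fun q : ℝ × EuclideanSpace ℝ (Fin n) => (-q.1, -q.2)) ?_ ?_
    · exact (continuous_fst.neg.prodMk continuous_snd.neg).continuousOn
    · intro q hq
      exact ⟨Set.mem_univ _, neg_mem_cube hq.2⟩
  have h3 : ContinuousOn (fun q : ℝ × EuclideanSpace ℝ (Fin n) => H 0 q.2)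
      (Set.univ ×ˢ cube n) := by
    refine D.cont.comp (f := fun q : ℝ × EuclideanSpace ℝ (Fin n) => ((0 : ℝ), q.2)) ?_ ?_
    · exact (continuous_const.prodMk continuous_snd).continuousOn
    · intro q hq
      exact ⟨⟨le_refl _, zero_le_one⟩, hq.2⟩
  exact (D.cont_KK.sub h2).sub h3

theorem DatO.cont_XX (D : DatO H p r ρ T x δ0) : Continuous (XX x T) := by
  have h2 : Continuous fun e : ℝ => x (par T e) := by
    have h3 : ContinuousOn (fun e : ℝ => x (par T e)) Set.univ :=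
      D.hx.comp (continuous_par T).continuousOn fun e _ => par_mem D.hT0 e
    exact continuousOn_univ.mp h3
  unfold XX
  exact h2.sub (h2.comp continuous_neg)

theorem DatO.GO_exp (D : DatO H p r ρ T x δ0) (σ : ℝ)
    {y : EuclideanSpace ℝ (Fin n)} (hy : y ∈ cube n) {z : EuclideanSpace ℝ (Fin n)}
    (hz : z ∈ cube n) (hyz : dist y z < δ0) :
    dist y z ≤ dist (GO H p T σ y) (GO H p T σ z) := by
  rcases le_total 0 σ with h | h
  · rw [D.GO_pos (by linarith) hy, D.GO_pos (by linarith) hz]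
    exact D.KK_exp σ hy hz hyz
  · rw [D.GO_neg (by linarith) y, D.GO_neg (by linarith) z, dist_neg_neg]
    have h1 : dist (-y) (-z) < δ0 := by rwa [dist_neg_neg]
    have h2 := D.KK_exp (-σ) (neg_mem_cube hy) (neg_mem_cube hz) h1
    rwa [dist_neg_neg] at h2

theorem DatO.norm_GG (D : DatO H p r ρ T x δ0) (σ : ℝ)
    {y : EuclideanSpace ℝ (Fin n)} (hy : y ∈ cube n) : ‖GO H p T σ y‖ ≤ ρ := by
  rcases le_total 0 σ with h | h
  · rw [D.GO_pos (by linarith) hy]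
    exact (D.norm_KK σ hy).trans (D.hrρ _ (D.mem1 _))
  · rw [D.GO_neg (by linarith) y, norm_neg]
    exact (D.norm_KK (-σ) (neg_mem_cube hy)).trans (D.hrρ _ (D.mem1 _))

theorem DatO.phyp (D : DatO H p r ρ T x δ0) {a δ : ℝ} (ha0 : 0 < a) (ha1 : a < 1) (hδ : 0 < δ)
    (hδ2 : δ ≤ δ0 / 3) (hδ3 : δ ≤ (1 - a) / 2) {N : ℕ} (hN0 : 0 < N) (hN : 4 * ρ < δ * N)
    (hxa : ∀ s ∈ Set.Icc (0 : ℝ) T, ∀ i, |x s i| < a) :
    PHyp (GO H p T) (XX x T) N a δ ρ := by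
  have hc : ∀ σ, ContinuousOn (GO H p T σ) (cube n) := by
    intro σ
    exact D.cont_GG.comp (f := fun y : EuclideanSpace ℝ (Fin n) => (σ, y))
      (continuous_const.prodMk continuous_id).continuousOn fun y hy => ⟨Set.mem_univ _, hy⟩
  refine ⟨fun σ => ⟨ha0, ha1, hδ, hN0, hN, hc σ, fun y hy => ?_, fun y hy z hz h => ?_, ?_⟩,
    D.cont_GG, D.cont_XX, fun σ i => ?_⟩
  · rw [dist_zero_right]
    exact D.norm_GG σ hy
  · have := D.hδ0
    exact D.GO_exp σ hy hz (by linarith)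
  · exact local_of_uniform (hc σ) (fun y hy z hz h => D.GO_exp σ hy hz h) hδ hδ2 hδ3
  · rcases le_total 0 σ with h | h
    · rw [D.XX_pos (by linarith)]
      exact hxa _ (par_mem D.hT0 σ) i
    · rw [D.XX_neg (by linarith), PiLp.neg_apply, abs_neg]
      exact hxa _ (par_mem D.hT0 (-σ)) i

end Pool.Agent.CubeM
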