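import Mathlib
import Pool.Agent.Expand.Defs

/-!
# MP_c0b923_gt: homotopies through expanding maps (barrier theorem), definitions
-/

set_option autoImplicit false

namespace Pool.Agent.CubeM

open Pool.Agent.Expand

/-- A homotopy `H s`, `0 ≤ s ≤ 1`, of maps of the cube which do not decrease distances less than
a number `δ > 0` that does not depend on `s`. -/
def ExpandingHomotopy (n : ℕ)
    (H : ℝ → EuclideanSpace ℝ (Fin n) → EuclideanSpace ℝ (Fin n)) : Prop :=
  ContinuousOn (fun q : ℝ × EuclideanSpace ℝ (Fin n) => H q.1 q.2)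
    (Set.Icc (0 : ℝ) 1 ×ˢ cube n) ∧
  ∃ δ > 0, ∀ s ∈ Set.Icc (0 : ℝ) 1, ∀ y ∈ cube n, ∀ z ∈ cube n, dist y z < δ →
    dist y z ≤ dist (H s y) (H s z)

/-- the constraint on the base point -/
noncomputable def phi {n : ℕ} (x : EuclideanSpace ℝ (Fin n)) : ℝ :=
  ∑ j, (2 * |x j| + x j ^ 2)

end Pool.Agent.CubeM
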