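import Pool.Agent.CubeM.ParChain
import Pool.Agent.CubeE.BU

/-!
# MP_c0b923_gt: the odd field of a doubled homotopy
-/

set_option autoImplicit false

open Metric

namespace Pool.Agent.CubeM

open Pool.Agent.Expand Pool.Agent.CubeE

variable {n N : ℕ}

/-- total excess of the coordinate `j` over `b` -/
noncomputable def pos (b : ℝ) (w : Fin (N + 1) → EuclideanSpace ℝ (Fin n)) (j : Fin n) : ℝ :=
  ∑ s, max 0 (w s j - b)

theorem pos_nonneg (b : ℝ) (w : Fin (N + 1) → EuclideanSpace ℝ (Fin n)) (j : Fin n) :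
    0 ≤ pos b w j := Finset.sum_nonneg fun _ _ => le_max_left _ _

theorem pos_pos {b : ℝ} {w : Fin (N + 1) → EuclideanSpace ℝ (Fin n)} {j : Fin n} :
    0 < pos b w j ↔ ∃ s, b < w s j := by
  constructor
  · intro h
    by_contra hcon
    push Not at hcon
    have : pos b w j = 0 := Finset.sum_eq_zero fun s _ =>
      max_eq_left (by linarith [hcon s])
    linarith
  · rintro ⟨s, hs⟩
    refine Finset.sum_pos' (fun _ _ => le_max_left _ _) ⟨s, Finset.mem_univ _, ?_⟩
    exact lt_max_of_lt_right (by linarith)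

theorem pos_le {b a : ℝ} (hb : 0 ≤ b) (ha : a ≤ 1)
    {w : Fin (N + 1) → EuclideanSpace ℝ (Fin n)} (hw : ∀ s i, |w s i| ≤ a) (j : Fin n) :
    pos b w j ≤ N + 1 := by
  have h1 : pos b w j ≤ ∑ _s : Fin (N + 1), (1 : ℝ) := by
    apply Finset.sum_le_sum
    intro s _
    apply max_le zero_le_one
    have := (abs_le.mp (hw s j)).2
    linarith
  simpa using h1

theorem continuous_pos (b : ℝ) (j : Fin n) :
    Continuous fun w : Fin (N + 1) → EuclideanSpace ℝ (Fin n) => pos b w j := by
  unfold pos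
  fun_prop

/-- the field -/
noncomputable def field (b Θ : ℝ) (c : Fin n → ℝ) (j : Fin n) (σ : ℝ)
    (w : Fin (N + 1) → EuclideanSpace ℝ (Fin n)) : ℝ :=
  pos b w j - pos b (-w) j - (max (-1) (min 1 σ) * ∑ i, min (pos b w i) (pos b (-w) i) +
    Θ * (max (σ - 2) 0 - max (-σ - 2) 0)) * c j

theorem field_neg (b Θ : ℝ) (c : Fin n → ℝ) (j : Fin n) (σ : ℝ)
    (w : Fin (N + 1) → EuclideanSpace ℝ (Fin n)) :
    field b Θ c j (-σ) (-w) = -field b Θ c j σ w := by
  have h1 : max (-1) (min 1 (-σ)) = -max (-1) (min 1 σ) := by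
    rcases le_total σ (-1) with h | h
    · rw [min_eq_left (by linarith), max_eq_right (by linarith), min_eq_right (by linarith),
        max_eq_left h]
      ring
    · rcases le_total σ 1 with h' | h'
      · rw [min_eq_right (by linarith), max_eq_right (by linarith), min_eq_right h',
          max_eq_right h]
      · rw [min_eq_right (by linarith), max_eq_left (by linarith), min_eq_left h',
          max_eq_right (by linarith)]
  have h2 : ∑ i, min (pos b (-w) i) (pos b w i) = ∑ i, min (pos b w i) (pos b (-w) i) :=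
    Finset.sum_congr rfl fun i _ => min_comm _ _
  simp only [field, neg_neg]
  rw [h1, h2]
  ring

theorem continuous_field (b Θ : ℝ) (c : Fin n → ℝ) (j : Fin n) :
    Continuous fun q : ℝ × (Fin (N + 1) → EuclideanSpace ℝ (Fin n)) =>
      field b Θ c j q.1 q.2 := by
  have h1 : ∀ i : Fin n, Continuous fun q : ℝ × (Fin (N + 1) → EuclideanSpace ℝ (Fin n)) =>
      pos b q.2 i := fun i => (continuous_pos b i).comp continuous_snd
  have h2 : ∀ i : Fin n, Continuous fun q : ℝ × (Fin (N + 1) → EuclideanSpace ℝ (Fin n)) =>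
      pos b (-q.2) i := fun i => (continuous_pos b i).comp continuous_snd.neg
  unfold field
  have h3 : Continuous fun q : ℝ × (Fin (N + 1) → EuclideanSpace ℝ (Fin n)) =>
      ∑ i, min (pos b q.2 i) (pos b (-q.2) i) :=
    continuous_finsetSum _ fun i _ => (h1 i).min (h2 i)
  have h4 := h1 j
  have h5 := h2 j
  fun_prop

theorem chain_neg' {G : ℝ → EuclideanSpace ℝ (Fin n) → EuclideanSpace ℝ (Fin n)}
    {x : ℝ → EuclideanSpace ℝ (Fin n)} {a : ℝ} (ha : a ≤ 1)
    (hodd : ∀ σ, ∀ y ∈ cube n, G (-σ) (-y) = -G σ y) (hxodd : ∀ σ, x (-σ) = -x σ)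
    (hxc : ∀ σ, x σ ∈ cube n) {σ : ℝ} {y : EuclideanSpace ℝ (Fin n)}
    {w : Fin (N + 1) → EuclideanSpace ℝ (Fin n)} (h : IsChain (G σ) N a (x σ) y w) :
    IsChain (G (-σ)) N a (x (-σ)) (-y) (-w) := by
  obtain ⟨h0, h1, h2, h3, h4⟩ := h
  have hc : ∀ s, w s ∈ cube n := fun s i => (h2 s i).trans ha
  have hy : y ∈ cube n := h1 ▸ hc _
  refine ⟨by simp [h0, hxodd], by simp [h1], fun s i => by simpa using h2 s i, fun s => ?_,
    fun s => ?_⟩
  · rw [Pi.neg_apply, hodd _ _ (hc s), hodd _ _ hy, h3 s, hxodd, hodd _ _ (hxc σ), neg_add,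
      ← smul_neg]
    congr 2
    abel
  · rw [Pi.neg_apply, Pi.neg_apply, hodd _ _ (hc _), hodd _ _ (hc _), dist_neg_neg, dist_neg_neg]
    exact h4 s

/-- splitting off the parameter -/
noncomputable def pmap (v : EuclideanSpace ℝ (Fin (n + 1))) : ℝ × EuclideanSpace ℝ (Fin n) :=
  (v 0, WithLp.toLp 2 (fun i => v i.succ))

theorem pmap_fst (v : EuclideanSpace ℝ (Fin (n + 1))) : (pmap v).1 = v 0 := rfl

theorem pmap_snd (v : EuclideanSpace ℝ (Fin (n + 1))) (i : Fin n) :
    (pmap v).2 i = v i.succ := rfl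

theorem continuous_pmap : Continuous (pmap (n := n)) := by
  refine Continuous.prodMk (by fun_prop) ?_
  exact (PiLp.continuous_toLp 2 _).comp (by fun_prop)

theorem pmap_neg (v : EuclideanSpace ℝ (Fin (n + 1))) : pmap (-v) = -pmap v := by
  apply Prod.ext
  · simp [pmap]
  · ext i
    simp [pmap]

theorem pmap_zero : pmap (0 : EuclideanSpace ℝ (Fin (n + 1))) = (0, 0) := by
  apply Prod.ext
  · simp [pmap]
  · ext i
    simp [pmap]

theorem pos_eq_zero {b : ℝ} {w : Fin (N + 1) → EuclideanSpace ℝ (Fin n)} {j : Fin n}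
    (h : pos b w j = 0) (s : Fin (N + 1)) : w s j ≤ b := by
  by_contra hcon
  push Not at hcon
  have := pos_pos.mpr ⟨s, hcon⟩
  linarith

/-- Analysis of a zero of the field with nonnegative parameter. -/
theorem zero_analysis {G : ℝ → EuclideanSpace ℝ (Fin n) → EuclideanSpace ℝ (Fin n)}
    {x : ℝ → EuclideanSpace ℝ (Fin n)} {a : ℝ} (ha1 : a < 1)
    (hid : ∀ σ, |σ| ≤ 1 → ∀ y ∈ cube n, G σ y = y) (hx0 : ∀ σ, |σ| ≤ 1 → x σ = 0)
    {b : ℝ} (hb : 0 < b) (hba : b < a) {c : Fin n → ℝ} (hc : ∀ j, c j = 1 ∨ c j = -1)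
    {Θ : ℝ} (hΘ0 : 0 < Θ) {σ : ℝ} {y : EuclideanSpace ℝ (Fin n)}
    {w : Fin (N + 1) → EuclideanSpace ℝ (Fin n)} (hσ0 : 0 ≤ σ)
    (hw : IsChain (G σ) N a (x σ) y w) (hzero : ∀ j, field b Θ c j σ w = 0)
    (htouch : σ = 3 ∨ ∃ s i, |w s i| = a) :
    1 ≤ σ ∧ (∀ j, ∃ s, b < c j * w s j) ∧
      (2 ≤ σ ∨ ∃ i, ∃ s s', b < w s i ∧ w s' i < -b) := by
  have hm0 : ∀ i, 0 ≤ min (pos b w i) (pos b (-w) i) := fun i =>
    le_min (pos_nonneg _ _ _) (pos_nonneg _ _ _)
  have hM0 : 0 ≤ ∑ i, min (pos b w i) (pos b (-w) i) := Finset.sum_nonneg fun i _ => hm0 i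
  have hσneg : max (-σ - 2) 0 = 0 := max_eq_right (by linarith)
  have hnt : (∀ i, pos b w i = 0) → (∀ i, pos b (-w) i = 0) → ∀ s i, |w s i| ≠ a := by
    intro k1 k2 s i h
    have h4 := pos_eq_zero (k1 i) s
    have h5 := pos_eq_zero (k2 i) s
    rw [Pi.neg_apply, PiLp.neg_apply] at h5
    have : |w s i| ≤ b := abs_le.mpr ⟨by linarith, h4⟩
    linarith
  rcases lt_or_ge σ 1 with hσ1 | hσ1
  · -- the identity part
    exfalso
    have habs : |σ| ≤ 1 := by rw [abs_of_nonneg hσ0]; exact hσ1.le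
    have hwc : ∀ s, w s ∈ cube n := fun s i => (hw.2.2.1 s i).trans ha1.le
    have hyc : y ∈ cube n := hw.2.1 ▸ hwc _
    have h1 : ∀ s : Fin (N + 1), w s = ((s : ℕ) / N : ℝ) • y := by
      intro s
      have h2 := hw.2.2.2.1 s
      rw [hx0 σ habs, hid σ habs _ (hwc s), hid σ habs _ hyc, hid σ habs 0
        (fun i => by simp)] at h2
      rw [h2]
      simp
    have hmin : ∀ i, min (pos b w i) (pos b (-w) i) = 0 := by
      intro i
      by_contra hne
      have h2 : 0 < min (pos b w i) (pos b (-w) i) := lt_of_le_of_ne (hm0 i) (Ne.symm hne)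
      obtain ⟨h3, h4⟩ := lt_min_iff.mp h2
      obtain ⟨s, hs⟩ := pos_pos.mp h3
      obtain ⟨s', hs'⟩ := pos_pos.mp h4
      rw [h1 s] at hs
      rw [Pi.neg_apply, h1 s'] at hs'
      simp only [PiLp.smul_apply, PiLp.neg_apply, smul_eq_mul] at hs hs'
      have e1 : (0 : ℝ) ≤ (s : ℕ) / N := by positivity
      have e2 : (0 : ℝ) ≤ (s' : ℕ) / N := by positivity
      rcases le_total 0 (y i) with h5 | h5
      · have := mul_nonneg e2 h5
        linarith
      · have := mul_nonpos_of_nonneg_of_nonpos e1 h5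
        linarith
    have hsum : ∑ i, min (pos b w i) (pos b (-w) i) = 0 :=
      Finset.sum_eq_zero fun i _ => hmin i
    have hz2 : ∀ j, pos b w j = pos b (-w) j := by
      intro j
      have h2 := hzero j
      rw [field, hsum, hσneg, max_eq_right (by linarith : σ - 2 ≤ 0)] at h2
      linarith
    have hz3 : ∀ j, pos b w j = 0 := by
      intro j
      have := hmin j
      rw [← hz2 j, min_self] at this
      exact this
    rcases htouch with h | ⟨s, i, h⟩
    · linarith
    · exact hnt hz3 (fun i => (hz2 i).symm.trans (hz3 i)) s i h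
  · have hg : max (-1) (min 1 σ) = 1 := by
      rw [min_eq_left hσ1, max_eq_right (by norm_num)]
    obtain ⟨lam, hlam⟩ : ∃ lam : ℝ,
        lam = ∑ i, min (pos b w i) (pos b (-w) i) + Θ * max (σ - 2) 0 := ⟨_, rfl⟩
    have hfield : ∀ j, pos b w j - pos b (-w) j = lam * c j := by
      intro j
      have h2 := hzero j
      rw [field, hg, hσneg] at h2
      rw [hlam]
      linarith
    have hth0 : 0 ≤ Θ * max (σ - 2) 0 := mul_nonneg hΘ0.le (le_max_right _ _)
    have hlam0 : 0 ≤ lam := by rw [hlam]; exact add_nonneg hM0 hth0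
    have hlampos : 0 < lam := by
      by_contra hcon
      have hl : lam = 0 := le_antisymm (not_lt.mp hcon) hlam0
      have hsum : ∑ i, min (pos b w i) (pos b (-w) i) = 0 := by linarith
      have hth : Θ * max (σ - 2) 0 = 0 := by linarith
      have hmin : ∀ i, min (pos b w i) (pos b (-w) i) = 0 := fun i =>
        (Finset.sum_eq_zero_iff_of_nonneg fun i _ => hm0 i).mp hsum i (Finset.mem_univ i)
      have e1 : ∀ i, pos b w i = pos b (-w) i := by
        intro i
        have := hfield i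
        rw [hl, zero_mul] at this
        linarith
      have e2 : ∀ i, pos b w i = 0 := by
        intro i
        have := hmin i
        rwa [← e1, min_self] at this
      rcases htouch with h | ⟨s, i, h⟩
      · rw [h, show max ((3 : ℝ) - 2) 0 = 1 by norm_num] at hth
        linarith
      · exact hnt e2 (fun i => (e1 i).symm.trans (e2 i)) s i h
    refine ⟨hσ1, fun j => ?_, ?_⟩
    · have h2 := hfield j
      rcases hc j with h3 | h3
      · rw [h3, mul_one] at h2
        have h4 : 0 < pos b w j := by linarith [pos_nonneg b (-w) j]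
        obtain ⟨s, hs⟩ := pos_pos.mp h4
        exact ⟨s, by rw [h3, one_mul]; exact hs⟩
      · rw [h3] at h2
        have h4 : 0 < pos b (-w) j := by linarith [pos_nonneg b w j]
        obtain ⟨s, hs⟩ := pos_pos.mp h4
        refine ⟨s, ?_⟩
        rw [Pi.neg_apply, PiLp.neg_apply] at hs
        rw [h3]
        linarith
    · by_cases hσ2 : 2 ≤ σ
      · exact Or.inl hσ2
      · right
        push Not at hσ2
        have h5 : max (σ - 2) 0 = 0 := max_eq_right (by linarith)
        rw [h5, mul_zero, add_zero] at hlam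
        by_contra hcon
        push Not at hcon
        have hsum : ∑ i, min (pos b w i) (pos b (-w) i) = 0 := by
          apply Finset.sum_eq_zero
          intro i _
          by_contra hne
          have h2 : 0 < min (pos b w i) (pos b (-w) i) :=
            lt_of_le_of_ne (hm0 i) (Ne.symm hne)
          obtain ⟨h3, h4⟩ := lt_min_iff.mp h2
          obtain ⟨s, hs⟩ := pos_pos.mp h3
          obtain ⟨s', hs'⟩ := pos_pos.mp h4
          have h6 := hcon i s s' hs
          rw [Pi.neg_apply, PiLp.neg_apply] at hs'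
          linarith
        linarith

end Pool.Agent.CubeM
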