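import Pool.Agent.CubeE.Mom
import Pool.Agent.CubeE.Vand

/-!
# MP_c0b923_gt: the odd field of a doubled homotopy which starts at an odd map
-/

set_option autoImplicit false

open Finset

namespace Pool.Agent.CubeM

open Pool.Agent.CubeE

variable {n N : ℕ}

/-- the nodes: `0` and positive integers -/
noncomputable def node : Option (Fin n × Fin n) → ℝ
  | none => 0
  | some t => ((finProdFinEquiv t : ℕ) : ℝ) + 1

theorem node_inj : Function.Injective (node (n := n)) := by
  intro t t' h
  rcases t with _ | t <;> rcases t' with _ | t'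
  · rfl
  · exfalso
    have h1 : (0 : ℝ) = ((finProdFinEquiv t' : ℕ) : ℝ) + 1 := h
    have h2 : (0 : ℝ) ≤ ((finProdFinEquiv t' : ℕ) : ℝ) := Nat.cast_nonneg _
    linarith
  · exfalso
    have h1 : ((finProdFinEquiv t : ℕ) : ℝ) + 1 = 0 := h
    have h2 : (0 : ℝ) ≤ ((finProdFinEquiv t : ℕ) : ℝ) := Nat.cast_nonneg _
    linarith
  · have h1 : ((finProdFinEquiv t : ℕ) : ℝ) + 1 = ((finProdFinEquiv t' : ℕ) : ℝ) + 1 := h
    have h2 : ((finProdFinEquiv t : ℕ) : ℝ) = ((finProdFinEquiv t' : ℕ) : ℝ) := by linarith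
    have h3 : (finProdFinEquiv t : ℕ) = (finProdFinEquiv t' : ℕ) := by exact_mod_cast h2
    rw [finProdFinEquiv.injective (Fin.ext h3)]

theorem vand_zero (β : Option (Fin n × Fin n) → ℝ) (hK : Set.ncard {t | β t ≠ 0} ≤ n)
    (h : ∀ s : Fin n, ∑ t, node t ^ (s : ℕ) * β t = 0) (t : Option (Fin n × Fin n)) :
    β t = 0 := by
  by_contra ht
  obtain ⟨s, hs, hne⟩ := vand_ne node node_inj β n hK ⟨t, ht⟩
  exact hne (h ⟨s, hs⟩)

/-- the zero of `Fin n` -/
def fz (i : Fin n) : Fin n := ⟨0, Fin.pos i⟩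

/-- vectors supported by the single labels -/
noncomputable def exv (c0 : ℝ) (v : Fin n → ℝ) : Option (Fin n × Fin n) → ℝ
  | none => c0
  | some t => if (t.2 : ℕ) = 0 then v t.1 else 0

theorem sum_exv (c0 : ℝ) (v : Fin n → ℝ) (s : ℕ) :
    ∑ t, node t ^ s * exv c0 v t =
      node (none : Option (Fin n × Fin n)) ^ s * c0 + ∑ i, node (some (i, fz i)) ^ s * v i := by
  rw [Fintype.sum_option, Fintype.sum_prod_type]
  congr 1
  refine sum_congr rfl fun i _ => ?_
  rw [sum_eq_single (fz i)]
  · simp [exv, fz]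
  · intro k _ hk
    have h1 : (k : ℕ) ≠ 0 := fun h => hk (Fin.ext h)
    simp [exv, h1]
  · intro h
    exact absurd (mem_univ _) h

theorem ncard_range_le {α : Type*} (f : Fin n → α) : (Set.range f).ncard ≤ n := by
  rw [← Set.image_univ]
  refine (Set.ncard_image_le Set.finite_univ).trans ?_
  rw [Set.ncard_univ, Nat.card_eq_fintype_card, Fintype.card_fin]

theorem ncard_exv (v : Fin n → ℝ) : Set.ncard {t | exv 0 v t ≠ 0} ≤ n := by
  refine (Set.ncard_le_ncard (t := Set.range fun i : Fin n => some (i, fz i)) ?_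
    (Set.finite_range _)).trans (ncard_range_le _)
  rintro (_ | ⟨i, k⟩) ht
  · exact absurd rfl ht
  · by_cases hk : (k : ℕ) = 0
    · exact ⟨i, by simp only; rw [show k = fz i from Fin.ext hk]⟩
    · exact absurd (by simp [exv, hk]) ht

theorem ncard_exv' (c0 : ℝ) (v : Fin n → ℝ) (i0 : Fin n) (hv : v i0 = 0) :
    Set.ncard {t | exv c0 v t ≠ 0} ≤ n := by
  classical
  refine (Set.ncard_le_ncard (t := Set.range fun i : Fin n =>
    if i = i0 then none else some (i, fz i)) ?_ (Set.finite_range _)).trans (ncard_range_le _)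
  rintro (_ | ⟨i, k⟩) ht
  · exact ⟨i0, by simp⟩
  · by_cases hk : (k : ℕ) = 0
    · have hi : i ≠ i0 := by
        rintro rfl
        exact ht (by simp [exv, hk, hv])
      exact ⟨i, by simp only; rw [if_neg hi, show k = fz i from Fin.ext hk]⟩
    · exact absurd (by simp [exv, hk]) ht

/-- The signs of the labels. -/
theorem exists_eps (c : Fin n → ℝ) (hc : ∀ j, c j = 1 ∨ c j = -1) :
    ∃ a ε : Fin n → ℝ, (∀ i, ε i = 1 ∨ ε i = -1) ∧ (∀ i, 0 < ε i * a i * c i) ∧
      ∀ s : Fin n, node (none : Option (Fin n × Fin n)) ^ (s : ℕ) =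
        ∑ i, node (some (i, fz i)) ^ (s : ℕ) * a i := by
  have hdet : IsUnit (Matrix.vandermonde fun i : Fin n => node (some (i, fz i))).transpose.det := by
    rw [Matrix.det_transpose, isUnit_iff_ne_zero, Matrix.det_vandermonde_ne_zero_iff]
    intro i j hij
    have := node_inj hij
    simp only [Option.some.injEq, Prod.mk.injEq] at this
    exact this.1
  obtain ⟨a, ha⟩ : ∃ a : Fin n → ℝ, ∀ s : Fin n,
      node (none : Option (Fin n × Fin n)) ^ (s : ℕ) =
        ∑ i, node (some (i, fz i)) ^ (s : ℕ) * a i := by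
    obtain ⟨V, hV⟩ : ∃ V : Matrix (Fin n) (Fin n) ℝ,
      V = (Matrix.vandermonde fun i : Fin n => node (some (i, fz i))).transpose := ⟨_, rfl⟩
    obtain ⟨X, hX⟩ : ∃ X : Fin n → ℝ,
      ∀ s : Fin n, X s = node (none : Option (Fin n × Fin n)) ^ (s : ℕ) := ⟨_, fun _ => rfl⟩
    rw [← hV] at hdet
    refine ⟨V⁻¹.mulVec X, fun s => ?_⟩
    have h1 : V.mulVec (V⁻¹.mulVec X) = X := by
      rw [Matrix.mulVec_mulVec, Matrix.mul_nonsing_inv _ hdet, Matrix.one_mulVec]
    rw [← hX s]
    have h2 := congrFun h1 s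
    rw [← h2, Matrix.mulVec, dotProduct]
    refine sum_congr rfl fun i _ => ?_
    rw [hV, Matrix.transpose_apply, Matrix.vandermonde_apply]
  have ha0 : ∀ i, a i ≠ 0 := by
    intro i0 hi0
    have h1 := vand_zero (exv (-1) a) (ncard_exv' (-1) a i0 hi0) (fun s => by
      rw [sum_exv, ha s]
      ring) none
    simp [exv] at h1
  refine ⟨a, fun i => if 0 < a i * c i then 1 else -1, fun i => ?_, fun i => ?_, ha⟩
  · simp only
    split_ifs
    · exact Or.inl rfl
    · exact Or.inr rfl
  · simp only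
    split_ifs with h
    · linarith
    · have h1 : a i * c i ≠ 0 := by
        apply mul_ne_zero (ha0 i)
        rcases hc i with h2 | h2 <;> rw [h2] <;> norm_num
      have h2 : a i * c i < 0 := lt_of_le_of_ne (not_lt.mp h) h1
      linarith

/-- odd cut-off -/
noncomputable def gam (σ : ℝ) : ℝ := max (-1) (min 1 σ)

/-- even cut-off -/
noncomputable def lam (σ : ℝ) : ℝ := max 0 (1 - |σ|)

/-- odd drift at the ends -/
noncomputable def drf (σ : ℝ) : ℝ := max (σ - 2) 0 - max (-σ - 2) 0

theorem gam_neg (σ : ℝ) : gam (-σ) = -gam σ := by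
  unfold gam
  rcases le_total σ (-1) with h | h
  · rw [min_eq_left (by linarith), max_eq_right (by linarith), min_eq_right (by linarith),
      max_eq_left h]
    ring
  · rcases le_total σ 1 with h' | h'
    · rw [min_eq_right (by linarith), max_eq_right (by linarith), min_eq_right h',
        max_eq_right h]
    · rw [min_eq_right (by linarith), max_eq_left (by linarith), min_eq_left h',
        max_eq_right (by linarith)]

theorem lam_neg (σ : ℝ) : lam (-σ) = lam σ := by
  unfold lam
  rw [abs_neg]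

theorem drf_neg (σ : ℝ) : drf (-σ) = -drf σ := by
  unfold drf
  rw [neg_neg]
  ring

/-- the coefficients -/
noncomputable def coef (N : ℕ) (b : ℝ) (ε : Fin n → ℝ) (u : Fin n → ℕ → ℝ) (σ : ℝ) :
    Option (Fin n × Fin n) → ℝ
  | none => -(gam σ * ∑ i, lbet N b 2 (u i) + drf σ)
  | some t => if (t.2 : ℕ) = 0 then ε t.1 * mom N b 0 (u t.1) else
      lam σ * (lbet N b ((t.2 : ℕ) + 1) (u t.1) * mom N b (t.2 : ℕ) (u t.1))

/-- the field -/
noncomputable def fldO (N : ℕ) (b : ℝ) (ε : Fin n → ℝ) (s : Fin n) (u : Fin n → ℕ → ℝ)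
    (σ : ℝ) : ℝ :=
  ∑ t, node t ^ (s : ℕ) * coef N b ε u σ t

theorem coef_neg (b : ℝ) (ε : Fin n → ℝ) (u : Fin n → ℕ → ℝ) (σ : ℝ)
    (t : Option (Fin n × Fin n)) :
    coef N b ε (fun i s => -u i s) (-σ) t = -coef N b ε u σ t := by
  rcases t with _ | ⟨i, k⟩
  · have h1 : ∑ i, lbet N b 2 (fun s => -u i s) = ∑ i, lbet N b 2 (u i) :=
      sum_congr rfl fun i _ => lbet_neg (u i)
    simp only [coef]
    rw [h1, gam_neg, drf_neg]
    ring
  · simp only [coef]
    split_ifs
    · rw [mom_neg]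
      ring
    · rw [mom_neg, lbet_neg, lam_neg]
      ring

theorem fldO_neg (b : ℝ) (ε : Fin n → ℝ) (s : Fin n) (u : Fin n → ℕ → ℝ) (σ : ℝ) :
    fldO N b ε s (fun i s => -u i s) (-σ) = -fldO N b ε s u σ := by
  unfold fldO
  rw [← sum_neg_distrib]
  refine sum_congr rfl fun t _ => ?_
  rw [coef_neg]
  ring

theorem continuousOn_fldO {X : Type*} [TopologicalSpace X] {S : Set X} (b : ℝ)
    (ε : Fin n → ℝ) (s : Fin n) {u : X → Fin n → ℕ → ℝ} {σ : X → ℝ}
    (hu : ∀ i, ∀ k ≤ N, ContinuousOn (fun x => u x i k) S) (hσ : ContinuousOn σ S) :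
    ContinuousOn (fun x => fldO N b ε s (u x) (σ x)) S := by
  unfold fldO
  refine continuousOn_finsetSum _ fun t _ => continuousOn_const.mul ?_
  rcases t with _ | ⟨i, k⟩
  · simp only [coef]
    have h1 : ContinuousOn (fun x => ∑ i, lbet N b 2 (u x i)) S :=
      continuousOn_finsetSum _ fun i _ => lbet_continuousOn (by omega) (hu i)
    have h2 : ContinuousOn (fun x => gam (σ x)) S := by
      have : Continuous gam := by
        unfold gam
        fun_prop
      exact this.comp_continuousOn hσ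
    have h3 : ContinuousOn (fun x => drf (σ x)) S := by
      have : Continuous drf := by
        unfold drf
        fun_prop
      exact this.comp_continuousOn hσ
    exact ((h2.mul h1).add h3).neg
  · simp only [coef]
    split_ifs with hk
    · exact continuousOn_const.mul (mom_continuousOn (hu i))
    · have h2 : ContinuousOn (fun x => lam (σ x)) S := by
        have : Continuous lam := by
          unfold lam
          fun_prop
        exact this.comp_continuousOn hσ
      exact h2.mul ((lbet_continuousOn (by omega) (hu i)).mul (mom_continuousOn (hu i)))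

end Pool.Agent.CubeM
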