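import Pool.Agent.CubeM.Path
import Pool.Agent.CubeM.Center

/-!
# MP_c0b923_gt: the barrier theorem
-/

set_option autoImplicit false

open Metric

namespace Pool.Agent.CubeM

open Pool.Agent.Expand

variable {n : ℕ}

theorem barrier {H : ℝ → EuclideanSpace ℝ (Fin n) → EuclideanSpace ℝ (Fin n)}
    (hH : ExpandingHomotopy n H) (h0 : ∀ x ∈ cube n, H 0 x = x)
    {q : ℝ → EuclideanSpace ℝ (Fin n)} {r : ℝ → ℝ}
    (hr : ∀ s ∈ Set.Icc (0 : ℝ) 1, Set.MapsTo (H s) (cube n) (closedBall (q s) (r s)))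
    (hb : ∀ s ∈ Set.Icc (0 : ℝ) 1, r s < Real.sqrt (n + 3)) :
    ∀ s ∈ Set.Icc (0 : ℝ) 1, Real.sqrt n ≤ r s := by
  intro s hs
  obtain ⟨p, R, ρ, hp, hp0, hR, hRr, hρ, hRρ⟩ := exists_center hH h0
    (fun s hs y hy => mem_closedBall.mp (hr s hs hy)) hb
  exact (barrier_of_center hH h0 hp hp0 hR hρ hRρ hs).trans (hRr s hs)

end Pool.Agent.CubeM
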