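import Pool.Agent.CubeM.Defs
import Pool.Agent.Expand.Main

/-!
# MP_c0b923_gt: continuity of the homotopy in the time
-/

set_option autoImplicit false

open Metric

namespace Pool.Agent.CubeM

open Pool.Agent.Expand

variable {n : ℕ}

/-- uniform continuity of the homotopy in the time -/
theorem unif_time {H : ℝ → EuclideanSpace ℝ (Fin n) → EuclideanSpace ℝ (Fin n)}
    (hH : ExpandingHomotopy n H) {η : ℝ} (hη : 0 < η) : ∃ δ > 0,
      ∀ s ∈ Set.Icc (0 : ℝ) 1, ∀ s' ∈ Set.Icc (0 : ℝ) 1, dist s s' < δ → ∀ y ∈ cube n,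
        dist (H s y) (H s' y) < η := by
  have hc : IsCompact (Set.Icc (0 : ℝ) 1 ×ˢ cube n) :=
    isCompact_Icc.prod (isCompact_cubeS 1)
  obtain ⟨δ, hδ, h⟩ := Metric.uniformContinuousOn_iff.1
    (hc.uniformContinuousOn_of_continuous hH.1) η hη
  refine ⟨δ, hδ, fun s hs s' hs' hss y hy => h (s, y) ⟨hs, hy⟩ (s', y) ⟨hs', hy⟩ ?_⟩
  rw [Prod.dist_eq, max_lt_iff]
  exact ⟨hss, by rwa [dist_self]⟩

theorem continuousOn_time {H : ℝ → EuclideanSpace ℝ (Fin n) → EuclideanSpace ℝ (Fin n)}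
    (hH : ExpandingHomotopy n H) {s : ℝ} (hs : s ∈ Set.Icc (0 : ℝ) 1) :
    ContinuousOn (H s) (cube n) := by
  have h1 : ContinuousOn (fun y : EuclideanSpace ℝ (Fin n) => ((s, y) :
      ℝ × EuclideanSpace ℝ (Fin n))) (cube n) := by fun_prop
  exact hH.1.comp h1 fun y hy => ⟨hs, hy⟩

theorem zero_mem_cube : (0 : EuclideanSpace ℝ (Fin n)) ∈ cube n := fun i => by simp

end Pool.Agent.CubeM
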