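import Pool.Agent.CubeM.Claim
import Pool.Agent.CubeE.Loc
import Pool.Agent.CubeM.Time

/-!
# MP_c0b923_gt: the path of the points above the centres

PROOF of `barrier_of_center`. Let `M = max (ρ^2 - n) 0 < 3` and `M < β < 3`. Claim: for every
`T ≤ 1` there is a path `x` as in `claim` on `[0, T]` with `phi (x s) ≤ M`. True for `T = 0`
(`x = 0`; `p 0 = 0`, `H 0 0 = 0`). Step of uniform length `η`: points `z` of the cube with
`phi z ≤ M` have `|z j| ≤ a0 < 1` (`2 |z j| + z j ^ 2 ≤ M < 3`); the local inverses (proof of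
`exists_local` in `Pool/Agent/CubeE/Loc.lean`, which uses only the uniform constant `δ0`, so it
works with one `δ` for all `s`) and the uniform continuity of `H`, `p` give for
`T ≤ s ≤ min 1 (T + η)` a point `x s` near `x T` with `H s (x s) = p s`, unique in a ball of radius
`δ / 3`, hence continuous in `s`, and with `phi (x s) ≤ β` (`phi` is uniformly continuous on the
cube). By `claim` (applied with each `T' ∈ [T, T + η]`) `n + phi (x T') = ∑ (1 + |x T' j|)^2 ≤
(r T')^2 ≤ ρ^2`, so `phi (x T') ≤ M`. After finitely many steps `T = 1`. In the end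
`n ≤ ∑ (1 + |x s j|)^2 ≤ (r s)^2` for all `s` (apply `claim` with `T = s`), and `0 ≤ r s`.
-/

set_option autoImplicit false

open Metric

namespace Pool.Agent.CubeM

open Pool.Agent.Expand

variable {n : ℕ}

/-- local inverses with a given constant (compare `exists_local`) -/
theorem local_inv {f : EuclideanSpace ℝ (Fin n) → EuclideanSpace ℝ (Fin n)}
    (hfc : ContinuousOn f (cube n)) {δ0 : ℝ}
    (huni : ∀ y ∈ cube n, ∀ z ∈ cube n, dist y z < δ0 → dist y z ≤ dist (f y) (f z))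
    {a δ : ℝ} (hδ1 : 0 < δ) (hδ2 : δ < δ0 / 2) (hδ3 : δ ≤ 1 - a)
    {z : EuclideanSpace ℝ (Fin n)} (hz : ∀ i, |z i| ≤ a) {w : EuclideanSpace ℝ (Fin n)}
    (hw : dist w (f z) < δ) : ∃ y ∈ cube n, f y = w ∧ dist y z ≤ dist w (f z) := by
  have hsub : ∀ y ∈ closedBall z δ, y ∈ cube n := by
    intro y hy i
    have h1 := abs_coord_le_dist y z i
    rw [mem_closedBall] at hy
    have h2 := hz i
    have h3 := abs_sub_abs_le_abs_sub (y i) (z i)
    linarith
  have hcont : ContinuousOn f (closedBall z δ) := hfc.mono hsub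
  have hzB : z ∈ closedBall z δ := mem_closedBall_self hδ1.le
  have hexp : ∀ y ∈ closedBall z δ, ∀ u ∈ closedBall z δ, dist y u ≤ dist (f y) (f u) := by
    intro y hy u hu
    apply huni y (hsub y hy) u (hsub u hu)
    rw [mem_closedBall] at hy hu
    have h1 := dist_triangle_right y u z
    linarith
  have hKc : IsCompact (f '' closedBall z δ) :=
    (isCompact_closedBall z δ).image_of_continuousOn hcont
  have hopen : ∀ v ∈ ball (f z) δ, v ∈ f '' closedBall z δ →
      v ∈ interior (f '' closedBall z δ) := by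
    rintro v hv ⟨y, hy, rfl⟩
    rw [mem_ball] at hv
    have h1 : dist y z < δ := lt_of_le_of_lt (hexp y hy z hzB) hv
    have h2 : 0 < δ - dist y z := by linarith
    have h3 : closedBall y (δ - dist y z) ⊆ closedBall z δ := by
      apply closedBall_subset_closedBall'
      linarith
    have h4 := mem_interior_image h2 (hcont.mono h3)
      (fun u hu v hv => hexp u (h3 hu) v (h3 hv))
    exact interior_mono (Set.image_mono h3) h4
  have hW : ball (f z) δ ⊆ interior (f '' closedBall z δ) := by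
    apply IsPreconnected.subset_left_of_subset_union (v := (f '' closedBall z δ)ᶜ)
      isOpen_interior hKc.isClosed.isOpen_compl
    · exact Set.disjoint_left.mpr (fun v hv hv2 => hv2 (interior_subset hv))
    · intro v hv
      by_cases h : v ∈ f '' closedBall z δ
      · exact Or.inl (hopen v hv h)
      · exact Or.inr h
    · exact ⟨f z, mem_ball_self hδ1, hopen _ (mem_ball_self hδ1) ⟨z, hzB, rfl⟩⟩
    · exact (convex_ball (f z) δ).isPreconnected
  obtain ⟨y, hy, hyw⟩ := interior_subset (hW (mem_ball.mpr hw))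
  refine ⟨y, hsub y hy, hyw, ?_⟩
  rw [← hyw]
  exact hexp y hy z hzB

theorem continuous_phi : Continuous (phi : EuclideanSpace ℝ (Fin n) → ℝ) := by
  unfold phi
  fun_prop

theorem sum_eq_phi (x : EuclideanSpace ℝ (Fin n)) :
    ∑ j, (1 + |x j|) ^ 2 = n + phi x := by
  have h1 : ∀ j, (1 + |x j|) ^ 2 = 1 + (2 * |x j| + x j ^ 2) := by
    intro j
    rw [← sq_abs (x j)]
    ring
  rw [phi, Finset.sum_congr rfl fun j _ => h1 j, Finset.sum_add_distrib]
  simp

/-- small values of `phi` mean small coordinates -/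
theorem coord_of_phi {M : ℝ} (hM : M < 3) : ∃ a < 1,
    ∀ x : EuclideanSpace ℝ (Fin n), phi x ≤ M → ∀ i, |x i| ≤ a := by
  refine ⟨Real.sqrt (1 + M) - 1, ?_, fun x hx i => ?_⟩
  · have h1 : Real.sqrt (1 + M) < 2 := by
      rw [Real.sqrt_lt' two_pos]
      linarith
    linarith
  · have h1 : 2 * |x i| + x i ^ 2 ≤ phi x := by
      unfold phi
      refine Finset.single_le_sum (f := fun j => 2 * |x j| + x j ^ 2)
        (fun j _ => ?_) (Finset.mem_univ i)
      positivity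
    have h2 : (1 + |x i|) ^ 2 ≤ 1 + M := by
      have h3 : (1 + |x i|) ^ 2 = 1 + (2 * |x i| + x i ^ 2) := by
        rw [← sq_abs (x i)]
        ring
      linarith
    have h3 : 1 + |x i| ≤ Real.sqrt (1 + M) := Real.le_sqrt_of_sq_le h2
    linarith

/-- a path of points above the centres -/
def IsPath (H : ℝ → EuclideanSpace ℝ (Fin n) → EuclideanSpace ℝ (Fin n))
    (p : ℝ → EuclideanSpace ℝ (Fin n)) (M T : ℝ) : Prop :=
  ∃ x : ℝ → EuclideanSpace ℝ (Fin n), ContinuousOn x (Set.Icc 0 T) ∧ x 0 = 0 ∧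
    (∀ s ∈ Set.Icc (0 : ℝ) T, H s (x s) = p s) ∧ ∀ s ∈ Set.Icc (0 : ℝ) T, phi (x s) ≤ M

/-- one step of uniform length -/
theorem step {H : ℝ → EuclideanSpace ℝ (Fin n) → EuclideanSpace ℝ (Fin n)}
    (hH : ExpandingHomotopy n H)
    {p : ℝ → EuclideanSpace ℝ (Fin n)} (hp : ContinuousOn p (Set.Icc 0 1))
    {M β : ℝ} (hM : M < 3) (hMβ : M < β) :
    ∃ η > 0, ∀ T, 0 ≤ T → T ≤ 1 → IsPath H p M T → ∀ T', T ≤ T' → T' ≤ 1 → T' ≤ T + η →
      IsPath H p β T' := by
  obtain ⟨a, ha, haM⟩ := coord_of_phi (n := n) hM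
  obtain ⟨δ0, hδ0, huni⟩ := hH.2
  -- uniform continuity of `phi`
  obtain ⟨δ1, hδ1, hφ⟩ := Metric.uniformContinuousOn_iff.1
    ((isCompact_cubeS (n := n) 1).uniformContinuousOn_of_continuous
      continuous_phi.continuousOn) (β - M) (by linarith)
  obtain ⟨δ, hδ, hδa, hδb, hδc⟩ : ∃ δ : ℝ, 0 < δ ∧ δ < δ0 / 2 ∧ δ ≤ 1 - a ∧ δ ≤ δ1 := by
    refine ⟨min (δ0 / 3) (min (1 - a) δ1), lt_min (by linarith) (lt_min (by linarith) hδ1),
      ?_, ?_, ?_⟩
    · have := min_le_left (δ0 / 3) (min (1 - a) δ1)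
      linarith
    · exact (min_le_right _ _).trans (min_le_left _ _)
    · exact (min_le_right _ _).trans (min_le_right _ _)
  obtain ⟨η1, hη1, hu⟩ := unif_time hH (half_pos hδ)
  obtain ⟨η2, hη2, hpu⟩ := Metric.uniformContinuousOn_iff.1
    (isCompact_Icc.uniformContinuousOn_of_continuous hp) (δ / 2) (half_pos hδ)
  refine ⟨min η1 η2 / 2, half_pos (lt_min hη1 hη2), ?_⟩
  rintro T hT0 hT1 ⟨x, hxc, hx0, hxp, hxφ⟩ T' hTT' hT'1 hT'
  have hη1' : min η1 η2 ≤ η1 := min_le_left _ _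
  have hη2' : min η1 η2 ≤ η2 := min_le_right _ _
  have hηp : 0 < min η1 η2 := lt_min hη1 hη2
  have hTm : T ∈ Set.Icc (0 : ℝ) T := ⟨hT0, le_rfl⟩
  have hT1m : T ∈ Set.Icc (0 : ℝ) 1 := ⟨hT0, hT1⟩
  have hza : ∀ i, |x T i| ≤ a := haM _ (hxφ T hTm)
  have hzc : x T ∈ cube n := fun i => (hza i).trans ha.le
  have hI : ∀ s ∈ Set.Icc T T', s ∈ Set.Icc (0 : ℝ) 1 := fun s hs =>
    ⟨hT0.trans hs.1, hs.2.trans hT'1⟩
  -- the new points
  have hnew : ∀ s, ∃ y : EuclideanSpace ℝ (Fin n), s ∈ Set.Icc T T' →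
      y ∈ cube n ∧ H s y = p s ∧ dist y (x T) ≤ dist (p s) (H s (x T)) ∧
        dist (p s) (H s (x T)) < δ := by
    intro s
    by_cases hs : s ∈ Set.Icc T T'
    · have hsT : dist s T ≤ min η1 η2 / 2 := by
        rw [Real.dist_eq, abs_of_nonneg (by linarith [hs.1])]
        linarith [hs.2]
      have h1 : dist (H T (x T)) (H s (x T)) < δ / 2 :=
        hu T hT1m s (hI s hs) (by rw [dist_comm]; linarith) _ hzc
      have h2 : dist (p s) (p T) < δ / 2 := hpu s (hI s hs) T hT1m (by linarith)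
      have h3 : dist (p s) (H s (x T)) < δ := by
        have h4 := dist_triangle (p s) (p T) (H s (x T))
        rw [← hxp T hTm] at h4 h2
        linarith
      obtain ⟨y, hy1, hy2, hy3⟩ := local_inv (continuousOn_time hH (hI s hs))
        (huni s (hI s hs)) hδ hδa hδb hza h3
      exact ⟨y, fun _ => ⟨hy1, hy2, hy3, h3⟩⟩
    · exact ⟨0, fun h => absurd h hs⟩
  choose y hy using hnew
  have hyT : y T = x T := by
    have h1 := (hy T ⟨le_rfl, hTT'⟩).2.2.1
    rw [hxp T hTm, dist_self] at h1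
    exact dist_le_zero.1 h1
  have hyc : ContinuousOn y (Set.Icc T T') := by
    rw [Metric.continuousOn_iff]
    intro s hs ε hε
    obtain ⟨ν1, hν1, hv1⟩ := unif_time hH (half_pos hε)
    obtain ⟨ν2, hν2, hv2⟩ := Metric.uniformContinuousOn_iff.1
      (isCompact_Icc.uniformContinuousOn_of_continuous hp) (ε / 2) (half_pos hε)
    refine ⟨min ν1 ν2, lt_min hν1 hν2, fun s' hs' hss => ?_⟩
    obtain ⟨a1, a2, a3, a4⟩ := hy s hs
    obtain ⟨b1, b2, b3, b4⟩ := hy s' hs'
    have h1 : dist (y s') (y s) < δ0 := by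
      have h2 := dist_triangle_right (y s') (y s) (x T)
      linarith
    have h3 := huni s (hI s hs) _ b1 _ a1 h1
    have h4 := dist_triangle (H s (y s')) (H s' (y s')) (H s (y s))
    have h5 := hv1 s (hI s hs) s' (hI s' hs')
      (by rw [dist_comm]; exact hss.trans_le (min_le_left _ _)) _ b1
    have h6 := hv2 s' (hI s' hs') s (hI s hs) (hss.trans_le (min_le_right _ _))
    rw [a2, b2] at h4
    rw [a2] at h3
    rw [b2] at h5
    linarith
  -- gluing
  classical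
  set x' : ℝ → EuclideanSpace ℝ (Fin n) := fun s => if s ≤ T then x s else y s with hx'
  have e1 : Set.EqOn x' x (Set.Icc 0 T) := fun s hs => if_pos hs.2
  have e2 : Set.EqOn x' y (Set.Icc T T') := by
    intro s hs
    by_cases h : s ≤ T
    · have h1 : s = T := le_antisymm h hs.1
      rw [h1, hyT]
      exact if_pos le_rfl
    · exact if_neg h
  have hun : Set.Icc 0 T ∪ Set.Icc T T' = Set.Icc 0 T' := Set.Icc_union_Icc_eq_Icc hT0 hTT'
  refine ⟨x', ?_, ?_, ?_, ?_⟩
  · rw [← hun]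
    exact ((hxc.congr e1).union_of_isClosed (hyc.congr e2) isClosed_Icc isClosed_Icc)
  · rw [e1 ⟨le_rfl, hT0⟩, hx0]
  · intro s hs
    rw [← hun] at hs
    rcases hs with hs | hs
    · rw [e1 hs]
      exact hxp s hs
    · rw [e2 hs]
      exact (hy s hs).2.1
  · intro s hs
    rw [← hun] at hs
    rcases hs with hs | hs
    · rw [e1 hs]
      exact (hxφ s hs).trans hMβ.le
    · rw [e2 hs]
      obtain ⟨a1, a2, a3, a4⟩ := hy s hs
      have h1 := hφ (y s) a1 (x T) hzc (by linarith)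
      rw [Real.dist_eq, abs_lt] at h1
      have h2 := hxφ T hTm
      linarith

theorem barrier_of_center {H : ℝ → EuclideanSpace ℝ (Fin n) → EuclideanSpace ℝ (Fin n)}
    (hH : ExpandingHomotopy n H) (h0 : ∀ x ∈ cube n, H 0 x = x)
    {p : ℝ → EuclideanSpace ℝ (Fin n)} (hp : ContinuousOn p (Set.Icc 0 1)) (hp0 : p 0 = 0)
    {r : ℝ → ℝ} (hr : ∀ s ∈ Set.Icc (0 : ℝ) 1, ∀ y ∈ cube n, dist (H s y) (p s) ≤ r s)
    {ρ : ℝ} (hρ : ρ ^ 2 < n + 3) (hrρ : ∀ s ∈ Set.Icc (0 : ℝ) 1, r s ≤ ρ)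
    {s : ℝ} (hs : s ∈ Set.Icc (0 : ℝ) 1) : Real.sqrt n ≤ r s := by
  obtain ⟨M, hM⟩ : ∃ M : ℝ, M = max (ρ ^ 2 - n) 0 := ⟨_, rfl⟩
  have hM0 : 0 ≤ M := by
    rw [hM]
    exact le_max_right _ _
  have hM1 : ρ ^ 2 - n ≤ M := by
    rw [hM]
    exact le_max_left _ _
  have hM3 : M < 3 := by
    rw [hM]
    exact max_lt (by linarith) (by norm_num)
  obtain ⟨β, hMβ, hβ⟩ := exists_between hM3
  have hr0 : ∀ t ∈ Set.Icc (0 : ℝ) 1, 0 ≤ r t := fun t ht =>
    dist_nonneg.trans (hr t ht 0 zero_mem_cube)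
  -- the use of the claim
  have hcl : ∀ T, 0 ≤ T → T ≤ 1 → IsPath H p β T → IsPath H p M T := by
    rintro T hT0 hT1 ⟨x, hxc, hx0, hxp, hxφ⟩
    refine ⟨x, hxc, hx0, hxp, fun t ht => ?_⟩
    have h1 := claim hH h0 hp hp0 hr hρ hrρ ht.1 (ht.2.trans hT1)
      (hxc.mono (Set.Icc_subset_Icc le_rfl ht.2)) hx0
      (fun u hu => hxp u ⟨hu.1, hu.2.trans ht.2⟩) hβ
      (fun u hu => hxφ u ⟨hu.1, hu.2.trans ht.2⟩)
    rw [sum_eq_phi] at h1
    have htm : t ∈ Set.Icc (0 : ℝ) 1 := ⟨ht.1, ht.2.trans hT1⟩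
    have h2 : r t ^ 2 ≤ ρ ^ 2 := pow_le_pow_left₀ (hr0 t htm) (hrρ t htm) 2
    linarith
  obtain ⟨η, hη, hstep⟩ := step hH hp hM3 hMβ
  have hall : ∀ k : ℕ, ∀ T, 0 ≤ T → T ≤ 1 → T ≤ k * η → IsPath H p M T := by
    intro k
    induction k with
    | zero =>
      intro T hT0 hT1 hT
      have hT' : T = 0 := by
        rw [Nat.cast_zero, zero_mul] at hT
        exact le_antisymm hT hT0
      subst hT'
      have hz : ∀ s ∈ Set.Icc (0 : ℝ) 0, s = 0 := fun s hs => le_antisymm hs.2 hs.1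
      refine ⟨fun _ => 0, continuousOn_const, rfl, fun s hs => ?_, fun s hs => ?_⟩
      · rw [hz s hs, hp0]
        exact h0 0 zero_mem_cube
      · have h1 : phi (0 : EuclideanSpace ℝ (Fin n)) = 0 := by
          simp [phi]
        rw [h1]
        exact hM0
    | succ k ih =>
      intro T hT0 hT1 hT
      have hk : (0 : ℝ) ≤ k * η := by positivity
      rcases le_total T (k * η) with h | h
      · exact ih T hT0 hT1 h
      · refine hcl T hT0 hT1 (hstep (k * η) hk (h.trans hT1) (ih _ hk (h.trans hT1) le_rfl) T h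
          hT1 ?_)
        push_cast at hT
        linarith
  obtain ⟨k, hk⟩ := exists_nat_gt (1 / η)
  have hk1 : (1 : ℝ) ≤ k * η := by
    rw [div_lt_iff₀ hη] at hk
    exact hk.le
  obtain ⟨x, hxc, hx0, hxp, hxφ⟩ := hall k 1 zero_le_one le_rfl hk1
  have h1 := claim hH h0 hp hp0 hr hρ hrρ hs.1 hs.2
    (hxc.mono (Set.Icc_subset_Icc le_rfl hs.2)) hx0
    (fun u hu => hxp u ⟨hu.1, hu.2.trans hs.2⟩) hM3
    (fun u hu => hxφ u ⟨hu.1, hu.2.trans hs.2⟩)
  rw [sum_eq_phi] at h1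
  have h2 : 0 ≤ phi (x s) := by
    unfold phi
    exact Finset.sum_nonneg fun j _ => by positivity
  exact Real.sqrt_le_iff.2 ⟨hr0 s hs, by linarith⟩

end Pool.Agent.CubeM
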