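import Pool.Agent.CubeM.ClaimO
import Pool.Agent.CubeM.Path

/-!
# MP_c0b923_gt: the path above the centres, for homotopies which start at an odd map
-/

set_option autoImplicit false

open Metric

namespace Pool.Agent.CubeM

open Pool.Agent.Expand

variable {n : ℕ}

theorem barrier_of_centerO {H : ℝ → EuclideanSpace ℝ (Fin n) → EuclideanSpace ℝ (Fin n)}
    (hH : ExpandingHomotopy n H) (h0 : ∀ x ∈ cube n, H 0 (-x) = -H 0 x)
    {p : ℝ → EuclideanSpace ℝ (Fin n)} (hp : ContinuousOn p (Set.Icc 0 1)) (hp0 : p 0 = 0)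
    {r : ℝ → ℝ} (hr : ∀ s ∈ Set.Icc (0 : ℝ) 1, ∀ y ∈ cube n, dist (H s y) (p s) ≤ r s)
    {ρ : ℝ} (hρ : ρ ^ 2 < n + 3) (hrρ : ∀ s ∈ Set.Icc (0 : ℝ) 1, r s ≤ ρ)
    {s : ℝ} (hs : s ∈ Set.Icc (0 : ℝ) 1) : Real.sqrt n ≤ r s := by
  obtain ⟨M, hM⟩ : ∃ M : ℝ, M = max (ρ ^ 2 - n) 0 := ⟨_, rfl⟩
  have hM0 : 0 ≤ M := by
    rw [hM]
    exact le_max_right _ _
  have hM1 : ρ ^ 2 - n ≤ M := by
    rw [hM]
    exact le_max_left _ _
  have hM3 : M < 3 := by
    rw [hM]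
    exact max_lt (by linarith) (by norm_num)
  obtain ⟨β, hMβ, hβ⟩ := exists_between hM3
  have hr0 : ∀ t ∈ Set.Icc (0 : ℝ) 1, 0 ≤ r t := fun t ht =>
    dist_nonneg.trans (hr t ht 0 zero_mem_cube)
  -- the use of the claim
  have hcl : ∀ T, 0 ≤ T → T ≤ 1 → IsPath H p β T → IsPath H p M T := by
    rintro T hT0 hT1 ⟨x, hxc, hx0, hxp, hxφ⟩
    refine ⟨x, hxc, hx0, hxp, fun t ht => ?_⟩
    have h1 := claimO hH h0 hp hp0 hr hρ hrρ ht.1 (ht.2.trans hT1)
      (hxc.mono (Set.Icc_subset_Icc le_rfl ht.2)) hx0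
      (fun u hu => hxp u ⟨hu.1, hu.2.trans ht.2⟩) hβ
      (fun u hu => hxφ u ⟨hu.1, hu.2.trans ht.2⟩)
    rw [sum_eq_phi] at h1
    have htm : t ∈ Set.Icc (0 : ℝ) 1 := ⟨ht.1, ht.2.trans hT1⟩
    have h2 : r t ^ 2 ≤ ρ ^ 2 := pow_le_pow_left₀ (hr0 t htm) (hrρ t htm) 2
    linarith
  obtain ⟨η, hη, hstep⟩ := step hH hp hM3 hMβ
  have hall : ∀ k : ℕ, ∀ T, 0 ≤ T → T ≤ 1 → T ≤ k * η → IsPath H p M T := by
    intro k
    induction k with
    | zero =>
      intro T hT0 hT1 hT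
      have hT' : T = 0 := by
        rw [Nat.cast_zero, zero_mul] at hT
        exact le_antisymm hT hT0
      subst hT'
      have hz : ∀ s ∈ Set.Icc (0 : ℝ) 0, s = 0 := fun s hs => le_antisymm hs.2 hs.1
      refine ⟨fun _ => 0, continuousOn_const, rfl, fun s hs => ?_, fun s hs => ?_⟩
      · rw [hz s hs, hp0]
        have h1 := h0 0 zero_mem_cube
        rw [neg_zero] at h1
        have h4 : (2 : ℝ) • H 0 (0 : EuclideanSpace ℝ (Fin n)) = 0 := by
          rw [two_smul]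
          nth_rewrite 1 [h1]
          exact neg_add_cancel _
        exact (smul_eq_zero.1 h4).resolve_left two_ne_zero
      · have h1 : phi (0 : EuclideanSpace ℝ (Fin n)) = 0 := by
          simp [phi]
        rw [h1]
        exact hM0
    | succ k ih =>
      intro T hT0 hT1 hT
      have hk : (0 : ℝ) ≤ k * η := by positivity
      rcases le_total T (k * η) with h | h
      · exact ih T hT0 hT1 h
      · refine hcl T hT0 hT1 (hstep (k * η) hk (h.trans hT1) (ih _ hk (h.trans hT1) le_rfl) T h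
          hT1 ?_)
        push_cast at hT
        linarith
  obtain ⟨k, hk⟩ := exists_nat_gt (1 / η)
  have hk1 : (1 : ℝ) ≤ k * η := by
    rw [div_lt_iff₀ hη] at hk
    exact hk.le
  obtain ⟨x, hxc, hx0, hxp, hxφ⟩ := hall k 1 zero_le_one le_rfl hk1
  have h1 := claimO hH h0 hp hp0 hr hρ hrρ hs.1 hs.2
    (hxc.mono (Set.Icc_subset_Icc le_rfl hs.2)) hx0
    (fun u hu => hxp u ⟨hu.1, hu.2.trans hs.2⟩) hM3
    (fun u hu => hxφ u ⟨hu.1, hu.2.trans hs.2⟩)
  rw [sum_eq_phi] at h1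
  have h2 : 0 ≤ phi (x s) := by
    unfold phi
    exact Finset.sum_nonneg fun j _ => by positivity
  exact Real.sqrt_le_iff.2 ⟨hr0 s hs, by linarith⟩

end Pool.Agent.CubeM
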