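import Pool.Agent.CubeM.ClaimO
import Pool.Agent.CubeM.CenterO
import Pool.Agent.CubeM.PathO

/-!
# MP_c0b923_gt: the barrier theorem for homotopies starting at a centrally symmetric map

PROOF. `H s x - (1 / 2) v` starts at an odd map; `CenterO`, `PathO`.
-/

set_option autoImplicit false

open Metric

namespace Pool.Agent.CubeM

open Pool.Agent.Expand

variable {n : ℕ}

theorem barrierO {H : ℝ → EuclideanSpace ℝ (Fin n) → EuclideanSpace ℝ (Fin n)}
    (hH : ExpandingHomotopy n H) {v : EuclideanSpace ℝ (Fin n)}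
    (h0 : ∀ x ∈ cube n, H 0 (-x) + H 0 x = v)
    {q : ℝ → EuclideanSpace ℝ (Fin n)} {r : ℝ → ℝ}
    (hr : ∀ s ∈ Set.Icc (0 : ℝ) 1, Set.MapsTo (H s) (cube n) (closedBall (q s) (r s)))
    (hb : ∀ s ∈ Set.Icc (0 : ℝ) 1, r s < Real.sqrt (n + 3)) :
    ∀ s ∈ Set.Icc (0 : ℝ) 1, Real.sqrt n ≤ r s := by
  intro s hs
  have hH' : ExpandingHomotopy n fun s x => H s x - (1 / 2 : ℝ) • v := by
    obtain ⟨h1, δ, hδ, h2⟩ := hH
    refine ⟨h1.sub continuousOn_const, δ, hδ, fun s hs y hy z hz hyz => ?_⟩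
    rw [dist_sub_right]
    exact h2 s hs y hy z hz hyz
  have h0' : ∀ x ∈ cube n, H 0 (-x) - (1 / 2 : ℝ) • v = -(H 0 x - (1 / 2 : ℝ) • v) := by
    intro x hx
    rw [← h0 x hx]
    module
  obtain ⟨p, R, ρ, hp, hp0, hR, hRr, hρ, hRρ⟩ := exists_centerO hH' h0'
    (q := fun s => q s - (1 / 2 : ℝ) • v) (r := r) (fun s hs y hy => by
      rw [dist_sub_right]
      exact mem_closedBall.mp (hr s hs hy)) hb
  exact (barrier_of_centerO hH' h0' hp hp0 hR hρ hRρ hs).trans (hRr s hs)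

end Pool.Agent.CubeM
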