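import Mathlib
import Pool.Agent.Expand.Defs

/-!
# MP_c0b923_gt: expanding homotopies, definition
-/

set_option autoImplicit false

open Topology

namespace Pool.Agent.CubeM

/-- `H s`, `0 ≤ s ≤ 1`, is an expanding homotopy on `X`: it is continuous on `[0,1] × X`, and every
`(s₀, x)` in `[0,1] × X` has a neighbourhood `U` in `[0,1] × X` with
`dist y z ≤ dist (H s y) (H s z)` whenever `(s, y)` and `(s, z)` lie in `U`. -/
def IsExpandingHomotopyOn {α β : Type*} [PseudoMetricSpace α] [PseudoMetricSpace β]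
    (H : ℝ → α → β) (X : Set α) : Prop :=
  ContinuousOn (fun q : ℝ × α => H q.1 q.2) (Set.Icc (0 : ℝ) 1 ×ˢ X) ∧
    ∀ q ∈ Set.Icc (0 : ℝ) 1 ×ˢ X, ∃ U ∈ 𝓝[Set.Icc (0 : ℝ) 1 ×ˢ X] q,
      ∀ s y z, (s, y) ∈ U → (s, z) ∈ U → dist y z ≤ dist (H s y) (H s z)

end Pool.Agent.CubeM
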