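import Pool.Agent.CubeM.HDefs
import Pool.Agent.CubeM.FinalO

/-!
# MP_c0b923_gt: the barrier theorem for the local definition of expanding homotopies
-/

set_option autoImplicit false

open Metric Topology

namespace Pool.Agent.CubeM

open Pool.Agent.Expand

variable {n : ℕ}

theorem IsExpandingHomotopyOn.uniform
    {H : ℝ → EuclideanSpace ℝ (Fin n) → EuclideanSpace ℝ (Fin n)}
    (h : IsExpandingHomotopyOn H (cube n)) : ExpandingHomotopy n H := by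
  refine ⟨h.1, ?_⟩
  have hK : IsCompact (Set.Icc (0 : ℝ) 1 ×ˢ cube n) := isCompact_Icc.prod (isCompact_cubeS 1)
  have h1 : ∀ q : (Set.Icc (0 : ℝ) 1 ×ˢ cube n : Set (ℝ × EuclideanSpace ℝ (Fin n))),
      ∃ ε > 0, ∀ s y z, (s, y) ∈ ball q.1 ε ∩ Set.Icc (0 : ℝ) 1 ×ˢ cube n →
        (s, z) ∈ ball q.1 ε ∩ Set.Icc (0 : ℝ) 1 ×ˢ cube n →
        dist y z ≤ dist (H s y) (H s z) := by
    rintro ⟨q, hq⟩
    obtain ⟨U, hU, hUe⟩ := h.2 q hq
    obtain ⟨ε, hε, hεU⟩ := Metric.mem_nhdsWithin_iff.mp hU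
    exact ⟨ε, hε, fun s y z hy hz => hUe s y z (hεU hy) (hεU hz)⟩
  choose ε hε hεe using h1
  obtain ⟨δ, hδ, hδb⟩ := lebesgue_number_lemma_of_metric
    (c := fun q : (Set.Icc (0 : ℝ) 1 ×ˢ cube n : Set (ℝ × EuclideanSpace ℝ (Fin n))) =>
      ball q.1 (ε q)) hK
    (fun x => isOpen_ball) (fun x hx => Set.mem_iUnion.mpr ⟨⟨x, hx⟩, mem_ball_self (hε _)⟩)
  refine ⟨δ, hδ, ?_⟩
  intro s hs y hy z hz hyz
  obtain ⟨q, hq⟩ := hδb (s, y) ⟨hs, hy⟩
  refine hεe q s y z ⟨hq (mem_ball_self hδ), hs, hy⟩ ⟨hq ?_, hs, hz⟩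
  rw [mem_ball, Prod.dist_eq, dist_self, max_eq_right dist_nonneg, dist_comm]
  exact hyz

/-- The constant homotopy of an expanding map. -/
theorem IsExpandingHomotopyOn.const
    {f : EuclideanSpace ℝ (Fin n) → EuclideanSpace ℝ (Fin n)}
    (hf : IsExpandingOn f (cube n)) : IsExpandingHomotopyOn (fun _ => f) (cube n) := by
  refine ⟨hf.1.comp continuous_snd.continuousOn fun q hq => hq.2, ?_⟩
  rintro ⟨s, x⟩ ⟨hs, hx⟩
  obtain ⟨U, hU, hUe⟩ := hf.2 x hx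
  refine ⟨Set.Icc (0 : ℝ) 1 ×ˢ U, ?_, fun s y z hy hz => hUe y hy.2 z hz.2⟩
  rw [nhdsWithin_prod_eq]
  exact Filter.prod_mem_prod self_mem_nhdsWithin hU

theorem barrierL {H : ℝ → EuclideanSpace ℝ (Fin n) → EuclideanSpace ℝ (Fin n)}
    (hH : IsExpandingHomotopyOn H (cube n)) {v : EuclideanSpace ℝ (Fin n)}
    (h0 : ∀ x ∈ cube n, H 0 (-x) + H 0 x = v)
    {p : ℝ → EuclideanSpace ℝ (Fin n)} {r : ℝ → ℝ}
    (hr : ∀ s ∈ Set.Icc (0 : ℝ) 1, Set.MapsTo (H s) (cube n) (closedBall (p s) (r s)))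
    (hb : ∀ s ∈ Set.Icc (0 : ℝ) 1, r s < Real.sqrt (n + 3)) :
    ∀ s ∈ Set.Icc (0 : ℝ) 1, Real.sqrt n ≤ r s :=
  barrierO hH.uniform h0 hr hb

/-- The theorem on centrally symmetric maps is the case of constant homotopies. -/
theorem oddMaps_of_barrier {f : EuclideanSpace ℝ (Fin n) → EuclideanSpace ℝ (Fin n)}
    (hf : IsExpandingOn f (cube n)) {v : EuclideanSpace ℝ (Fin n)}
    (h0 : ∀ x ∈ cube n, f (-x) + f x = v) {p : EuclideanSpace ℝ (Fin n)} {r : ℝ}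
    (hr : Set.MapsTo f (cube n) (closedBall p r)) : Real.sqrt n ≤ r := by
  rcases lt_or_ge r (Real.sqrt (n + 3)) with h | h
  · exact barrierL (IsExpandingHomotopyOn.const hf) h0 (p := fun _ => p) (r := fun _ => r)
      (fun _ _ => hr) (fun _ _ => h) 0 ⟨le_refl _, zero_le_one⟩
  · exact (Real.sqrt_le_sqrt (by linarith)).trans h

end Pool.Agent.CubeM
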