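import Pool.Agent.CubeM.Defs
import Pool.Agent.CubeE.Chain
import Pool.Agent.Expand.Main

/-!
# MP_c0b923_gt: chains depending on a parameter
-/

set_option autoImplicit false

open Metric

namespace Pool.Agent.CubeM

open Pool.Agent.Expand Pool.Agent.CubeE

variable {n : ℕ}

/-- Standing assumptions for a family. -/
structure PHyp (G : ℝ → EuclideanSpace ℝ (Fin n) → EuclideanSpace ℝ (Fin n))
    (x : ℝ → EuclideanSpace ℝ (Fin n)) (N : ℕ) (a δ r : ℝ) : Prop where
  hyp : ∀ σ, Hyp (G σ) N a δ r 0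
  cont : ContinuousOn (fun q : ℝ × EuclideanSpace ℝ (Fin n) => G q.1 q.2)
    (Set.univ ×ˢ cube n)
  hx : Continuous x
  hxa : ∀ σ i, |x σ i| < a

variable {G : ℝ → EuclideanSpace ℝ (Fin n) → EuclideanSpace ℝ (Fin n)}
  {x : ℝ → EuclideanSpace ℝ (Fin n)} {N : ℕ} {a δ r S : ℝ}

/-- visible points of the closed cube -/
def PE (G : ℝ → EuclideanSpace ℝ (Fin n) → EuclideanSpace ℝ (Fin n))
    (x : ℝ → EuclideanSpace ℝ (Fin n)) (N : ℕ) (a S : ℝ) :
    Set (ℝ × EuclideanSpace ℝ (Fin n)) :=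
  {q | |q.1| ≤ S ∧ (x q.1, q.2) ∈ EE (G q.1) N a}

/-- visible points of the open cube -/
def PE0 (G : ℝ → EuclideanSpace ℝ (Fin n) → EuclideanSpace ℝ (Fin n))
    (x : ℝ → EuclideanSpace ℝ (Fin n)) (N : ℕ) (a : ℝ) :
    Set (ℝ × EuclideanSpace ℝ (Fin n)) :=
  {q | (x q.1, q.2) ∈ EE0 (G q.1) N a}

/-- the chain -/
noncomputable def pch (G : ℝ → EuclideanSpace ℝ (Fin n) → EuclideanSpace ℝ (Fin n))
    (x : ℝ → EuclideanSpace ℝ (Fin n)) (N : ℕ) (a : ℝ) (q : ℝ × EuclideanSpace ℝ (Fin n)) :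
    Fin (N + 1) → EuclideanSpace ℝ (Fin n) :=
  ch (G q.1) N a (x q.1, q.2)

/-- all data -/
private def KS (G : ℝ → EuclideanSpace ℝ (Fin n) → EuclideanSpace ℝ (Fin n))
    (x : ℝ → EuclideanSpace ℝ (Fin n)) (N : ℕ) (a S : ℝ) :
    Set ((ℝ × EuclideanSpace ℝ (Fin n)) × (Fin (N + 1) → EuclideanSpace ℝ (Fin n))) :=
  {p | |p.1.1| ≤ S ∧ IsChain (G p.1.1) N a (x p.1.1) p.1.2 p.2}

private def QS (n : ℕ) (a : ℝ) : Set (EuclideanSpace ℝ (Fin n)) := {x | ∀ i, |x i| ≤ a}

private def PS (n N : ℕ) (a S : ℝ) :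
    Set ((ℝ × EuclideanSpace ℝ (Fin n)) × (Fin (N + 1) → EuclideanSpace ℝ (Fin n))) :=
  (Set.Icc (-S) S ×ˢ QS n a) ×ˢ Set.univ.pi fun _ => QS n a

private theorem isCompact_PS (N : ℕ) (a S : ℝ) : IsCompact (PS n N a S) :=
  (isCompact_Icc.prod (isCompact_cubeS a)).prod (isCompact_univ_pi fun _ => isCompact_cubeS a)

private theorem closed_eq' {A B : Type*} [TopologicalSpace A] [MetricSpace B] {P : Set A}
    (hP : IsClosed P) {F G : A → B} (hF : ContinuousOn F P) (hG : ContinuousOn G P) :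
    IsClosed {p | p ∈ P ∧ F p = G p} := by
  have h1 := hP.isClosed_le (continuous_dist.comp_continuousOn (hF.prodMk hG))
    (continuousOn_const (c := (0 : ℝ)))
  convert h1 using 1
  ext p
  exact and_congr Iff.rfl dist_le_zero.symm

private theorem closed_dist' {A B : Type*} [TopologicalSpace A] [MetricSpace B] {P : Set A}
    (hP : IsClosed P) {F G F' G' : A → B} (hF : ContinuousOn F P) (hG : ContinuousOn G P)
    (hF' : ContinuousOn F' P) (hG' : ContinuousOn G' P) :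
    IsClosed {p | p ∈ P ∧ dist (F p) (G p) ≤ dist (F' p) (G' p)} :=
  hP.isClosed_le (continuous_dist.comp_continuousOn (hF.prodMk hG))
    (continuous_dist.comp_continuousOn (hF'.prodMk hG'))

private theorem mem_cube_of_QS (H : PHyp G x N a δ r) {y : EuclideanSpace ℝ (Fin n)}
    (hy : y ∈ QS n a) : y ∈ cube n := fun i => (hy i).trans (H.hyp 0).ha1.le

private theorem isCompact_KS (H : PHyp G x N a δ r) : IsCompact (KS G x N a S) := by
  have hPcl : IsClosed (PS n N a S) := (isCompact_PS N a S).isClosed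
  have cx : ContinuousOn (fun p : (ℝ × EuclideanSpace ℝ (Fin n)) ×
      (Fin (N + 1) → EuclideanSpace ℝ (Fin n)) => x p.1.1) (PS n N a S) :=
    (H.hx.comp (continuous_fst.comp continuous_fst)).continuousOn
  have cy : ContinuousOn (fun p : (ℝ × EuclideanSpace ℝ (Fin n)) ×
      (Fin (N + 1) → EuclideanSpace ℝ (Fin n)) => p.1.2) (PS n N a S) :=
    (continuous_snd.comp continuous_fst).continuousOn
  have cw : ∀ s : Fin (N + 1), ContinuousOn (fun p : (ℝ × EuclideanSpace ℝ (Fin n)) ×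
      (Fin (N + 1) → EuclideanSpace ℝ (Fin n)) => p.2 s) (PS n N a S) := fun s =>
    ((continuous_apply s).comp continuous_snd).continuousOn
  have ct : ContinuousOn (fun p : (ℝ × EuclideanSpace ℝ (Fin n)) ×
      (Fin (N + 1) → EuclideanSpace ℝ (Fin n)) => p.1.1) (PS n N a S) :=
    (continuous_fst.comp continuous_fst).continuousOn
  have cG : ∀ g : (ℝ × EuclideanSpace ℝ (Fin n)) × (Fin (N + 1) → EuclideanSpace ℝ (Fin n)) →
      EuclideanSpace ℝ (Fin n), ContinuousOn g (PS n N a S) →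
      (∀ p ∈ PS n N a S, g p ∈ cube n) →
      ContinuousOn (fun p => G p.1.1 (g p)) (PS n N a S) := by
    intro g hg hgc
    exact H.cont.comp (ct.prodMk hg) fun p hp => ⟨trivial, hgc p hp⟩
  have cGx := cG _ cx fun p _ i => ((H.hxa _ i).trans (H.hyp 0).ha1).le
  have cGy := cG _ cy fun p hp => mem_cube_of_QS H hp.1.2
  have cGw : ∀ s : Fin (N + 1), _ := fun s =>
    cG _ (cw s) fun p hp => mem_cube_of_QS H (hp.2 s trivial)
  have h1 := closed_eq' hPcl (cw 0) cx
  have h2 := closed_eq' hPcl (cw (Fin.last N)) cy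
  have h3 := isClosed_iInter fun s : Fin (N + 1) => closed_eq' hPcl (cGw s)
    (cGx.add ((cGy.sub cGx).const_smul ((s : ℕ) / N : ℝ)))
  have h4 := hPcl.inter (isClosed_iInter fun s : Fin N => closed_dist' hPcl
    (cw s.succ) (cw s.castSucc) (cGw s.succ) (cGw s.castSucc))
  have hsub : ∀ p ∈ KS G x N a S, p ∈ PS n N a S := by
    rintro p ⟨k0, k1, k2, k3, -, -⟩
    exact ⟨⟨abs_le.mp k0, by rw [← k2]; exact k3 _⟩, fun s _ => k3 s⟩
  refine (isCompact_PS N a S).of_isClosed_subset ?_ hsub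
  have h5 := ((h1.inter h2).inter h3).inter h4
  convert h5 using 1
  ext p
  constructor
  · intro hp
    have hp' := hsub p hp
    obtain ⟨k0, k1, k2, k3, k4, k5⟩ := hp
    exact ⟨⟨⟨⟨hp', k1⟩, hp', k2⟩, Set.mem_iInter.mpr fun s => ⟨hp', k4 s⟩⟩, hp',
      Set.mem_iInter.mpr fun s => ⟨hp', k5 s⟩⟩
  · rintro ⟨⟨⟨⟨hp, k1⟩, _, k2⟩, k4⟩, _, k5⟩
    rw [Set.mem_iInter] at k4 k5
    exact ⟨abs_le.mpr hp.1.1, k1, k2, fun s => hp.2 s trivial, fun s => (k4 s).2,
      fun s => (k5 s).2⟩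

theorem isCompact_PE (H : PHyp G x N a δ r) : IsCompact (PE G x N a S) := by
  have h1 := (isCompact_KS (S := S) H).image continuous_fst
  convert h1 using 1
  ext z
  constructor
  · rintro ⟨h0, w, hw⟩
    exact ⟨(z, w), ⟨h0, hw⟩, rfl⟩
  · rintro ⟨p, hp, rfl⟩
    exact ⟨hp.1, p.2, hp.2⟩

theorem continuousOn_pch (H : PHyp G x N a δ r) :
    ContinuousOn (pch G x N a) (PE G x N a S) := by
  rw [continuousOn_iff_isClosed]
  intro t ht
  refine ⟨Prod.fst '' (KS G x N a S ∩ Prod.snd ⁻¹' t),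
    (((isCompact_KS H).inter_right (ht.preimage continuous_snd)).image
      continuous_fst).isClosed, ?_⟩
  ext z
  constructor
  · rintro ⟨h1, h2⟩
    exact ⟨⟨(z, pch G x N a z), ⟨⟨h2.1, isChain_ch h2.2⟩, h1⟩, rfl⟩, h2⟩
  · rintro ⟨⟨p, ⟨h1, h2⟩, rfl⟩, h3⟩
    refine ⟨?_, h3⟩
    have h4 : pch G x N a p.1 = p.2 := chain_unique (H.hyp _) (isChain_ch h3.2) h1.2
    rw [Set.mem_preimage, h4]
    exact h2

theorem isOpen_PE0 (H : PHyp G x N a δ r) : IsOpen (PE0 G x N a) := by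
  rw [isOpen_iff_mem_nhds]
  rintro ⟨σ, x'⟩ ⟨w, hw, hwa⟩
  simp only at hw
  have Hσ := H.hyp σ
  have hN : (0 : ℝ) < N := Nat.cast_pos.mpr Hσ.hN0
  obtain ⟨η, hη0, hηδ, hη⟩ : ∃ η > 0, η < δ / 4 ∧ ∀ s i, |w s i| + η < a := by
    have h1 : ∀ᶠ η in nhdsWithin (0 : ℝ) (Set.Ioi 0), ∀ s i, |w s i| + η < a := by
      rw [Filter.eventually_all]
      intro s
      rw [Filter.eventually_all]
      intro i
      have h2 : Filter.Tendsto (fun η : ℝ => |w s i| + η) (nhdsWithin (0 : ℝ) (Set.Ioi 0))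
          (nhds (|w s i| + 0)) := by
        refine Filter.Tendsto.mono_left ?_ nhdsWithin_le_nhds
        exact (continuous_const.add continuous_id).tendsto 0
      rw [add_zero] at h2
      exact h2.eventually (gt_mem_nhds (hwa s i))
    have h3 : ∀ᶠ η in nhdsWithin (0 : ℝ) (Set.Ioi 0), η < δ / 4 :=
      nhdsWithin_le_nhds (gt_mem_nhds (by have := Hσ.hδ; linarith))
    obtain ⟨η, ⟨h4, h5⟩, h6⟩ := ((h1.and h3).and self_mem_nhdsWithin).exists
    exact ⟨η, h6, h5, h4⟩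
  have hcube : ∀ y : EuclideanSpace ℝ (Fin n), (∀ i, |y i| < a) → cube n ∈ nhds y := by
    intro y hy
    have h1 : ∀ᶠ z : EuclideanSpace ℝ (Fin n) in nhds y, ∀ i, |z i| < 1 := by
      rw [Filter.eventually_all]
      intro i
      have h2 : Continuous fun z : EuclideanSpace ℝ (Fin n) => |z i| := by fun_prop
      exact h2.continuousAt.eventually (gt_mem_nhds ((hy i).trans Hσ.ha1))
    filter_upwards [h1] with z hz i
    exact (hz i).le
  have hGat : ∀ y : EuclideanSpace ℝ (Fin n), (∀ i, |y i| < a) →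
      ContinuousAt (fun q : ℝ × EuclideanSpace ℝ (Fin n) => G q.1 q.2) (σ, y) := fun y hy =>
    H.cont.continuousAt (by
      rw [nhds_prod_eq]
      exact Filter.prod_mem_prod Filter.univ_mem (hcube y hy))
  have hη3 : 0 < η / 3 := by linarith
  -- the three smallness conditions
  have e1 : ∀ᶠ q : ℝ × EuclideanSpace ℝ (Fin n) in nhds (σ, x'),
      dist (G q.1 q.2) (G σ x') < η / 3 :=
    (hGat x' (by rw [← hw.2.1]; exact hwa _)).eventually (Metric.ball_mem_nhds _ hη3)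
  have hx' : Filter.Tendsto (fun q : ℝ × EuclideanSpace ℝ (Fin n) => (q.1, x q.1))
      (nhds (σ, x')) (nhds (σ, x σ)) :=
    (continuous_fst.prodMk (H.hx.comp continuous_fst)).tendsto _
  have e2 : ∀ᶠ q : ℝ × EuclideanSpace ℝ (Fin n) in nhds (σ, x'),
      dist (G q.1 (x q.1)) (G σ (x σ)) < η / 3 :=
    ((hGat (x σ) (H.hxa σ)).tendsto.comp hx').eventually (Metric.ball_mem_nhds _ hη3)
  have e3 : ∀ᶠ q : ℝ × EuclideanSpace ℝ (Fin n) in nhds (σ, x'), ∀ s : Fin (N + 1),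
      dist (G q.1 (w s)) (G σ (w s)) < η / 3 := by
    rw [Filter.eventually_all]
    intro s
    have h1 : Filter.Tendsto (fun q : ℝ × EuclideanSpace ℝ (Fin n) => (q.1, w s))
        (nhds (σ, x')) (nhds (σ, w s)) :=
      (continuous_fst.prodMk continuous_const).tendsto _
    exact ((hGat (w s) (hwa s)).tendsto.comp h1).eventually (Metric.ball_mem_nhds _ hη3)
  have e4 : ∀ᶠ q : ℝ × EuclideanSpace ℝ (Fin n) in nhds (σ, x'), dist (x q.1) (x σ) < η :=
    ((H.hx.comp continuous_fst).tendsto (σ, x')).eventually (Metric.ball_mem_nhds _ hη0)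
  have e5 : ∀ᶠ q : ℝ × EuclideanSpace ℝ (Fin n) in nhds (σ, x'), dist q.2 x' < η :=
    (continuous_snd.tendsto (σ, x')).eventually (Metric.ball_mem_nhds _ hη0)
  have e6 : ∀ᶠ q : ℝ × EuclideanSpace ℝ (Fin n) in nhds (σ, x'), q.2 ∈ cube n :=
    (continuous_snd.tendsto (σ, x')).eventually (hcube x' (by rw [← hw.2.1]; exact hwa _))
  filter_upwards [e1, e2, e3, e4, e5, e6] with q f1 f2 f3 f4 f5 f6
  have Hq := H.hyp q.1
  have hδη : η < δ := by have := Hσ.hδ; linarith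
  have hxq : x q.1 ∈ cube n := fun i => ((H.hxa _ i).trans Hσ.ha1).le
  have hd : ∀ s : Fin (N + 1), dist (G q.1 (x q.1) + ((s : ℕ) / N : ℝ) •
      (G q.1 q.2 - G q.1 (x q.1))) (G q.1 (w s)) < η := by
    intro s
    have hs1 : (0 : ℝ) ≤ (s : ℕ) / N := by positivity
    have hs2 : ((s : ℕ) / N : ℝ) ≤ 1 := by
      rw [div_le_one hN]
      exact_mod_cast Nat.lt_succ_iff.mp s.2
    have h0 : dist (G q.1 (x q.1) + ((s : ℕ) / N : ℝ) • (G q.1 q.2 - G q.1 (x q.1)))
        (G σ (w s)) ≤ 2 * (η / 3) := by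
      rw [hw.2.2.2.1 s, dist_eq_norm]
      have h1 : G q.1 (x q.1) + ((s : ℕ) / N : ℝ) • (G q.1 q.2 - G q.1 (x q.1)) -
          (G σ (x σ) + ((s : ℕ) / N : ℝ) • (G σ x' - G σ (x σ))) =
          (1 - (s : ℕ) / N : ℝ) • (G q.1 (x q.1) - G σ (x σ)) +
            ((s : ℕ) / N : ℝ) • (G q.1 q.2 - G σ x') := by
        module
      rw [h1]
      refine (norm_add_le _ _).trans ?_
      rw [norm_smul, norm_smul, Real.norm_eq_abs, Real.norm_eq_abs, abs_of_nonneg hs1,
        abs_of_nonneg (sub_nonneg.mpr hs2), ← dist_eq_norm, ← dist_eq_norm]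
      have h2 : ((s : ℕ) / N : ℝ) * dist (G q.1 q.2) (G σ x') ≤ 1 * (η / 3) :=
        mul_le_mul hs2 f1.le dist_nonneg zero_le_one
      have h3 : (1 - (s : ℕ) / N : ℝ) * dist (G q.1 (x q.1)) (G σ (x σ)) ≤ 1 * (η / 3) :=
        mul_le_mul (by linarith) f2.le dist_nonneg zero_le_one
      linarith
    have h4 := f3 s
    have h5 := dist_triangle_right (G q.1 (x q.1) + ((s : ℕ) / N : ℝ) •
      (G q.1 q.2 - G q.1 (x q.1))) (G q.1 (w s)) (G σ (w s))
    linarith
  choose w' hw'1 hw'2 hw'3 using fun s => Hq.hinv (w s) (fun i => (hwa s i).le) _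
    ((hd s).trans hδη)
  have hd' : ∀ s, dist (w' s) (w s) < η := fun s => (hw'3 s).trans_lt (hd s)
  refine ⟨w', ⟨?_, ?_, ?_, hw'2, ?_⟩, ?_⟩
  · have h1 : dist (w' 0) (x q.1) < δ := by
      have h2 := hd' 0
      rw [hw.1] at h2
      exact (dist_triangle_right _ _ (x σ)).trans_lt (by linarith [Hσ.hδ])
    have h2 := Hq.hloc _ (hw'1 0) _ hxq h1
    rw [hw'2 0] at h2
    simp only [Fin.val_zero, Nat.cast_zero, zero_div, zero_smul, add_zero, dist_self] at h2
    exact dist_le_zero.mp h2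
  · have h1 : dist (w' (Fin.last N)) q.2 < δ := by
      have h2 := hd' (Fin.last N)
      rw [hw.2.1] at h2
      exact (dist_triangle_right _ _ x').trans_lt (by linarith [Hσ.hδ])
    have h2 := Hq.hloc _ (hw'1 (Fin.last N)) _ f6 h1
    rw [hw'2 (Fin.last N)] at h2
    simp only [Fin.val_last, div_self hN.ne', one_smul, add_sub_cancel, dist_self] at h2
    exact dist_le_zero.mp h2
  · intro s i
    have h1 : |w' s i - w s i| ≤ dist (w' s) (w s) := by
      have := PiLp.norm_apply_le (w' s - w s) i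
      rwa [← dist_eq_norm] at this
    have h2 := hη s i
    have h3 := hd' s
    have h4 : |w' s i| ≤ |w s i| + |w' s i - w s i| := by
      have := abs_add_le (w s i) (w' s i - w s i)
      rwa [add_sub_cancel] at this
    linarith
  · intro s
    refine Hq.hloc _ (hw'1 _) _ (hw'1 _) ?_
    have h1 := chain_step Hσ hw s
    have h2 := hd' s.succ
    have h3 := hd' s.castSucc
    have h4 := dist_triangle4 (w' s.succ) (w s.succ) (w s.castSucc) (w' s.castSucc)
    rw [dist_comm (w s.castSucc)] at h4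
    linarith
  · intro s i
    have h1 : |w' s i - w s i| ≤ dist (w' s) (w s) := by
      have := PiLp.norm_apply_le (w' s - w s) i
      rwa [← dist_eq_norm] at this
    have h2 := hη s i
    have h3 := hd' s
    have h4 : |w' s i| ≤ |w s i| + |w' s i - w s i| := by
      have := abs_add_le (w s i) (w' s i - w s i)
      rwa [add_sub_cancel] at this
    linarith

end Pool.Agent.CubeM
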