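import Pool.Agent.CubeM.FinalO
import Pool.Agent.Expand.Main
import Pool.Agent.Expand.Open

/-!
# MP_c0b923_gt: the scaling homotopy

For an expanding map `f` of the cube and a point `z` of the cube where `f` is differentiable, with
derivative `A`, put `H s x = (f ((1 - s) z + s x) - f z) / s` for `0 < s ≤ 1` and
`H 0 x = A (x - z)`. This is a homotopy of expanding maps which starts at a centrally symmetric
map, so `barrierO` applies.
-/

set_option autoImplicit false

open Metric Filter Topology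

namespace Pool.Agent.CubeM

open Pool.Agent.Expand

variable {n : ℕ}

/-- the homothety with centre `z` -/
private theorem scale_mem {z x : EuclideanSpace ℝ (Fin n)} (hz : z ∈ cube n) (hx : x ∈ cube n)
    {s : ℝ} (h0 : 0 ≤ s) (h1 : s ≤ 1) : (1 - s) • z + s • x ∈ cube n := by
  intro i
  have e : ((1 - s) • z + s • x) i = (1 - s) * z i + s * x i := by simp
  rw [e]
  calc |(1 - s) * z i + s * x i| ≤ |(1 - s) * z i| + |s * x i| := abs_add_le _ _
    _ = (1 - s) * |z i| + s * |x i| := by
      rw [abs_mul, abs_mul, abs_of_nonneg h0, abs_of_nonneg (by linarith : 0 ≤ 1 - s)]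
    _ ≤ (1 - s) * 1 + s * 1 := by
      have := mul_le_mul_of_nonneg_left (hz i) (by linarith : 0 ≤ 1 - s)
      have := mul_le_mul_of_nonneg_left (hx i) h0
      linarith
    _ = 1 := by ring

private theorem scale_sub (z x : EuclideanSpace ℝ (Fin n)) (s : ℝ) :
    (1 - s) • z + s • x - z = s • (x - z) := by
  module

private theorem norm_le_cube {x : EuclideanSpace ℝ (Fin n)} (hx : x ∈ cube n) :
    ‖x‖ ≤ Real.sqrt n := by
  have h := norm_sq_le_of_coord x 1 hx
  apply Real.le_sqrt_of_sq_le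
  simpa using h

/-- differentiability at `z`, uniformly on the cube -/
private theorem scale_diff {f : EuclideanSpace ℝ (Fin n) → EuclideanSpace ℝ (Fin n)}
    {z : EuclideanSpace ℝ (Fin n)} (hz : z ∈ cube n)
    {A : EuclideanSpace ℝ (Fin n) →L[ℝ] EuclideanSpace ℝ (Fin n)}
    (hA : HasFDerivWithinAt f A (cube n) z) {ε : ℝ} (hε : 0 < ε) :
    ∃ η : ℝ, 0 < η ∧ η ≤ 1 ∧ ∀ s : ℝ, 0 < s → s < η → ∀ x ∈ cube n,
      ‖s⁻¹ • (f ((1 - s) • z + s • x) - f z) - A (x - z)‖ ≤ ε := by
  obtain ⟨D, hD, hDx⟩ : ∃ D : ℝ, 0 < D ∧ ∀ x ∈ cube n, ‖x - z‖ ≤ D := by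
    refine ⟨2 * Real.sqrt n + 1, by positivity, fun x hx => ?_⟩
    have h1 := norm_sub_le x z
    have h2 := norm_le_cube hx
    have h3 := norm_le_cube hz
    linarith
  have h1 := (hasFDerivWithinAt_iff_isLittleO.1 hA).def (div_pos hε hD)
  rw [eventually_nhdsWithin_iff, Metric.eventually_nhds_iff] at h1
  obtain ⟨η, hη, h⟩ := h1
  refine ⟨min 1 (η / D), lt_min one_pos (div_pos hη hD), min_le_left _ _,
    fun s hs0 hs x hx => ?_⟩
  have hs1 : s ≤ 1 := (hs.trans_le (min_le_left _ _)).le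
  have hs2 : s < η / D := hs.trans_le (min_le_right _ _)
  rw [lt_div_iff₀ hD] at hs2
  have e1 : dist ((1 - s) • z + s • x) z < η := by
    rw [dist_eq_norm, scale_sub, norm_smul, Real.norm_of_nonneg hs0.le]
    exact (mul_le_mul_of_nonneg_left (hDx x hx) hs0.le).trans_lt hs2
  have h2 := h e1 (scale_mem hz hx hs0.le hs1)
  rw [scale_sub, map_smul] at h2
  have e2 : s⁻¹ • (f ((1 - s) • z + s • x) - f z) - A (x - z) =
      s⁻¹ • (f ((1 - s) • z + s • x) - f z - s • A (x - z)) := by
    rw [smul_sub s⁻¹ (f ((1 - s) • z + s • x) - f z), smul_smul, inv_mul_cancel₀ hs0.ne',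
      one_smul]
  rw [e2, norm_smul, norm_inv, Real.norm_of_nonneg hs0.le]
  calc s⁻¹ * ‖f ((1 - s) • z + s • x) - f z - s • A (x - z)‖
      ≤ s⁻¹ * (ε / D * ‖s • (x - z)‖) := mul_le_mul_of_nonneg_left h2 (by positivity)
    _ = ε / D * ‖x - z‖ := by
      rw [norm_smul, Real.norm_of_nonneg hs0.le]
      field_simp
    _ ≤ ε / D * D := mul_le_mul_of_nonneg_left (hDx x hx) (by positivity)
    _ = ε := div_mul_cancel₀ _ hD.ne'

/-- **The scale criterion.** -/
theorem scale {f : EuclideanSpace ℝ (Fin n) → EuclideanSpace ℝ (Fin n)}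
    (hf : IsExpandingOn f (cube n)) {z : EuclideanSpace ℝ (Fin n)} (hz : z ∈ cube n)
    (hA : DifferentiableWithinAt ℝ f (cube n) z) {ρ : ℝ} (hρ : ρ ^ 2 < n + 3)
    (hball : ∀ s : ℝ, 0 < s → s ≤ 1 → ∃ q : EuclideanSpace ℝ (Fin n),
      ∀ x ∈ cube n, f ((1 - s) • z + s • x) ∈ closedBall q (s * ρ))
    {q : EuclideanSpace ℝ (Fin n)} {r : ℝ} (h : Set.MapsTo f (cube n) (closedBall q r)) :
    Real.sqrt n ≤ r := by
  classical
  by_contra hcon
  rw [not_le] at hcon
  obtain ⟨A, hA⟩ := hA
  obtain ⟨δ0, hδ0, huni⟩ := exists_uniform (isCompact_cubeS 1) hf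
  have hρ0 : 0 ≤ ρ := by
    obtain ⟨q1, hq1⟩ := hball 1 one_pos le_rfl
    have h1 := hq1 0 zero_mem_cube
    rw [mem_closedBall, one_mul] at h1
    exact dist_nonneg.trans h1
  obtain ⟨ε, hε, hρε⟩ : ∃ ε : ℝ, 0 < ε ∧ ρ + ε < Real.sqrt (n + 3) := by
    have h1 : ρ < Real.sqrt (n + 3) := Real.lt_sqrt_of_sq_lt hρ
    exact ⟨(Real.sqrt (n + 3) - ρ) / 2, by linarith, by linarith⟩
  -- the homotopy
  obtain ⟨H, hH0, hHs⟩ : ∃ H : ℝ → EuclideanSpace ℝ (Fin n) → EuclideanSpace ℝ (Fin n),
      (∀ x, H 0 x = A (x - z)) ∧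
      ∀ s, s ≠ 0 → ∀ x, H s x = s⁻¹ • (f ((1 - s) • z + s • x) - f z) :=
    ⟨fun s x => if s = 0 then A (x - z) else s⁻¹ • (f ((1 - s) • z + s • x) - f z),
      fun x => if_pos rfl, fun s hs x => if_neg hs⟩
  have hclose : ∀ ε' : ℝ, 0 < ε' → ∃ η : ℝ, 0 < η ∧ η ≤ 1 ∧ ∀ s : ℝ, 0 < s → s < η →
      ∀ x ∈ cube n,
      ‖H s x - H 0 x‖ ≤ ε' := by
    intro ε' hε'
    obtain ⟨η, hη, hη1, h1⟩ := scale_diff hz hA hε'
    refine ⟨η, hη, hη1, fun s hs0 hs x hx => ?_⟩
    rw [hH0, hHs s hs0.ne']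
    exact h1 s hs0 hs x hx
  have hexp : ExpandingHomotopy n H := by
    refine ⟨?_, δ0, hδ0, ?_⟩
    · rintro ⟨s, x⟩ ⟨hs, hx⟩
      rcases hs.1.eq_or_lt with h0 | h0
      · -- the time `0`
        subst h0
        rw [Metric.continuousWithinAt_iff]
        intro ε' hε'
        obtain ⟨η, hη, -, h1⟩ := hclose (ε' / 2) (half_pos hε')
        have hAc : Continuous fun y => A (y - z) := by fun_prop
        obtain ⟨ν, hν, h2⟩ := Metric.continuousAt_iff.1 (hAc.continuousAt (x := x)) (ε' / 2)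
          (half_pos hε')
        refine ⟨min η ν, lt_min hη hν, ?_⟩
        rintro ⟨t, y⟩ ⟨ht, hy⟩ hty
        rw [Prod.dist_eq, max_lt_iff] at hty
        have h3 : dist (H 0 y) (H 0 x) < ε' / 2 := by
          rw [hH0, hH0]
          exact h2 (hty.2.trans_le (min_le_right _ _))
        have h4 : dist (H t y) (H 0 y) ≤ ε' / 2 := by
          have ht0 : (0 : ℝ) ≤ t := ht.1
          rcases ht0.eq_or_lt with h5 | h5
          · rw [← h5, dist_self]
            exact (half_pos hε').le
          · rw [dist_eq_norm]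
            refine h1 t h5 ?_ y hy
            have h6 := hty.1.trans_le (min_le_left _ _)
            rw [Real.dist_eq, sub_zero, abs_of_pos h5] at h6
            exact h6
        have h5 := dist_triangle (H t y) (H 0 y) (H 0 x)
        change dist (H t y) (H 0 x) < ε'
        linarith
      · -- positive times
        have hc : ContinuousWithinAt (fun q : ℝ × EuclideanSpace ℝ (Fin n) =>
            q.1⁻¹ • (f ((1 - q.1) • z + q.1 • q.2) - f z))
            (Set.Icc (0 : ℝ) 1 ×ˢ cube n) (s, x) := by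
          have c1 : ContinuousOn (fun q : ℝ × EuclideanSpace ℝ (Fin n) =>
              f ((1 - q.1) • z + q.1 • q.2)) (Set.Icc (0 : ℝ) 1 ×ˢ cube n) := by
            refine hf.1.comp (f := fun q : ℝ × EuclideanSpace ℝ (Fin n) =>
              (1 - q.1) • z + q.1 • q.2) (by fun_prop) ?_
            intro q hq
            exact scale_mem hz hq.2 hq.1.1 hq.1.2
          have c2 : ContinuousWithinAt (fun q : ℝ × EuclideanSpace ℝ (Fin n) => q.1⁻¹)
              (Set.Icc (0 : ℝ) 1 ×ˢ cube n) (s, x) :=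
            ((continuous_fst.continuousAt (x := (s, x))).inv₀ h0.ne').continuousWithinAt
          exact c2.smul ((c1 (s, x) ⟨hs, hx⟩).sub continuousWithinAt_const)
        refine hc.congr_of_eventuallyEq ?_ (hHs s h0.ne' x)
        have hev : ∀ᶠ q : ℝ × EuclideanSpace ℝ (Fin n) in 𝓝 (s, x), q.1 ≠ 0 :=
          continuous_fst.continuousAt.eventually (isOpen_ne.mem_nhds h0.ne')
        filter_upwards [mem_nhdsWithin_of_mem_nhds hev] with q hq
        exact hHs q.1 hq q.2
    · -- the local expansion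
      intro s hs y hy w hw hyw
      have hpos : ∀ t : ℝ, 0 < t → t ≤ 1 → dist y w ≤ dist (H t y) (H t w) := by
        intro t ht0 ht1
        have e1 : dist ((1 - t) • z + t • y) ((1 - t) • z + t • w) = t * dist y w := by
          rw [dist_add_left, dist_smul₀, Real.norm_of_nonneg ht0.le]
        have h1 := huni _ (scale_mem hz hy ht0.le ht1) _ (scale_mem hz hw ht0.le ht1) (by
          rw [e1]
          have := mul_le_mul_of_nonneg_right ht1 (dist_nonneg (x := y) (y := w))
          linarith)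
        rw [e1] at h1
        rw [hHs t ht0.ne', hHs t ht0.ne', dist_smul₀, dist_sub_right, norm_inv,
          Real.norm_of_nonneg ht0.le, inv_mul_eq_div, le_div_iff₀ ht0, mul_comm]
        exact h1
      rcases hs.1.eq_or_lt with h0 | h0
      · rw [← h0]
        refine le_of_forall_pos_le_add fun ε' hε' => ?_
        obtain ⟨η, hη, hη1, h1⟩ := hclose (ε' / 2) (half_pos hε')
        have h2 := hpos (η / 2) (half_pos hη) (by linarith)
        have h3 := h1 (η / 2) (half_pos hη) (half_lt_self hη) y hy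
        have h4 := h1 (η / 2) (half_pos hη) (half_lt_self hη) w hw
        rw [← dist_eq_norm] at h3 h4
        have h5 := dist_triangle4_left (H 0 y) (H 0 w) (H (η / 2) y) (H (η / 2) w)
        have h6 := dist_triangle4 (H (η / 2) y) (H 0 y) (H 0 w) (H (η / 2) w)
        rw [dist_comm (H 0 w)] at h6
        linarith
      · exact hpos s h0 hs.2
  -- the balls
  choose! c hc using hball
  obtain ⟨η, hη, hη1, h1⟩ := hclose ε hε
  have hb0 : ∀ x ∈ cube n, dist (H 0 x) ((η / 2)⁻¹ • (c (η / 2) - f z)) ≤ ρ + ε := by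
    intro x hx
    have h2 := h1 (η / 2) (half_pos hη) (half_lt_self hη) x hx
    have h3 := hc (η / 2) (half_pos hη) (by linarith) x hx
    rw [mem_closedBall] at h3
    have h4 : dist (H (η / 2) x) ((η / 2)⁻¹ • (c (η / 2) - f z)) ≤ ρ := by
      rw [hHs _ (half_pos hη).ne', dist_smul₀, dist_sub_right, norm_inv,
        Real.norm_of_nonneg (half_pos hη).le, inv_mul_eq_div, div_le_iff₀ (half_pos hη), mul_comm]
      exact h3
    rw [← dist_eq_norm, dist_comm] at h2
    have h5 := dist_triangle (H 0 x) (H (η / 2) x) ((η / 2)⁻¹ • (c (η / 2) - f z))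
    linarith
  have hsym : ∀ x ∈ cube n, H 0 (-x) + H 0 x = -((2 : ℝ) • A z) := by
    intro x _
    rw [hH0, hH0, map_sub, map_sub, map_neg]
    module
  have key := barrierO hexp hsym
    (q := fun s => if s = 1 then q - f z else if s = 0 then (η / 2)⁻¹ • (c (η / 2) - f z) else
      s⁻¹ • (c s - f z))
    (r := fun s => if s = 1 then r else ρ + ε) (by
      intro s hs x hx
      rw [mem_closedBall]
      by_cases e1 : s = 1
      · subst e1
        rw [if_pos rfl, if_pos rfl, hHs 1 one_ne_zero, inv_one, one_smul, dist_sub_right,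
          sub_self, zero_smul, zero_add, one_smul]
        exact mem_closedBall.1 (h hx)
      · rw [if_neg e1, if_neg e1]
        by_cases e0 : s = 0
        · subst e0
          rw [if_pos rfl]
          exact hb0 x hx
        · rw [if_neg e0]
          have hs0 : 0 < s := lt_of_le_of_ne hs.1 (Ne.symm e0)
          have h3 := hc s hs0 hs.2 x hx
          rw [mem_closedBall] at h3
          have h4 : dist (H s x) (s⁻¹ • (c s - f z)) ≤ ρ := by
            rw [hHs _ e0, dist_smul₀, dist_sub_right, norm_inv, Real.norm_of_nonneg hs0.le,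
              inv_mul_eq_div, div_le_iff₀ hs0, mul_comm]
            exact h3
          linarith) (by
      intro s _
      by_cases e1 : s = 1
      · rw [if_pos e1]
        refine hcon.trans_le (Real.sqrt_le_sqrt ?_)
        linarith
      · rw [if_neg e1]
        exact hρε) 1 ⟨zero_le_one, le_rfl⟩
  rw [if_pos rfl] at key
  linarith

/-- **Small distortion.** -/
theorem small_distortion {f : EuclideanSpace ℝ (Fin n) → EuclideanSpace ℝ (Fin n)}
    (hf : IsExpandingOn f (cube n)) {L : NNReal} (hL : LipschitzOnWith L f (cube n))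
    (hn : n * (L : ℝ) ^ 2 < n + 3)
    {q : EuclideanSpace ℝ (Fin n)} {r : ℝ} (h : Set.MapsTo f (cube n) (closedBall q r)) :
    Real.sqrt n ≤ r := by
  obtain ⟨z, hz, hd⟩ : ∃ z ∈ cube n, DifferentiableWithinAt ℝ f (cube n) z := by
    have h1 : Dense {x | x ∈ cube n → DifferentiableWithinAt ℝ f (cube n) x} :=
      MeasureTheory.Measure.dense_of_ae
        (hL.ae_differentiableWithinAt_of_mem (μ := MeasureTheory.volume))
    obtain ⟨z, hz, hz'⟩ := h1.exists_mem_open (isOpen_ball (x := (0 : EuclideanSpace ℝ (Fin n)))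
      (ε := 1)) ⟨0, mem_ball_self one_pos⟩
    have hzc : z ∈ cube n := by
      intro i
      have h2 := abs_coord_le_norm z i
      rw [mem_ball_zero_iff] at hz'
      linarith
    exact ⟨z, hzc, hz hzc⟩
  refine scale hf hz hd (ρ := L * Real.sqrt n) ?_ (fun s hs0 hs1 => ?_) h
  · rw [mul_pow, Real.sq_sqrt (Nat.cast_nonneg n)]
    linarith
  · refine ⟨f ((1 - s) • z + s • (0 : EuclideanSpace ℝ (Fin n))), fun x hx => ?_⟩
    rw [mem_closedBall]
    have h1 := hL.dist_le_mul _ (scale_mem hz hx hs0.le hs1) _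
      (scale_mem hz (zero_mem_cube (n := n)) hs0.le hs1)
    rw [dist_add_left, dist_smul₀, Real.norm_of_nonneg hs0.le, dist_zero_right] at h1
    have h2 := norm_le_cube hx
    have h3 : s * ‖x‖ ≤ s * Real.sqrt n := mul_le_mul_of_nonneg_left h2 hs0.le
    have h4 := mul_le_mul_of_nonneg_left h3 (NNReal.coe_nonneg L)
    calc _ ≤ (L : ℝ) * (s * ‖x‖) := h1
      _ ≤ (L : ℝ) * (s * Real.sqrt n) := h4
      _ = s * ((L : ℝ) * Real.sqrt n) := by ring

end Pool.Agent.CubeM
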