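import Pool.Agent.CubeM.Field

/-!
# MP_c0b923_gt: the zero of the odd field
-/

set_option autoImplicit false

open Metric

namespace Pool.Agent.CubeM

open Pool.Agent.Expand Pool.Agent.CubeE

variable {n N : ℕ}

/-- The zero of the odd field. -/
theorem exists_touch {G : ℝ → EuclideanSpace ℝ (Fin n) → EuclideanSpace ℝ (Fin n)}
    {x : ℝ → EuclideanSpace ℝ (Fin n)} {a δ r : ℝ} (H : PHyp G x N a δ r)
    (hodd : ∀ σ, ∀ y ∈ cube n, G (-σ) (-y) = -G σ y) (hxodd : ∀ σ, x (-σ) = -x σ)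
    (hid : ∀ σ, |σ| ≤ 1 → ∀ y ∈ cube n, G σ y = y) (hx0 : ∀ σ, |σ| ≤ 1 → x σ = 0)
    {b : ℝ} (hb : 0 < b) (hba : b < a) (c : Fin n → ℝ) (hc : ∀ j, c j = 1 ∨ c j = -1) :
    ∃ (σ : ℝ) (y : EuclideanSpace ℝ (Fin n)) (w : Fin (N + 1) → EuclideanSpace ℝ (Fin n)),
      1 ≤ σ ∧ σ ≤ 3 ∧ IsChain (G σ) N a (x σ) y w ∧ (∀ j, ∃ s, b < c j * w s j) ∧
      (2 ≤ σ ∨ ∃ i, ∃ s s', b < w s i ∧ w s' i < -b) := by
  have ha1 := (H.hyp 0).ha1
  have ha0 := (H.hyp 0).ha0
  have hxc : ∀ σ, x σ ∈ cube n := fun σ i => ((H.hxa σ i).trans ha1).le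
  obtain ⟨U, hU⟩ : ∃ U : Set (EuclideanSpace ℝ (Fin (n + 1))),
    U = pmap ⁻¹' ({q | |q.1| < 3} ∩ PE0 G x N a) := ⟨_, rfl⟩
  have hUmem : ∀ v, v ∈ U ↔ |v 0| < 3 ∧ pmap v ∈ PE0 G x N a := by
    intro v
    rw [hU]
    exact Iff.rfl
  have hUo : IsOpen U := by
    rw [hU]
    refine IsOpen.preimage continuous_pmap (IsOpen.inter ?_ (isOpen_PE0 H))
    exact isOpen_lt (by fun_prop) continuous_const
  have hCcl : IsClosed (pmap ⁻¹' (PE G x N a 3)) :=
    (isCompact_PE H).isClosed.preimage continuous_pmap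
  have hUC : U ⊆ pmap ⁻¹' (PE G x N a 3) := by
    intro v hv
    rw [hUmem] at hv
    exact ⟨hv.1.le, EE0_subset _ _ _ hv.2⟩
  have hcl : closure U ⊆ pmap ⁻¹' (PE G x N a 3) := closure_minimal hUC hCcl
  have hch : ∀ v ∈ closure U, IsChain (G (v 0)) N a (x (v 0)) (pmap v).2
      (pch G x N a (pmap v)) := fun v hv => isChain_ch (hcl hv).2
  have hUb : Bornology.IsBounded U := by
    rw [isBounded_iff_forall_norm_le]
    refine ⟨Real.sqrt (∑ _i : Fin (n + 1), (3 : ℝ) ^ 2), fun v hv => ?_⟩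
    rw [EuclideanSpace.norm_eq]
    apply Real.sqrt_le_sqrt
    apply Finset.sum_le_sum
    intro i _
    rw [Real.norm_eq_abs]
    apply pow_le_pow_left₀ (abs_nonneg _)
    refine Fin.cases ?_ (fun i => ?_) i
    · exact ((hUmem v).mp hv).1.le
    · have h1 := hch v (subset_closure hv)
      have h2 := h1.2.2.1 (Fin.last N) i
      rw [h1.2.1, pmap_snd] at h2
      linarith
  have hneg : ∀ v ∈ closure U, pch G x N a (pmap (-v)) = -pch G x N a (pmap v) := by
    intro v hv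
    have h1 := chain_neg' ha1.le hodd hxodd hxc (hch v hv)
    have h2 := (ch_eq (H.hyp (-(v 0))) h1).2
    rw [pmap_neg]
    exact h2
  have hUS : ∀ v ∈ U, -v ∈ U := by
    intro v hv
    rw [hUmem] at hv ⊢
    obtain ⟨hv1, w, hw, hw0⟩ := hv
    refine ⟨?_, ?_⟩
    · rw [PiLp.neg_apply, abs_neg]
      exact hv1
    · rw [pmap_neg]
      exact ⟨_, chain_neg' ha1.le hodd hxodd hxc hw, fun s i => by simpa using hw0 s i⟩
  have hU0 : (0 : EuclideanSpace ℝ (Fin (n + 1))) ∈ U := by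
    rw [hUmem, pmap_zero]
    refine ⟨by simp, fun _ => 0, ?_, fun s i => by simpa using ha0⟩
    simp only
    rw [hx0 0 (by simp)]
    exact isChain_const N fun i => by simpa using ha0.le
  obtain ⟨h, hh⟩ : ∃ h : Fin n → EuclideanSpace ℝ (Fin (n + 1)) → ℝ,
      ∀ j v, h j v = field b 1 c j (v 0) (pch G x N a (pmap v)) := ⟨_, fun _ _ => rfl⟩
  have hcont : ∀ j, ContinuousOn (h j) (closure U) := by
    intro j
    have h1 : ContinuousOn (fun v : EuclideanSpace ℝ (Fin (n + 1)) =>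
        ((v 0 : ℝ), pch G x N a (pmap v))) (closure U) := by
      apply ContinuousOn.prodMk
      · apply Continuous.continuousOn
        fun_prop
      · exact (continuousOn_pch H).comp continuous_pmap.continuousOn hcl
    have h2 := (continuous_field (N := N) b 1 c j).comp_continuousOn h1
    exact h2.congr fun v _ => hh j v
  have hho : ∀ j, ∀ v ∈ closure U, h j (-v) = -h j v := by
    intro j v hv
    rw [hh, hh, hneg v hv, PiLp.neg_apply]
    exact field_neg b 1 c j _ _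
  have hcard : Fintype.card (Fin n) < n + 1 := by
    rw [Fintype.card_fin]
    exact Nat.lt_succ_self n
  obtain ⟨v, hv, hz'⟩ := bu_open (n + 1) U hUo hUb hUS hU0 hcard h hcont hho
  have hz : ∀ j, field b 1 c j (v 0) (pch G x N a (pmap v)) = 0 := fun j => by
    rw [← hh, hz' j]
  have hvc : v ∈ closure U := frontier_subset_closure hv
  have hvn : v ∉ U := by
    rw [hUo.frontier_eq] at hv
    exact hv.2
  have hw := hch v hvc
  have h3 : |v 0| ≤ 3 := (hcl hvc).1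
  have ht : |v 0| = 3 ∨ ∃ s i, |pch G x N a (pmap v) s i| = a := by
    by_contra hcon
    push Not at hcon
    apply hvn
    rw [hUmem]
    refine ⟨lt_of_le_of_ne h3 hcon.1, pch G x N a (pmap v), hw, fun s i => ?_⟩
    exact lt_of_le_of_ne (hw.2.2.1 s i) (hcon.2 s i)
  rcases le_total 0 (v 0) with h0 | h0
  · rw [abs_of_nonneg h0] at h3 ht
    obtain ⟨k1, k2, k3⟩ := zero_analysis ha1 hid hx0 hb hba hc one_pos h0 hw hz ht
    exact ⟨v 0, _, _, k1, h3, hw, k2, k3⟩
  · rw [abs_of_nonpos h0] at h3 ht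
    have hw' := chain_neg' ha1.le hodd hxodd hxc hw
    obtain ⟨k1, k2, k3⟩ := zero_analysis ha1 hid hx0 hb hba hc one_pos
      (by linarith : 0 ≤ -(v 0)) hw' (fun j => by rw [field_neg, hz j, neg_zero]) (by
        rcases ht with ht | ⟨s, i, ht⟩
        · exact Or.inl ht
        · exact Or.inr ⟨s, i, by
            rw [Pi.neg_apply, PiLp.neg_apply, abs_neg]
            exact ht⟩)
    exact ⟨-(v 0), _, _, k1, h3, hw', k2, k3⟩

end Pool.Agent.CubeM
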