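import Pool.Agent.CubeM.FieldO

/-!
# MP_c0b923_gt: zeros of the odd field
-/

set_option autoImplicit false

open Finset

namespace Pool.Agent.CubeM

open Pool.Agent.CubeE

variable {n N : ℕ}

theorem mom0_pos {b : ℝ} {u : ℕ → ℝ} (h : 0 < mom N b 0 u) : ∃ s ≤ N, b < u s := by
  by_contra hcon
  push Not at hcon
  have h1 : mom N b 0 u ≤ 0 := by
    unfold mom
    apply sum_nonpos
    intro s hs
    have h2 := hcon s (by have := mem_range.1 hs; omega)
    have h3 : max (u s - b) 0 = 0 := max_eq_right (by linarith)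
    have h4 : 0 ≤ max (-u s - b) 0 := le_max_right _ _
    rw [pow_zero, mul_one]
    unfold phi
    linarith
  linarith

theorem mom0_neg {b : ℝ} {u : ℕ → ℝ} (h : mom N b 0 u < 0) : ∃ s ≤ N, u s < -b := by
  have h1 : 0 < mom N b 0 (fun s => -u s) := by
    rw [mom_neg]
    linarith
  obtain ⟨s, hs, h2⟩ := mom0_pos h1
  exact ⟨s, hs, by linarith⟩

theorem lbet_two {b : ℝ} {u : ℕ → ℝ} (h : 0 < lbet N b 2 u) :
    ∃ s ≤ N, ∃ s' ≤ N, b < u s ∧ u s' < -b := by
  obtain ⟨c, hc, e, t, ht, -, heN, h1⟩ := (lbet_pos (by omega) u).mp h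
  have h2 := h1 0 (by omega)
  have h3 := h1 1 (by omega)
  rw [pow_zero, mul_one] at h2
  rw [pow_one] at h3
  rcases ht with rfl | rfl
  · exact ⟨e 0, heN 0 (by omega), e 1, heN 1 (by omega), by linarith, by linarith⟩
  · exact ⟨e 1, heN 1 (by omega), e 0, heN 0 (by omega), by linarith, by linarith⟩

theorem mom0_ne {b : ℝ} (hb : 0 ≤ b) {u : ℕ → ℝ} (hT : ∃ s ≤ N, b < |u s|)
    (h : lbet N b 2 u = 0) : mom N b 0 u ≠ 0 := by
  obtain ⟨k, hk, h1⟩ := moment hb hT 1 (fun h' => by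
    have := (lbet_pos (by omega) u).mpr h'
    linarith)
  have h2 : k = 0 := by omega
  rwa [h2] at h1

theorem count_double {S : Fin n → ℝ} {A : Fin n → ℕ} {b R : ℝ} (hb : 0 < b)
    (hR : R ^ 2 < (n + 3) * b ^ 2) (hS : ∑ i, S i ^ 2 ≤ R ^ 2)
    (hA : ∀ i, 1 ≤ A i → (2 * (A i : ℝ) - 1) * b ≤ S i) {i0 : Fin n} (h2 : 2 ≤ A i0) :
    ∑ i, A i + 4 < n := by
  have h1 : ∀ i, 0 ≤ S i ^ 2 - (A i : ℝ) * b ^ 2 := by
    intro i
    rcases Nat.eq_zero_or_pos (A i) with h0 | h0
    · rw [h0, Nat.cast_zero, zero_mul, sub_zero]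
      exact sq_nonneg _
    · have h2 := hA i h0
      have h3 : (1 : ℝ) ≤ A i := by exact_mod_cast h0
      have h4 : 0 ≤ (2 * (A i : ℝ) - 1) * b := mul_nonneg (by linarith) hb.le
      have h5 : ((2 * (A i : ℝ) - 1) * b) ^ 2 ≤ S i ^ 2 := pow_le_pow_left₀ h4 h2 2
      have h6 : (A i : ℝ) * b ^ 2 ≤ ((2 * (A i : ℝ) - 1) * b) ^ 2 := by
        rw [mul_pow]
        refine mul_le_mul_of_nonneg_right ?_ (sq_nonneg _)
        nlinarith
      linarith
  have h3 : 7 * b ^ 2 ≤ S i0 ^ 2 - (A i0 : ℝ) * b ^ 2 := by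
    have h3 : (2 : ℝ) ≤ A i0 := by exact_mod_cast h2
    have h4 : 0 ≤ (2 * (A i0 : ℝ) - 1) * b := mul_nonneg (by linarith) hb.le
    have h5 : ((2 * (A i0 : ℝ) - 1) * b) ^ 2 ≤ S i0 ^ 2 :=
      pow_le_pow_left₀ h4 (hA i0 (by omega)) 2
    have h6 : ((A i0 : ℝ) + 7) * b ^ 2 ≤ ((2 * (A i0 : ℝ) - 1) * b) ^ 2 := by
      rw [mul_pow]
      refine mul_le_mul_of_nonneg_right ?_ (sq_nonneg _)
      nlinarith
    linarith
  have h4 : S i0 ^ 2 - (A i0 : ℝ) * b ^ 2 ≤ ∑ i, (S i ^ 2 - (A i : ℝ) * b ^ 2) :=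
    single_le_sum (f := fun i => S i ^ 2 - (A i : ℝ) * b ^ 2) (fun i _ => h1 i) (mem_univ i0)
  rw [sum_sub_distrib, ← sum_mul] at h4
  have h5 : (∑ i, (A i : ℝ) + 4) * b ^ 2 < n * b ^ 2 := by linarith
  have h6 : (∑ i, (A i : ℝ)) + 4 < n := lt_of_mul_lt_mul_right h5 (sq_nonneg _)
  exact_mod_cast h6

theorem ncard_le_sum' (A : Fin n → ℕ) (B : Option (Fin n × Fin n) → ℝ)
    (hB : ∀ t, B (some t) ≠ 0 → (t.2 : ℕ) < A t.1) :
    Set.ncard {t | B t ≠ 0} ≤ ∑ i, A i + 1 := by
  classical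
  have h0 : Set.ncard {t | B t ≠ 0} ≤ (insert none
      ((univ.filter fun t : Fin n × Fin n => (t.2 : ℕ) < A t.1).image some)).card := by
    rw [← Set.ncard_coe_finset]
    refine Set.ncard_le_ncard ?_ (Finset.finite_toSet _)
    rintro (_ | t) ht
    · simp
    · have := hB t ht
      simp [this]
  have h2 : (univ.sigma fun i : Fin n => range (A i)).card = ∑ i, A i := by
    rw [card_sigma]
    simp
  have h3 : (univ.filter fun t : Fin n × Fin n => (t.2 : ℕ) < A t.1).card ≤ ∑ i, A i := by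
    rw [← h2]
    refine Finset.card_le_card_of_injOn
      (fun t => (⟨t.1, (t.2 : ℕ)⟩ : (_ : Fin n) × ℕ)) ?_ ?_
    · intro t ht
      have h3 := (mem_filter.1 (Finset.mem_coe.1 ht)).2
      simpa using h3
    · rintro ⟨t1, t2⟩ _ ⟨t3, t4⟩ _ h3
      simp only [Sigma.mk.injEq, heq_eq_eq] at h3
      exact Prod.ext h3.1 (Fin.ext h3.2)
  refine h0.trans ((card_insert_le _ _).trans ?_)
  have h4 := card_image_le (s := univ.filter fun t : Fin n × Fin n => (t.2 : ℕ) < A t.1)
    (f := some)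
  omega

theorem coef_eq_exv {b : ℝ} {ε : Fin n → ℝ} {u : Fin n → ℕ → ℝ} {σ : ℝ}
    (h : lam σ = 0 ∨ ∀ i, lbet N b 2 (u i) = 0) (t : Option (Fin n × Fin n)) :
    coef N b ε u σ t = exv (-(gam σ * ∑ i, lbet N b 2 (u i) + drf σ))
      (fun i => ε i * mom N b 0 (u i)) t := by
  rcases t with _ | ⟨i, k⟩
  · rfl
  · simp only [coef, exv]
    split_ifs with hk
    · rfl
    · rcases h with h | h
      · rw [h, zero_mul]
      · have h1 : lbet N b ((k : ℕ) + 1) (u i) = 0 := by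
          by_contra hne
          have h2 : 0 < lbet N b ((k : ℕ) + 1) (u i) :=
            lt_of_le_of_ne (lbet_nonneg (by omega) _) (Ne.symm hne)
          obtain ⟨c, hc, h3⟩ := (lbet_pos (by omega) (u i)).mp h2
          have h4 := (lbet_pos (b := b) (N := N) (k := 2) (by omega) (u i)).mpr
            ⟨c, hc, lalt_anti (by omega) h3⟩
          linarith [h i]
        rw [h1, zero_mul, mul_zero]

/-- No zero in the middle part. -/
theorem no_mid {b : ℝ} (hb : 0 < b) {ε : Fin n → ℝ} (hε : ∀ i, ε i = 1 ∨ ε i = -1)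
    {u : Fin n → ℕ → ℝ} {σ R : ℝ} (hσ0 : 0 ≤ σ) (hσ1 : σ < 1)
    (hz : ∀ s, fldO N b ε s u σ = 0)
    {i0 : Fin n} (ht : ∃ s ≤ N, b < |u i0 s|) (hu0 : ∀ i, u i 0 = 0)
    (hS : ∑ i, (∑ s ∈ range N, |u i (s + 1) - u i s|) ^ 2 ≤ R ^ 2)
    (hR : R ^ 2 < (n + 3) * b ^ 2) : False := by
  classical
  have hn1 : 0 < n := Fin.pos i0
  have hε0 : ∀ i, ε i ≠ 0 := by
    intro i
    rcases hε i with h | h <;> rw [h] <;> norm_num
  have hg : gam σ = σ := by
    unfold gam
    rw [min_eq_right hσ1.le, max_eq_right (by linarith)]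
  have hd : drf σ = 0 := by
    unfold drf
    rw [max_eq_right (by linarith), max_eq_right (by linarith), sub_zero]
  obtain ⟨P, hP⟩ : ∃ P : Fin n → ℕ → Prop,
      ∀ i k, P i k ↔ ∃ c, b < c ∧ LAlt N c k (u i) := ⟨_, fun _ _ => Iff.rfl⟩
  have hpos : ∀ i k, 1 ≤ k → P i k → 0 < lbet N b k (u i) := fun i k hk h =>
    (lbet_pos hk (u i)).mpr ((hP i k).mp h)
  have hposi : ∀ i k, 1 ≤ k → 0 < lbet N b k (u i) → P i k := fun i k hk h =>
    (hP i k).mpr ((lbet_pos hk (u i)).mp h)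
  obtain ⟨A, hA⟩ : ∃ A : Fin n → ℕ, ∀ i, A i = Nat.findGreatest (P i) (n + 1) :=
    ⟨_, fun _ => rfl⟩
  have hP0 : ∀ i, P i 0 := by
    intro i
    rw [hP]
    exact ⟨b + 1, by linarith, fun _ => 0, 1, Or.inl rfl, fun l hl => by omega,
      fun l hl => by omega, fun l hl => by omega⟩
  have hPA : ∀ i, P i (A i) := fun i => by
    rw [hA]
    exact Nat.findGreatest_spec (Nat.zero_le _) (hP0 i)
  have hanti : ∀ i k k', k ≤ k' → P i k' → P i k := by
    intro i k k' hkk h
    rw [hP] at h ⊢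
    obtain ⟨c, hc, h⟩ := h
    exact ⟨c, hc, lalt_anti hkk h⟩
  have hle : ∀ i k, k ≤ n + 1 → P i k → k ≤ A i := fun i k hk h => by
    rw [hA]
    exact Nat.le_findGreatest hk h
  have hA1 : ∀ i, 1 ≤ A i → (2 * (A i : ℝ) - 1) * b ≤
      ∑ s ∈ range N, |u i (s + 1) - u i s| := by
    intro i hi
    obtain ⟨c, hc, h⟩ := (hP i (A i)).mp (hPA i)
    exact lalt_tv hi (hu0 i) (lalt_mono_c h hc.le)
  by_cases hm : ∃ i, 2 ≤ A i
  · obtain ⟨i1, hi1⟩ := hm
    have hcount := count_double hb hR hS hA1 hi1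
    have hAn : ∀ i, A i < n := by
      intro i
      have := single_le_sum (f := A) (fun _ _ => Nat.zero_le _) (mem_univ i)
      omega
    have hβ : ∀ t, coef N b ε u σ t = 0 := by
      refine vand_zero _ ((ncard_le_sum' A _ ?_).trans (by omega)) hz
      rintro ⟨i, k⟩ hk
      simp only [coef] at hk
      split_ifs at hk with h0
      · have h1 : mom N b 0 (u i) ≠ 0 := right_ne_zero_of_mul hk
        by_contra hcon
        have hcon' : ¬ (k : ℕ) < A i := hcon
        have h0' : (k : ℕ) = 0 := h0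
        have h2 : A i = 0 := by omega
        have h3 : ¬ P i 1 := fun h => by
          have := hle i 1 (by omega) h
          omega
        rcases lt_or_gt_of_ne h1 with h4 | h4
        · obtain ⟨s, hs, h5⟩ := mom0_neg h4
          apply h3
          rw [hP]
          refine ⟨-u i s, by linarith, fun _ => s, -1, Or.inr rfl, fun l hl => by omega,
            fun l hl => hs, fun l hl => ?_⟩
          have h6 : l = 0 := by omega
          rw [h6]
          simp
        · obtain ⟨s, hs, h5⟩ := mom0_pos h4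
          apply h3
          rw [hP]
          refine ⟨u i s, by linarith, fun _ => s, 1, Or.inl rfl, fun l hl => by omega,
            fun l hl => hs, fun l hl => ?_⟩
          have h6 : l = 0 := by omega
          rw [h6]
          simp
      · have h1 : lbet N b ((k : ℕ) + 1) (u i) ≠ 0 :=
          left_ne_zero_of_mul (right_ne_zero_of_mul hk)
        have h2 := hposi i ((k : ℕ) + 1) (by omega)
          (lt_of_le_of_ne (lbet_nonneg (by omega) _) (Ne.symm h1))
        have h3 := hle i ((k : ℕ) + 1) (by omega) h2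
        simp only
        omega
    have hm0 : 0 < ∑ i, lbet N b 2 (u i) := by
      refine sum_pos' (fun i _ => lbet_nonneg (by omega) _) ⟨i1, mem_univ _, ?_⟩
      exact hpos i1 2 (by omega) (hanti i1 2 (A i1) hi1 (hPA i1))
    have hσ : σ = 0 := by
      have h1 := hβ none
      simp only [coef] at h1
      rw [hg, hd] at h1
      have h2 : σ * ∑ i, lbet N b 2 (u i) = 0 := by linarith
      rcases mul_eq_zero.mp h2 with h3 | h3
      · exact h3
      · linarith
    have hl : lam σ = 1 := by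
      rw [hσ, lam, abs_zero, sub_zero, max_eq_right zero_le_one]
    obtain ⟨k, hk, h1⟩ := moment hb.le ht (A i0) (fun h => by
      have h2 := hle i0 (A i0 + 1) (by have := hAn i0; omega) ((hP _ _).mpr h)
      omega)
    have hkn : k < n := hk.trans (hAn i0)
    have h2 := hβ (some (i0, ⟨k, hkn⟩))
    simp only [coef] at h2
    split_ifs at h2 with h3
    · rw [h3] at h1
      exact mul_ne_zero (hε0 i0) h1 h2
    · rw [hl, one_mul] at h2
      have h4 := hpos i0 (k + 1) (by omega) (hanti i0 (k + 1) (A i0) (by omega) (hPA i0))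
      exact mul_ne_zero h4.ne' h1 h2
  · push Not at hm
    have hl2 : ∀ i, lbet N b 2 (u i) = 0 := by
      intro i
      by_contra hne
      have h1 := hposi i 2 (by omega) (lt_of_le_of_ne (lbet_nonneg (by omega) _) (Ne.symm hne))
      have h2 := hle i 2 (by omega) h1
      have := hm i
      omega
    have hc0 : -(gam σ * ∑ i, lbet N b 2 (u i) + drf σ) = 0 := by
      rw [sum_eq_zero fun i _ => hl2 i, hd]
      simp
    have h1 := vand_zero (exv 0 fun i => ε i * mom N b 0 (u i)) (ncard_exv _) (fun s => by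
      have h2 := hz s
      unfold fldO at h2
      refine Eq.trans (sum_congr rfl fun t _ => ?_) h2
      rw [coef_eq_exv (Or.inr hl2) t, hc0]) (some (i0, fz i0))
    simp only [exv, fz] at h1
    exact mul_ne_zero (hε0 i0) (mom0_ne hb.le ht (hl2 i0)) h1

/-- Analysis of the zeros. -/
theorem zeroO {b : ℝ} (hb : 0 < b) {ε a c : Fin n → ℝ} (hε : ∀ i, ε i = 1 ∨ ε i = -1)
    (hac : ∀ i, 0 < ε i * a i * c i) (hc : ∀ j, c j = 1 ∨ c j = -1)
    (ha : ∀ s : Fin n, node (none : Option (Fin n × Fin n)) ^ (s : ℕ) =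
        ∑ i, node (some (i, fz i)) ^ (s : ℕ) * a i)
    {u : Fin n → ℕ → ℝ} {σ R : ℝ} (hσ0 : 0 ≤ σ)
    (hz : ∀ s, fldO N b ε s u σ = 0)
    (htouch : σ = 3 ∨ ∃ i, ∃ s ≤ N, b < |u i s|)
    (hmid : σ < 1 → (∀ i, u i 0 = 0) ∧
      ∑ i, (∑ s ∈ range N, |u i (s + 1) - u i s|) ^ 2 ≤ R ^ 2)
    (hR : R ^ 2 < (n + 3) * b ^ 2) :
    1 ≤ σ ∧ (∀ i, ∃ s ≤ N, b < c i * u i s) ∧
      (2 ≤ σ ∨ ∃ i, ∃ s ≤ N, ∃ s' ≤ N, b < u i s ∧ u i s' < -b) := by
  rcases lt_or_ge σ 1 with hσ1 | hσ1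
  · exfalso
    obtain ⟨h1, h2⟩ := hmid hσ1
    rcases htouch with h | ⟨i0, h⟩
    · linarith
    · exact no_mid hb hε hσ0 hσ1 hz h h1 h2 hR
  have hg : gam σ = 1 := by
    unfold gam
    rw [min_eq_left hσ1, max_eq_right (by norm_num)]
  have hl : lam σ = 0 := by
    unfold lam
    rw [abs_of_nonneg hσ0, max_eq_left (by linarith)]
  have hd : drf σ = max (σ - 2) 0 := by
    unfold drf
    rw [max_eq_right (by linarith : -σ - 2 ≤ 0), sub_zero]
  obtain ⟨M, hM⟩ : ∃ M : ℝ, M = ∑ i, lbet N b 2 (u i) + max (σ - 2) 0 := ⟨_, rfl⟩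
  have hm0 : 0 ≤ ∑ i, lbet N b 2 (u i) := sum_nonneg fun i _ => lbet_nonneg (by omega) _
  have hM0 : 0 ≤ M := by
    rw [hM]
    exact add_nonneg hm0 (le_max_right _ _)
  have key : ∀ i, ε i * mom N b 0 (u i) = M * a i := by
    intro i
    have h1 := vand_zero (exv 0 fun i => ε i * mom N b 0 (u i) - M * a i) (ncard_exv _)
      (fun s => by
        have h2 := hz s
        unfold fldO at h2
        rw [sum_congr rfl fun t _ => by rw [coef_eq_exv (Or.inl hl) t], sum_exv, hg, hd,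
          one_mul, ← hM, ha s] at h2
        rw [sum_exv, mul_zero, zero_add, ← h2, sum_mul, ← sum_add_distrib]
        refine sum_congr rfl fun j _ => ?_
        ring) (some (i, fz i))
    simp only [exv, fz] at h1
    have h2 : ε i * mom N b 0 (u i) - M * a i = 0 := h1
    linarith
  have hε2 : ∀ i, ε i * ε i = 1 := by
    intro i
    rcases hε i with h | h <;> rw [h] <;> norm_num
  have hMpos : 0 < M := by
    by_contra hcon
    have hM' : M = 0 := le_antisymm (not_lt.mp hcon) hM0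
    have h1 : 0 ≤ max (σ - 2) 0 := le_max_right _ _
    have h2 : ∑ i, lbet N b 2 (u i) = 0 := by linarith
    have h3 : max (σ - 2) 0 = 0 := by linarith
    have h4 : ∀ i, lbet N b 2 (u i) = 0 := fun i =>
      (sum_eq_zero_iff_of_nonneg fun i _ => lbet_nonneg (by omega) _).mp h2 i (mem_univ i)
    rcases htouch with h | ⟨i0, h⟩
    · rw [h] at h3
      norm_num at h3
    · have h5 := key i0
      rw [hM', zero_mul] at h5
      have h6 : ε i0 ≠ 0 := by
        rcases hε i0 with h | h <;> rw [h] <;> norm_num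
      exact mul_ne_zero h6 (mom0_ne hb.le h (h4 i0)) h5
  refine ⟨hσ1, fun i => ?_, ?_⟩
  · have h1 : mom N b 0 (u i) = M * (ε i * a i) := by
      calc mom N b 0 (u i) = (ε i * ε i) * mom N b 0 (u i) := by rw [hε2, one_mul]
        _ = ε i * (ε i * mom N b 0 (u i)) := by ring
        _ = M * (ε i * a i) := by rw [key i]; ring
    have h2 := mul_pos hMpos (hac i)
    rcases hc i with h3 | h3
    · rw [h3, mul_one] at h2
      obtain ⟨s, hs, h4⟩ := mom0_pos (N := N) (b := b) (u := u i) (by rw [h1]; exact h2)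
      exact ⟨s, hs, by rw [h3, one_mul]; exact h4⟩
    · rw [h3] at h2
      obtain ⟨s, hs, h4⟩ := mom0_neg (N := N) (b := b) (u := u i) (by rw [h1]; linarith)
      exact ⟨s, hs, by rw [h3]; linarith⟩
  · by_cases hσ2 : 2 ≤ σ
    · exact Or.inl hσ2
    · right
      have h1 : max (σ - 2) 0 = 0 := max_eq_right (by linarith [not_le.mp hσ2])
      have h2 : 0 < ∑ i, lbet N b 2 (u i) := by linarith
      obtain ⟨i, -, hi⟩ : ∃ i ∈ (univ : Finset (Fin n)), 0 < lbet N b 2 (u i) := by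
        by_contra hcon
        push Not at hcon
        have := sum_nonpos hcon
        linarith
      obtain ⟨s, hs, s', hs', h3⟩ := lbet_two hi
      exact ⟨i, s, hs, s', hs', h3⟩

end Pool.Agent.CubeM
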