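import Pool.Agent.CubeM.Field
import Pool.Agent.CubeM.ZeroO
import Pool.Agent.CubeM.Tv

/-!
# MP_c0b923_gt: the zero of the odd field, homotopies starting at an odd map
-/

set_option autoImplicit false

open Metric

namespace Pool.Agent.CubeM

open Pool.Agent.Expand Pool.Agent.CubeE

variable {n N : ℕ}

/-- the analysis for one chain -/
theorem chain_zeroO {G : ℝ → EuclideanSpace ℝ (Fin n) → EuclideanSpace ℝ (Fin n)}
    {x : ℝ → EuclideanSpace ℝ (Fin n)} {a δ r : ℝ} (H : PHyp G x N a δ r)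
    (hx0 : ∀ σ, |σ| ≤ 1 → x σ = 0) (hGx : ∀ σ, G σ (x σ) = 0)
    {b : ℝ} (hb : 0 < b) (hba : b < a) (hrb : r ^ 2 < (n + 3) * b ^ 2)
    {ε e c : Fin n → ℝ} (hε : ∀ i, ε i = 1 ∨ ε i = -1)
    (hac : ∀ i, 0 < ε i * e i * c i) (hc : ∀ j, c j = 1 ∨ c j = -1)
    (he : ∀ s : Fin n, node (none : Option (Fin n × Fin n)) ^ (s : ℕ) =
        ∑ i, node (some (i, fz i)) ^ (s : ℕ) * e i)
    {σ : ℝ} (hσ0 : 0 ≤ σ) {y : EuclideanSpace ℝ (Fin n)}
    {w : Fin (N + 1) → EuclideanSpace ℝ (Fin n)} (hw : IsChain (G σ) N a (x σ) y w)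
    (hz : ∀ s, fldO N b ε s (fun i k => w (Fin.ofNat (N + 1) k) i) σ = 0)
    (htouch : σ = 3 ∨ ∃ s i, |w s i| = a) :
    1 ≤ σ ∧ (∀ j, ∃ s, b < c j * w s j) ∧
      (2 ≤ σ ∨ ∃ i, ∃ s s', b < w s i ∧ w s' i < -b) := by
  have Hσ := H.hyp σ
  have hN0 := Hσ.hN0
  have h1 := zeroO (N := N) (R := r) hb hε hac hc he hσ0 hz (by
    rcases htouch with h | ⟨s, i, h⟩
    · exact Or.inl h
    · exact Or.inr ⟨i, (s : ℕ), Nat.lt_succ_iff.mp s.2, by
        rw [ofNat_eq, h]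
        exact hba⟩) (fun hσ1 => by
    have hw0 : w 0 = 0 := by
      rw [hw.1, hx0 σ (by rw [abs_of_nonneg hσ0]; exact hσ1.le)]
    refine ⟨fun i => ?_, ?_⟩
    · have h2 : Fin.ofNat (N + 1) 0 = (0 : Fin (N + 1)) := ofNat_eq 0
      simp only
      rw [h2, hw0, PiLp.zero_apply]
    · rw [Finset.sum_congr rfl fun i _ => by rw [tv_eq w i]]
      apply sum_tv_sq_le
      have h4 : ∑ s : Fin N, dist (w s.succ) (w s.castSucc) ≤
          ∑ _s : Fin N, ‖G σ y‖ / N := by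
        apply Finset.sum_le_sum
        intro s _
        have h5 := sum_chain_le hN0 hw s
        rwa [hGx, dist_zero_right] at h5
      rw [Finset.sum_const, Finset.card_univ, Fintype.card_fin, nsmul_eq_mul,
        mul_div_cancel₀ _ (by positivity)] at h4
      have hyc : y ∈ cube n := hw.2.1 ▸ chain_mem Hσ hw (Fin.last N)
      have h5 := Hσ.hr y hyc
      rw [dist_zero_right] at h5
      exact h4.trans h5) hrb
  obtain ⟨k1, k2, k3⟩ := h1
  refine ⟨k1, fun j => ?_, ?_⟩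
  · obtain ⟨s, -, hs⟩ := k2 j
    exact ⟨_, hs⟩
  · rcases k3 with h | ⟨i, s, -, s', -, h, h'⟩
    · exact Or.inl h
    · exact Or.inr ⟨i, _, _, h, h'⟩

/-- The zero of the odd field. -/
theorem exists_touchO {G : ℝ → EuclideanSpace ℝ (Fin n) → EuclideanSpace ℝ (Fin n)}
    {x : ℝ → EuclideanSpace ℝ (Fin n)} {a δ r : ℝ} (H : PHyp G x N a δ r)
    (hodd : ∀ σ, ∀ y ∈ cube n, G (-σ) (-y) = -G σ y) (hxodd : ∀ σ, x (-σ) = -x σ)
    (hx0 : ∀ σ, |σ| ≤ 1 → x σ = 0) (hGx : ∀ σ, G σ (x σ) = 0)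
    {b : ℝ} (hb : 0 < b) (hba : b < a) (hrb : r ^ 2 < (n + 3) * b ^ 2)
    (c : Fin n → ℝ) (hc : ∀ j, c j = 1 ∨ c j = -1) :
    ∃ (σ : ℝ) (y : EuclideanSpace ℝ (Fin n)) (w : Fin (N + 1) → EuclideanSpace ℝ (Fin n)),
      1 ≤ σ ∧ σ ≤ 3 ∧ IsChain (G σ) N a (x σ) y w ∧ (∀ j, ∃ s, b < c j * w s j) ∧
      (2 ≤ σ ∨ ∃ i, ∃ s s', b < w s i ∧ w s' i < -b) := by
  have ha1 := (H.hyp 0).ha1
  have ha0 := (H.hyp 0).ha0
  have hxc : ∀ σ, x σ ∈ cube n := fun σ i => ((H.hxa σ i).trans ha1).le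
  obtain ⟨U, hU⟩ : ∃ U : Set (EuclideanSpace ℝ (Fin (n + 1))),
    U = pmap ⁻¹' ({q | |q.1| < 3} ∩ PE0 G x N a) := ⟨_, rfl⟩
  have hUmem : ∀ v, v ∈ U ↔ |v 0| < 3 ∧ pmap v ∈ PE0 G x N a := by
    intro v
    rw [hU]
    exact Iff.rfl
  have hUo : IsOpen U := by
    rw [hU]
    refine IsOpen.preimage continuous_pmap (IsOpen.inter ?_ (isOpen_PE0 H))
    exact isOpen_lt (by fun_prop) continuous_const
  have hCcl : IsClosed (pmap ⁻¹' (PE G x N a 3)) :=
    (isCompact_PE H).isClosed.preimage continuous_pmap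
  have hUC : U ⊆ pmap ⁻¹' (PE G x N a 3) := by
    intro v hv
    rw [hUmem] at hv
    exact ⟨hv.1.le, EE0_subset _ _ _ hv.2⟩
  have hcl : closure U ⊆ pmap ⁻¹' (PE G x N a 3) := closure_minimal hUC hCcl
  have hch : ∀ v ∈ closure U, IsChain (G (v 0)) N a (x (v 0)) (pmap v).2
      (pch G x N a (pmap v)) := fun v hv => isChain_ch (hcl hv).2
  have hUb : Bornology.IsBounded U := by
    rw [isBounded_iff_forall_norm_le]
    refine ⟨Real.sqrt (∑ _i : Fin (n + 1), (3 : ℝ) ^ 2), fun v hv => ?_⟩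
    rw [EuclideanSpace.norm_eq]
    apply Real.sqrt_le_sqrt
    apply Finset.sum_le_sum
    intro i _
    rw [Real.norm_eq_abs]
    apply pow_le_pow_left₀ (abs_nonneg _)
    refine Fin.cases ?_ (fun i => ?_) i
    · exact ((hUmem v).mp hv).1.le
    · have h1 := hch v (subset_closure hv)
      have h2 := h1.2.2.1 (Fin.last N) i
      rw [h1.2.1, pmap_snd] at h2
      linarith
  have hneg : ∀ v ∈ closure U, pch G x N a (pmap (-v)) = -pch G x N a (pmap v) := by
    intro v hv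
    have h1 := chain_neg' ha1.le hodd hxodd hxc (hch v hv)
    have h2 := (ch_eq (H.hyp (-(v 0))) h1).2
    rw [pmap_neg]
    exact h2
  have hUS : ∀ v ∈ U, -v ∈ U := by
    intro v hv
    rw [hUmem] at hv ⊢
    obtain ⟨hv1, w, hw, hw0⟩ := hv
    refine ⟨?_, ?_⟩
    · rw [PiLp.neg_apply, abs_neg]
      exact hv1
    · rw [pmap_neg]
      exact ⟨_, chain_neg' ha1.le hodd hxodd hxc hw, fun s i => by simpa using hw0 s i⟩
  have hU0 : (0 : EuclideanSpace ℝ (Fin (n + 1))) ∈ U := by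
    rw [hUmem, pmap_zero]
    refine ⟨by simp, fun _ => 0, ?_, fun s i => by simpa using ha0⟩
    simp only
    rw [hx0 0 (by simp)]
    exact isChain_const N fun i => by simpa using ha0.le
  obtain ⟨e, ε, hε, hac, he⟩ := exists_eps c hc
  obtain ⟨h, hh⟩ : ∃ h : Fin n → EuclideanSpace ℝ (Fin (n + 1)) → ℝ,
      ∀ j v, h j v = fldO N b ε j (fun i k => pch G x N a (pmap v) (Fin.ofNat (N + 1) k) i)
        (v 0) := ⟨_, fun _ _ => rfl⟩
  have hcont : ∀ j, ContinuousOn (h j) (closure U) := by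
    intro j
    have h1 : ContinuousOn (fun v : EuclideanSpace ℝ (Fin (n + 1)) =>
        pch G x N a (pmap v)) (closure U) :=
      (continuousOn_pch H).comp continuous_pmap.continuousOn hcl
    have h2 : ContinuousOn (fun v : EuclideanSpace ℝ (Fin (n + 1)) => (v 0 : ℝ))
        (closure U) := by
      apply Continuous.continuousOn
      fun_prop
    have h3 : ∀ (i : Fin n), ∀ k ≤ N, ContinuousOn
        (fun v => pch G x N a (pmap v) (Fin.ofNat (N + 1) k) i) (closure U) := by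
      intro i k _
      have h4 : Continuous (fun w : Fin (N + 1) → EuclideanSpace ℝ (Fin n) =>
        w (Fin.ofNat (N + 1) k) i) := by fun_prop
      exact h4.comp_continuousOn h1
    exact (continuousOn_fldO b ε j h3 h2).congr fun v _ => hh j v
  have hho : ∀ j, ∀ v ∈ closure U, h j (-v) = -h j v := by
    intro j v hv
    rw [hh, hh, hneg v hv, PiLp.neg_apply, ← fldO_neg]
    rfl
  have hcard : Fintype.card (Fin n) < n + 1 := by
    rw [Fintype.card_fin]
    exact Nat.lt_succ_self n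
  obtain ⟨v, hv, hz'⟩ := bu_open (n + 1) U hUo hUb hUS hU0 hcard h hcont hho
  have hz : ∀ j, fldO N b ε j (fun i k => pch G x N a (pmap v) (Fin.ofNat (N + 1) k) i)
      (v 0) = 0 := fun j => by
    rw [← hh, hz' j]
  have hvc : v ∈ closure U := frontier_subset_closure hv
  have hvn : v ∉ U := by
    rw [hUo.frontier_eq] at hv
    exact hv.2
  have hw := hch v hvc
  have h3 : |v 0| ≤ 3 := (hcl hvc).1
  have ht : |v 0| = 3 ∨ ∃ s i, |pch G x N a (pmap v) s i| = a := by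
    by_contra hcon
    push Not at hcon
    apply hvn
    rw [hUmem]
    refine ⟨lt_of_le_of_ne h3 hcon.1, pch G x N a (pmap v), hw, fun s i => ?_⟩
    exact lt_of_le_of_ne (hw.2.2.1 s i) (hcon.2 s i)
  rcases le_total 0 (v 0) with h0 | h0
  · rw [abs_of_nonneg h0] at h3 ht
    obtain ⟨k1, k2, k3⟩ := chain_zeroO H hx0 hGx hb hba hrb hε hac hc he h0 hw hz ht
    exact ⟨v 0, _, _, k1, h3, hw, k2, k3⟩
  · rw [abs_of_nonpos h0] at h3 ht
    have hw' := chain_neg' ha1.le hodd hxodd hxc hw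
    obtain ⟨k1, k2, k3⟩ := chain_zeroO H hx0 hGx hb hba hrb hε hac hc he
      (by linarith : 0 ≤ -(v 0)) hw' (fun j => by
        have h4 := fldO_neg b ε j (fun i k => pch G x N a (pmap v) (Fin.ofNat (N + 1) k) i)
          (v 0) (N := N)
        rw [hz j, neg_zero] at h4
        exact h4) (by
        rcases ht with ht | ⟨s, i, ht⟩
        · exact Or.inl ht
        · exact Or.inr ⟨s, i, by
            rw [Pi.neg_apply, PiLp.neg_apply, abs_neg]
            exact ht⟩)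
    exact ⟨-(v 0), _, _, k1, h3, hw', k2, k3⟩

end Pool.Agent.CubeM
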